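import Mathlib

open Finset

namespace Pool.Agent.Helper3.DB

theorem exists_signs (N : ℕ) : ∃ S : Finset (Fin N → ℝ), S.Nonempty ∧ (∀ ε ∈ S, ∀ k, |ε k| = 1) ∧
    ∀ k l, ∑ ε ∈ S, ε k * ε l = if k = l then (S.card : ℝ) else 0 := by
  classical
  refine ⟨Fintype.piFinset fun _ => ({1, -1} : Finset ℝ), ?_, ?_, ?_⟩
  · exact ⟨fun _ => 1, by simp⟩
  · intro ε hε k
    have := Fintype.mem_piFinset.1 hε k
    simp only [mem_insert, mem_singleton] at this
    rcases this with h | h <;> simp [h]
  · intro k l
    by_cases hkl : k = l
    · subst hkl
      rw [if_pos rfl, card_eq_sum_ones, Nat.cast_sum]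
      refine sum_congr rfl fun ε hε => ?_
      have := Fintype.mem_piFinset.1 hε k
      simp only [mem_insert, mem_singleton] at this
      rcases this with h | h <;> simp [h]
    · rw [if_neg hkl]
      have key : ∑ ε ∈ Fintype.piFinset fun _ : Fin N => ({1, -1} : Finset ℝ), ε k * ε l =
          ∑ ε ∈ Fintype.piFinset fun _ : Fin N => ({1, -1} : Finset ℝ), -(ε k * ε l) := by
        refine sum_nbij' (fun ε => Function.update ε k (-ε k)) (fun ε => Function.update ε k (-ε k))
          ?_ ?_ ?_ ?_ ?_
        · intro ε hε
          rw [Fintype.mem_piFinset] at hε ⊢
          intro i
          by_cases hi : i = k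
          · subst hi
            have := hε i
            simp only [mem_insert, mem_singleton] at this
            rcases this with h | h <;> simp [h]
          · rw [Function.update_of_ne hi]
            exact hε i
        · intro ε hε
          rw [Fintype.mem_piFinset] at hε ⊢
          intro i
          by_cases hi : i = k
          · subst hi
            have := hε i
            simp only [mem_insert, mem_singleton] at this
            rcases this with h | h <;> simp [h]
          · rw [Function.update_of_ne hi]
            exact hε i
        · intro ε _
          simp
        · intro ε _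
          simp
        · intro ε _
          simp only [Function.update_self]
          rw [Function.update_of_ne (Ne.symm hkl)]
          ring
      rw [sum_neg_distrib] at key
      linarith

end Pool.Agent.Helper3.DB
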