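import Mathlib

/-!
Piece A2: Hoelder's inequality with a bounded function of small support.
-/

open MeasureTheory
open scoped ContDiff NNReal ENNReal

namespace Pool.Agent.Helper3.DB

theorem holder_small {Ω : Set (Fin 3 → ℂ)} (hΩ : MeasurableSet Ω) {p : ℝ} (hp : 2 ≤ p)
    {u g : (Fin 3 → ℂ) → ℂ} {U δ m : ℝ} (hU : 0 ≤ U) (hδ : 0 ≤ δ) (hm : 0 ≤ m)
    (hu : MemLp u (ENNReal.ofReal p) (volume.restrict Ω))
    (huU : eLpNorm u (ENNReal.ofReal p) (volume.restrict Ω) ≤ ENNReal.ofReal U)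
    (hg : Measurable g) (hgb : ∀ z, ‖g z‖ ≤ δ) {S : Set (Fin 3 → ℂ)} (hS : MeasurableSet S)
    (hSm : volume S ≤ ENNReal.ofReal m) (hgS : ∀ z, z ∉ S → g z = 0) :
    IntegrableOn (fun z => u z * g z) Ω ∧
      ‖∫ z in Ω, u z * g z‖ ≤ U * (δ * m ^ (1 - 1 / p)) := by
  have hp0 : 0 < p := by linarith
  have hr : 0 < 1 - 1 / p := by
    rw [sub_pos, div_lt_one hp0]; linarith
  have hpq : p.HolderConjugate ((1 - 1 / p)⁻¹) := by
    have h1 : (p⁻¹)⁻¹.HolderConjugate (1 - p⁻¹)⁻¹ :=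
      Real.HolderConjugate.inv_one_sub_inv (inv_pos.2 hp0) (inv_lt_one_of_one_lt₀ (by linarith))
    rw [inv_inv] at h1
    rw [one_div]
    exact h1
  set q : ℝ := (1 - 1 / p)⁻¹ with hq
  have hq0 : 0 < q := inv_pos.2 hr
  have := hpq.ennrealOfReal
  have hqr : (ENNReal.ofReal q).toReal⁻¹ = 1 - 1 / p := by
    rw [ENNReal.toReal_ofReal hq0.le, hq, inv_inv]
  -- the norm of `g`
  have hgq : eLpNorm g (ENNReal.ofReal q) (volume.restrict Ω) ≤
      ENNReal.ofReal (δ * m ^ (1 - 1 / p)) := by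
    have e1 : g = S.indicator g := by
      funext z
      by_cases hz : z ∈ S
      · rw [Set.indicator_of_mem hz]
      · rw [Set.indicator_of_notMem hz, hgS z hz]
    rw [e1, eLpNorm_indicator_eq_eLpNorm_restrict hS]
    refine (eLpNorm_le_of_ae_bound (C := δ) (Filter.Eventually.of_forall hgb)).trans ?_
    rw [hqr, mul_comm, ENNReal.ofReal_mul hδ]
    refine mul_le_mul_right ?_ _
    rw [← ENNReal.ofReal_rpow_of_nonneg hm hr.le]
    refine ENNReal.rpow_le_rpow ?_ hr.le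
    rw [Measure.restrict_apply_univ]
    exact (Measure.restrict_apply_le Ω S).trans hSm
  have hgm : MemLp g (ENNReal.ofReal q) (volume.restrict Ω) :=
    ⟨hg.aestronglyMeasurable, hgq.trans_lt ENNReal.ofReal_lt_top⟩
  have hint : MemLp (fun z => u z * g z) 1 (volume.restrict Ω) := hgm.mul' hu
  have hInt : Integrable (fun z => u z * g z) (volume.restrict Ω) := memLp_one_iff_integrable.1 hint
  refine ⟨hInt, ?_⟩
  have h1 : eLpNorm (fun z => u z * g z) 1 (volume.restrict Ω) ≤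
      ENNReal.ofReal U * ENNReal.ofReal (δ * m ^ (1 - 1 / p)) := by
    have h2 : eLpNorm (u • g) 1 (volume.restrict Ω) ≤
        eLpNorm u (ENNReal.ofReal p) (volume.restrict Ω) *
          eLpNorm g (ENNReal.ofReal q) (volume.restrict Ω) :=
      eLpNorm_smul_le_mul_eLpNorm hgm.1 hu.1
    exact h2.trans (mul_le_mul' huU hgq)
  rw [← ENNReal.ofReal_mul hU] at h1
  have h3 : ‖∫ z in Ω, u z * g z‖ₑ ≤ ENNReal.ofReal (U * (δ * m ^ (1 - 1 / p))) := by
    refine (enorm_integral_le_lintegral_enorm _).trans ?_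
    rw [eLpNorm_one_eq_lintegral_enorm] at h1
    exact h1
  have h4 : 0 ≤ U * (δ * m ^ (1 - 1 / p)) := by positivity
  rw [← ofReal_norm, ENNReal.ofReal_le_ofReal_iff h4] at h3
  exact h3

end Pool.Agent.Helper3.DB
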