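import Mathlib

open MeasureTheory
open scoped ContDiff NNReal ENNReal

namespace Pool.Agent.Helper3.DB

namespace A3Aux

theorem hol {α : Type*} [MeasurableSpace α] {μ : Measure α} {p : ℝ} (hp : 2 ≤ p) {u h : α → ℂ}
    (hu : AEStronglyMeasurable u μ) (hh : Measurable h) {S0 : Set α} (hS : MeasurableSet S0)
    (h0 : ∀ z, z ∉ S0 → h z = 0) :
    ‖∫ z, u z * h z ∂μ‖ₑ ≤ eLpNorm u (ENNReal.ofReal p) μ *
      (eLpNorm h 2 (μ.restrict S0) * (μ S0) ^ (1 / 2 - 1 / p)) := by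
  have hp0 : 0 < p := by linarith
  have hp1 : 1 < p := by linarith
  set q : ℝ := p / (p - 1) with hq
  have hpq : p.HolderConjugate q := Real.HolderConjugate.conjExponent hp1
  have hq0 : 0 < q := hpq.symm.pos
  have hq2 : q ≤ 2 := by
    rw [hq, div_le_iff₀ (by linarith)]
    linarith
  have hinv : 1 / q = 1 - 1 / p := by
    rw [hq]
    field_simp
  have : ENNReal.HolderTriple (ENNReal.ofReal p) (ENNReal.ofReal q) 1 := by
    have := Real.HolderTriple.ennrealOfReal hpq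
    rwa [ENNReal.ofReal_one] at this
  have h1 : ‖∫ z, u z * h z ∂μ‖ₑ ≤ eLpNorm (u • h) 1 μ := by
    rw [eLpNorm_one_eq_lintegral_enorm]
    exact enorm_integral_le_lintegral_enorm _
  have h2 : eLpNorm (u • h) 1 μ ≤
      eLpNorm u (ENNReal.ofReal p) μ * eLpNorm h (ENNReal.ofReal q) μ :=
    eLpNorm_smul_le_mul_eLpNorm hh.aestronglyMeasurable hu
  have h3 : S0.indicator h = h := by
    ext z
    by_cases hz : z ∈ S0
    · rw [Set.indicator_of_mem hz]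
    · rw [Set.indicator_of_notMem hz, h0 z hz]
  have h4 : eLpNorm h (ENNReal.ofReal q) μ = eLpNorm h (ENNReal.ofReal q) (μ.restrict S0) := by
    rw [← eLpNorm_indicator_eq_eLpNorm_restrict hS, h3]
  have h5 : eLpNorm h (ENNReal.ofReal q) (μ.restrict S0) ≤
      eLpNorm h 2 (μ.restrict S0) * (μ.restrict S0) Set.univ ^
        (1 / (ENNReal.ofReal q).toReal - 1 / (2 : ℝ≥0∞).toReal) :=
    eLpNorm_le_eLpNorm_mul_rpow_measure_univ (by
      rw [show (2 : ℝ≥0∞) = ENNReal.ofReal 2 by simp]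
      exact ENNReal.ofReal_le_ofReal hq2) hh.aestronglyMeasurable
  rw [Measure.restrict_apply_univ, ENNReal.toReal_ofReal hq0.le, hinv,
    show 1 - 1 / p - 1 / (2 : ℝ≥0∞).toReal = 1 / 2 - 1 / p by
      rw [ENNReal.toReal_ofNat]; ring] at h5
  refine h1.trans (h2.trans ?_)
  rw [h4]
  gcongr

theorem sum_sq {N : ℕ} {S : Finset (Fin N → ℝ)}
    (hS2 : ∀ k l, ∑ ε ∈ S, ε k * ε l = if k = l then (S.card : ℝ) else 0) (g : Fin N → ℂ) :
    ∑ ε ∈ S, ‖∑ k, (ε k : ℂ) * g k‖ ^ 2 = S.card * ∑ k, ‖g k‖ ^ 2 := by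
  have key : ∀ w : ℂ, ((‖w‖ ^ 2 : ℝ) : ℂ) = w * (starRingEnd ℂ) w := by
    intro w
    rw [Complex.mul_conj, Complex.normSq_eq_norm_sq]
  apply Complex.ofReal_injective
  push_cast
  have e1 : ∀ ε : Fin N → ℝ, ((‖∑ k, (ε k : ℂ) * g k‖ : ℝ) : ℂ) ^ 2 =
      ∑ k, ∑ l, ((ε k * ε l : ℝ) : ℂ) * (g k * (starRingEnd ℂ) (g l)) := by
    intro ε
    have := key (∑ k, (ε k : ℂ) * g k)
    push_cast at this
    rw [this, map_sum, Finset.sum_mul_sum]
    refine Finset.sum_congr rfl fun k _ => Finset.sum_congr rfl fun l _ => ?_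
    rw [map_mul, Complex.conj_ofReal]
    push_cast
    ring
  simp_rw [e1]
  rw [Finset.sum_comm, Finset.mul_sum]
  refine Finset.sum_congr rfl fun k _ => ?_
  rw [Finset.sum_comm]
  have e2 : ∀ l, ∑ ε ∈ S, ((ε k * ε l : ℝ) : ℂ) * (g k * (starRingEnd ℂ) (g l)) =
      if k = l then (S.card : ℂ) * (g k * (starRingEnd ℂ) (g l)) else 0 := by
    intro l
    rw [← Finset.sum_mul, ← Complex.ofReal_sum, hS2]
    split_ifs <;> simp
  simp_rw [e2]
  rw [Finset.sum_ite_eq, if_pos (Finset.mem_univ _)]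
  have := key (g k)
  push_cast at this
  rw [this]

theorem eLpNorm_two_sq {α : Type*} [MeasurableSpace α] {ν : Measure α} (h : α → ℂ) :
    eLpNorm h 2 ν ^ 2 = ∫⁻ z, ‖h z‖ₑ ^ 2 ∂ν := by
  have := eLpNorm_nnreal_pow_eq_lintegral (f := h) (μ := ν) (p := 2) two_ne_zero
  have h2 : ((2 : ℝ≥0) : ℝ) = ((2 : ℕ) : ℝ) := by norm_num
  rw [h2] at this
  simp only [ENNReal.rpow_natCast] at this
  exact_mod_cast this

end A3Aux

theorem signs_average {N : ℕ} {S : Finset (Fin N → ℝ)}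
    (hS2 : ∀ k l, ∑ ε ∈ S, ε k * ε l = if k = l then (S.card : ℝ) else 0)
    {Ω : Set (Fin 3 → ℂ)} (hΩ : MeasurableSet Ω) {p : ℝ} (hp : 2 ≤ p)
    {u : (Fin N → ℝ) → (Fin 3 → ℂ) → ℂ} {g : Fin N → (Fin 3 → ℂ) → ℂ} {U G m : ℝ} (hU : 0 ≤ U)
    (hG : 0 ≤ G) (hm : 0 ≤ m)
    (hu : ∀ ε ∈ S, MemLp (u ε) (ENNReal.ofReal p) (volume.restrict Ω))
    (huU : ∀ ε ∈ S, eLpNorm (u ε) (ENNReal.ofReal p) (volume.restrict Ω) ≤ ENNReal.ofReal U)
    (hg : ∀ k, Measurable (g k)) (hgb : ∀ k z, ‖g k z‖ ≤ G) {S0 : Set (Fin 3 → ℂ)}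
    (hS : MeasurableSet S0) (hSm : volume S0 ≤ ENNReal.ofReal m)
    (hgS : ∀ k z, z ∉ S0 → g k z = 0) :
    ∑ ε ∈ S, ‖∫ z in Ω, u ε z * ∑ k, (ε k : ℂ) * g k z‖ ≤
      S.card * (U * (Real.sqrt N * G * m ^ (1 - 1 / p))) := by
  have hp0 : 0 < p := by linarith
  have hpi : 1 / p ≤ 1 / 2 := one_div_le_one_div_of_le two_pos hp
  set μ : Measure (Fin 3 → ℂ) := volume.restrict Ω with hμ
  set ν : Measure (Fin 3 → ℂ) := μ.restrict S0 with hν
  have hμS : μ S0 ≤ ENNReal.ofReal m := (Measure.restrict_le_self S0).trans hSm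
  have hνu : ν Set.univ ≤ ENNReal.ofReal m := by
    rw [hν, Measure.restrict_apply_univ]
    exact hμS
  set h : (Fin N → ℝ) → (Fin 3 → ℂ) → ℂ := fun ε z => ∑ k, (ε k : ℂ) * g k z with hh
  have hmeas : ∀ ε, Measurable (h ε) := fun ε =>
    Finset.measurable_sum _ fun k _ => (hg k).const_mul _
  have hsupp : ∀ ε z, z ∉ S0 → h ε z = 0 := fun ε z hz =>
    Finset.sum_eq_zero fun k _ => by rw [hgS k z hz, mul_zero]
  -- the sum of the squares of the norms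
  have hsum : ∑ ε ∈ S, eLpNorm (h ε) 2 ν ^ 2 ≤ ENNReal.ofReal (S.card * (N * G ^ 2) * m) := by
    simp_rw [A3Aux.eLpNorm_two_sq]
    rw [← lintegral_finsetSum _ fun ε _ => ((hmeas ε).enorm.pow_const 2)]
    have hpt : ∀ z, ∑ ε ∈ S, ‖h ε z‖ₑ ^ 2 ≤ ENNReal.ofReal (S.card * (N * G ^ 2)) := by
      intro z
      have e1 : ∑ ε ∈ S, ‖h ε z‖ₑ ^ 2 = ENNReal.ofReal (∑ ε ∈ S, ‖h ε z‖ ^ 2) := by
        rw [ENNReal.ofReal_sum_of_nonneg fun ε _ => by positivity]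
        refine Finset.sum_congr rfl fun ε _ => ?_
        rw [ENNReal.ofReal_pow (norm_nonneg _), ofReal_norm]
      rw [e1]
      apply ENNReal.ofReal_le_ofReal
      rw [hh, A3Aux.sum_sq hS2]
      refine mul_le_mul_of_nonneg_left ?_ (by positivity)
      calc ∑ k, ‖g k z‖ ^ 2 ≤ ∑ _k : Fin N, G ^ 2 :=
            Finset.sum_le_sum fun k _ => pow_le_pow_left₀ (norm_nonneg _) (hgb k z) 2
        _ = N * G ^ 2 := by simp
    calc ∫⁻ z, ∑ ε ∈ S, ‖h ε z‖ₑ ^ 2 ∂ν ≤ ∫⁻ _z, ENNReal.ofReal (S.card * (N * G ^ 2)) ∂ν :=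
          lintegral_mono hpt
      _ = ENNReal.ofReal (S.card * (N * G ^ 2)) * ν Set.univ := lintegral_const _
      _ ≤ ENNReal.ofReal (S.card * (N * G ^ 2)) * ENNReal.ofReal m := by gcongr
      _ = ENNReal.ofReal (S.card * (N * G ^ 2) * m) := by
          rw [← ENNReal.ofReal_mul (by positivity)]
  have hfin : ∀ ε ∈ S, eLpNorm (h ε) 2 ν ≠ ⊤ := by
    intro ε hε hne
    have h1 : eLpNorm (h ε) 2 ν ^ 2 ≤ ∑ ε ∈ S, eLpNorm (h ε) 2 ν ^ 2 :=
      Finset.single_le_sum (f := fun ε => eLpNorm (h ε) 2 ν ^ 2) (fun _ _ => zero_le) hε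
    rw [hne] at h1
    have h2 := h1.trans hsum
    simp at h2
  -- real numbers
  set a : (Fin N → ℝ) → ℝ := fun ε => (eLpNorm (h ε) 2 ν).toReal with ha
  have hasum : ∑ ε ∈ S, a ε ^ 2 ≤ S.card * (N * G ^ 2) * m := by
    have e1 : ∑ ε ∈ S, a ε ^ 2 = (∑ ε ∈ S, eLpNorm (h ε) 2 ν ^ 2).toReal := by
      rw [ENNReal.toReal_sum fun ε hε => by
        exact ENNReal.pow_ne_top (hfin ε hε)]
      refine Finset.sum_congr rfl fun ε _ => ?_
      rw [ENNReal.toReal_pow]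
    rw [e1]
    exact ENNReal.toReal_le_of_le_ofReal (by positivity) hsum
  have hcs : ∑ ε ∈ S, a ε ≤ S.card * (Real.sqrt N * G * Real.sqrt m) := by
    have h1 : (∑ ε ∈ S, a ε) ^ 2 ≤ (S.card * (Real.sqrt N * G * Real.sqrt m)) ^ 2 := by
      calc (∑ ε ∈ S, a ε) ^ 2 ≤ S.card * ∑ ε ∈ S, a ε ^ 2 := sq_sum_le_card_mul_sum_sq
        _ ≤ S.card * (S.card * (N * G ^ 2) * m) := by gcongr
        _ = (S.card * (Real.sqrt N * G * Real.sqrt m)) ^ 2 := by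
            rw [mul_pow, mul_pow, mul_pow, Real.sq_sqrt (Nat.cast_nonneg N), Real.sq_sqrt hm]
            ring
    exact (pow_le_pow_iff_left₀ (Finset.sum_nonneg fun ε _ => ENNReal.toReal_nonneg)
      (by positivity) two_ne_zero).1 h1
  -- each term
  have hterm : ∀ ε ∈ S, ‖∫ z in Ω, u ε z * ∑ k, (ε k : ℂ) * g k z‖ ≤
      U * (a ε * m ^ (1 / 2 - 1 / p)) := by
    intro ε hε
    have h1 := A3Aux.hol hp (hu ε hε).1 (hmeas ε) hS (hsupp ε)
    have h2 : ‖∫ z in Ω, u ε z * ∑ k, (ε k : ℂ) * g k z‖ₑ ≤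
        ENNReal.ofReal (U * (a ε * m ^ (1 / 2 - 1 / p))) := by
      refine h1.trans ?_
      rw [ENNReal.ofReal_mul hU, ENNReal.ofReal_mul ENNReal.toReal_nonneg,
        ENNReal.ofReal_toReal (hfin ε hε), ← ENNReal.ofReal_rpow_of_nonneg hm (by linarith)]
      gcongr
      exact huU ε hε
    have h3 := ENNReal.toReal_le_of_le_ofReal
      (mul_nonneg hU (mul_nonneg ENNReal.toReal_nonneg (Real.rpow_nonneg hm _))) h2
    rwa [toReal_enorm] at h3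
  calc ∑ ε ∈ S, ‖∫ z in Ω, u ε z * ∑ k, (ε k : ℂ) * g k z‖
      ≤ ∑ ε ∈ S, U * (a ε * m ^ (1 / 2 - 1 / p)) := Finset.sum_le_sum hterm
    _ = U * ((∑ ε ∈ S, a ε) * m ^ (1 / 2 - 1 / p)) := by
        rw [← Finset.mul_sum, ← Finset.sum_mul]
    _ ≤ U * ((S.card * (Real.sqrt N * G * Real.sqrt m)) * m ^ (1 / 2 - 1 / p)) := by
        gcongr
    _ = S.card * (U * (Real.sqrt N * G * m ^ (1 - 1 / p))) := by
        have e : m ^ (1 - 1 / p) = Real.sqrt m * m ^ (1 / 2 - 1 / p) := by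
          rw [Real.sqrt_eq_rpow, ← Real.rpow_add_of_nonneg hm (by norm_num) (by linarith)]
          congr 1
          ring
        rw [e]
        ring

end Pool.Agent.Helper3.DB
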