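import Pool.Agent.Helper3.DB.Defs
import Pool.Agent.Helper3.DB.A1
import Pool.Agent.Helper3.DB.A2
import Pool.Agent.Helper3.DB.A3

open MeasureTheory
open scoped ContDiff NNReal ENNReal

namespace Pool.Agent.Helper3.DB

theorem isTest_sum {Ω : Set (Fin 3 → ℂ)} {N : ℕ} {V : Fin N → (Fin 3 → ℂ) → ℂ}
    (hV : ∀ k, IsTest Ω (V k)) (a : Fin N → ℂ) : IsTest Ω (fun z => ∑ k, a k * V k z) := by
  have hsub : tsupport (fun z => ∑ k, a k * V k z) ⊆ ⋃ k, tsupport (V k) := by
    apply closure_minimal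
    · intro z hz
      by_contra hcon
      apply hz
      simp only [Set.mem_iUnion, not_exists] at hcon
      refine Finset.sum_eq_zero fun k _ => ?_
      rw [image_eq_zero_of_notMem_tsupport (hcon k), mul_zero]
    · exact isClosed_iUnion_of_finite fun k => isClosed_tsupport _
  refine ⟨ContDiff.sum fun k _ => contDiff_const.mul (hV k).1, ?_, ?_⟩
  · exact IsCompact.of_isClosed_subset (isCompact_iUnion fun k => (hV k).2.1)
      (isClosed_tsupport _) hsub
  · exact hsub.trans (Set.iUnion_subset fun k => (hV k).2.2)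

theorem dbar_sum {N : ℕ} {V : Fin N → (Fin 3 → ℂ) → ℂ} (hV : ∀ k, ContDiff ℝ ∞ (V k))
    (a : Fin N → ℂ) (j : Fin 3) (z : Fin 3 → ℂ) :
    dbar j (fun z => ∑ k, a k * V k z) z = ∑ k, a k * dbar j (V k) z := by
  have hd : ∀ k, DifferentiableAt ℝ (V k) z := fun k =>
    ((hV k).differentiable (by simp)).differentiableAt
  have h1 : fderiv ℝ (fun z => ∑ k, a k * V k z) z = ∑ k, a k • fderiv ℝ (V k) z := by
    rw [fderiv_fun_sum (fun k _ => (hd k).const_mul (a k))]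
    refine Finset.sum_congr rfl fun k _ => ?_
    rw [fderiv_const_mul (hd k)]
  unfold dbar
  rw [h1]
  simp only [sum_apply, smul_apply, smul_eq_mul,
    Finset.mul_sum, ← Finset.sum_add_distrib]
  refine Finset.sum_congr rfl fun k _ => ?_
  ring

theorem continuous_dbar {φ : (Fin 3 → ℂ) → ℂ} (hφ : ContDiff ℝ ∞ φ) (j : Fin 3) :
    Continuous (fun z => dbar j φ z) := by
  have h := hφ.continuous_fderiv (by simp)
  unfold dbar
  exact continuous_const.mul ((h.clm_apply continuous_const).add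
    (continuous_const.mul (h.clm_apply continuous_const)))

theorem dbar_hasCompactSupport {φ : (Fin 3 → ℂ) → ℂ} (hφ : HasCompactSupport φ) (j : Fin 3) :
    HasCompactSupport (fun z => dbar j φ z) := by
  have h := hφ.fderiv (𝕜 := ℝ)
  refine h.mono' ?_
  intro z hz
  by_contra hcon
  apply hz
  have := image_eq_zero_of_notMem_tsupport hcon
  simp [dbar, this]

theorem integrable_mul_cs {Ω : Set (Fin 3 → ℂ)} {p : ℝ} (hp : 2 ≤ p) {f g : (Fin 3 → ℂ) → ℂ}
    (hf : MemLp f (ENNReal.ofReal p) (volume.restrict Ω)) (hg : Continuous g)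
    (hgc : HasCompactSupport g) : Integrable (fun z => f z * g z) (volume.restrict Ω) := by
  have h1 : (1 : ℝ≥0∞) ≤ ENNReal.ofReal p := by
    rw [← ENNReal.ofReal_one]; exact ENNReal.ofReal_le_ofReal (by linarith)
  have h2 := (hf.locallyIntegrable h1).integrable_smul_left_of_hasCompactSupport hg hgc
  refine h2.congr (Filter.Eventually.of_forall fun z => ?_)
  simp [mul_comm]

theorem weakClosed_sum {Ω : Set (Fin 3 → ℂ)} {N : ℕ} {p : ℝ} (hp : 2 ≤ p)
    {f : Fin N → Fin 3 → (Fin 3 → ℂ) → ℂ}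
    (hfL : ∀ k j, MemLp (f k j) (ENNReal.ofReal p) (volume.restrict Ω))
    (hf : ∀ k, WeakClosed Ω (f k)) (a : Fin N → ℂ) :
    WeakClosed Ω (fun j z => ∑ k, a k * f k j z) := by
  intro φ hφ i j
  have key : ∀ i j, ∫ z in Ω, (∑ k, a k * f k j z) * dbar i φ z =
      ∑ k, a k * ∫ z in Ω, f k j z * dbar i φ z := by
    intro i j
    have h1 : ∀ z, (∑ k, a k * f k j z) * dbar i φ z = ∑ k, a k * (f k j z * dbar i φ z) := by
      intro z
      rw [Finset.sum_mul]
      exact Finset.sum_congr rfl fun k _ => by ring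
    simp_rw [h1]
    rw [integral_finsetSum]
    · exact Finset.sum_congr rfl fun k _ => integral_const_mul _ _
    · intro k _
      exact (integrable_mul_cs hp (hfL k j) (continuous_dbar hφ.1 i)
        (dbar_hasCompactSupport hφ.2.1 i)).const_mul _
  rw [key, key]
  exact Finset.sum_congr rfl fun k _ => by rw [hf k φ hφ i j]

theorem duality_bound {N : ℕ} {Ω : Set (Fin 3 → ℂ)} (hΩ : MeasurableSet Ω) {p : ℝ} (hp : 2 ≤ p)
    {C : ℝ≥0}
    (hC : ∀ f : Fin 3 → (Fin 3 → ℂ) → ℂ,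
      (∀ j, MemLp (f j) (ENNReal.ofReal p) (volume.restrict Ω)) → WeakClosed Ω f →
      ∃ u : (Fin 3 → ℂ) → ℂ, MemLp u (ENNReal.ofReal p) (volume.restrict Ω) ∧ WeakDbar Ω u f ∧
      eLpNorm u (ENNReal.ofReal p) (volume.restrict Ω) ≤
        C * ∑ j, eLpNorm (f j) (ENNReal.ofReal p) (volume.restrict Ω))
    {f V : Fin N → Fin 3 → (Fin 3 → ℂ) → ℂ} {g0 g1 : Fin N → (Fin 3 → ℂ) → ℂ}
    {F P G δ m0 m1 : ℝ} (hF0 : 0 ≤ F) (hG0 : 0 ≤ G) (hδ0 : 0 ≤ δ) (hm0 : 0 ≤ m0) (hm1 : 0 ≤ m1)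
    (hfL : ∀ k j, MemLp (f k j) (ENNReal.ofReal p) (volume.restrict Ω))
    (hfc : ∀ k, WeakClosed Ω (f k))
    (hV : ∀ k j, IsTest Ω (V k j))
    (hdiv : ∀ k z, ∑ j, dbar j (V k j) z = g0 k z + g1 k z)
    (hF : ∀ ε : Fin N → ℝ, (∀ k, |ε k| ≤ 1) →
      ∑ j, eLpNorm (fun z => ∑ k, (ε k : ℂ) * f k j z) (ENNReal.ofReal p) (volume.restrict Ω) ≤
        ENNReal.ofReal F)
    (hg0m : ∀ k, Measurable (g0 k)) (hg1m : ∀ k, Measurable (g1 k))
    {S0 : Set (Fin 3 → ℂ)} (hS0 : MeasurableSet S0) (hS0m : volume S0 ≤ ENNReal.ofReal m0)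
    (hg0b : ∀ k z, ‖g0 k z‖ ≤ G) (hg0s : ∀ k z, z ∉ S0 → g0 k z = 0)
    {S1 : Fin N → Set (Fin 3 → ℂ)} (hS1 : ∀ k, MeasurableSet (S1 k))
    (hS1m : ∀ k, volume (S1 k) ≤ ENNReal.ofReal m1)
    (hg1b : ∀ k z, ‖g1 k z‖ ≤ δ) (hg1s : ∀ k z, z ∉ S1 k → g1 k z = 0)
    (hP : ∀ k, P ≤ (-∫ z in Ω, ∑ j, f k j z * V k j z).re) :
    N * P ≤ C * F * (Real.sqrt N * G * m0 ^ (1 - 1 / p) + N * δ * m1 ^ (1 - 1 / p)) := by
  obtain ⟨S, hSne, hSabs, hSorth⟩ := exists_signs N
  have hcard : (0 : ℝ) < S.card := by exact_mod_cast hSne.card_pos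
  set U : ℝ := C * F with hU
  have hU0 : 0 ≤ U := mul_nonneg (NNReal.coe_nonneg C) hF0
  -- the solutions
  have hex : ∀ ε : Fin N → ℝ, ε ∈ S → ∃ u : (Fin 3 → ℂ) → ℂ,
      MemLp u (ENNReal.ofReal p) (volume.restrict Ω) ∧
      WeakDbar Ω u (fun j z => ∑ k, (ε k : ℂ) * f k j z) ∧
      eLpNorm u (ENNReal.ofReal p) (volume.restrict Ω) ≤ ENNReal.ofReal U := by
    intro ε hε
    obtain ⟨u, h1, h2, h3⟩ := hC (fun j z => ∑ k, (ε k : ℂ) * f k j z)
      (fun j => memLp_finsetSum _ fun k _ => (hfL k j).const_mul _)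
      (weakClosed_sum hp hfL hfc fun k => (ε k : ℂ))
    refine ⟨u, h1, h2, h3.trans ?_⟩
    rw [hU, ENNReal.ofReal_mul (NNReal.coe_nonneg C)]
    refine mul_le_mul' (by simp) (hF ε fun k => (hSabs ε hε k).le)
  choose! u hu1 hu2 hu3 using hex
  -- integrability
  have hint : ∀ ε ∈ S, ∀ k j, Integrable (fun z => u ε z * dbar j (V k j) z) (volume.restrict Ω) :=
    fun ε hε k j => integrable_mul_cs hp (hu1 ε hε) (continuous_dbar (hV k j).1 j)
      (dbar_hasCompactSupport (hV k j).2.1 j)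
  have hintf : ∀ k l j, Integrable (fun z => f k j z * V l j z) (volume.restrict Ω) :=
    fun k l j => integrable_mul_cs hp (hfL k j) (hV l j).1.continuous (hV l j).2.1
  have hg0I : ∀ ε ∈ S, ∀ k, IntegrableOn (fun z => u ε z * g0 k z) Ω := fun ε hε k =>
    (holder_small hΩ hp hU0 hG0 hm0 (hu1 ε hε) (hu3 ε hε) (hg0m k) (hg0b k) hS0 hS0m (hg0s k)).1
  have hg1I : ∀ ε ∈ S, ∀ k, IntegrableOn (fun z => u ε z * g1 k z) Ω := fun ε hε k =>
    (holder_small hΩ hp hU0 hδ0 hm1 (hu1 ε hε) (hu3 ε hε) (hg1m k) (hg1b k) (hS1 k) (hS1m k)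
      (hg1s k)).1
  have hg1B : ∀ ε ∈ S, ∀ k, ‖∫ z in Ω, u ε z * g1 k z‖ ≤ U * (δ * m1 ^ (1 - 1 / p)) :=
    fun ε hε k => (holder_small hΩ hp hU0 hδ0 hm1 (hu1 ε hε) (hu3 ε hε) (hg1m k) (hg1b k) (hS1 k)
      (hS1m k) (hg1s k)).2
  -- the basic identity
  have hid : ∀ ε ∈ S, (∫ z in Ω, u ε z * ∑ k, (ε k : ℂ) * g0 k z) +
      ∑ k, (ε k : ℂ) * ∫ z in Ω, u ε z * g1 k z =
      ∑ k, ∑ l, ((ε k * ε l : ℝ) : ℂ) * (-∑ j, ∫ z in Ω, f k j z * V l j z) := by
    intro ε hε
    have h1 : ∀ j, ∫ z in Ω, u ε z * dbar j (fun z => ∑ k, (ε k : ℂ) * V k j z) z =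
        -∫ z in Ω, (∑ k, (ε k : ℂ) * f k j z) * ∑ l, (ε l : ℂ) * V l j z := fun j =>
      hu2 ε hε _ (isTest_sum (fun k => hV k j) fun k => (ε k : ℂ)) j
    have h2 : ∀ j, ∫ z in Ω, u ε z * dbar j (fun z => ∑ k, (ε k : ℂ) * V k j z) z =
        ∑ k, (ε k : ℂ) * ∫ z in Ω, u ε z * dbar j (V k j) z := by
      intro j
      have : ∀ z, u ε z * dbar j (fun z => ∑ k, (ε k : ℂ) * V k j z) z =
          ∑ k, (ε k : ℂ) * (u ε z * dbar j (V k j) z) := by
        intro z
        rw [dbar_sum (fun k => (hV k j).1), Finset.mul_sum]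
        exact Finset.sum_congr rfl fun k _ => by ring
      simp_rw [this]
      rw [integral_finsetSum _ fun k _ => (hint ε hε k j).const_mul _]
      exact Finset.sum_congr rfl fun k _ => integral_const_mul _ _
    have h3 : ∀ j, ∫ z in Ω, (∑ k, (ε k : ℂ) * f k j z) * ∑ l, (ε l : ℂ) * V l j z =
        ∑ k, ∑ l, ((ε k * ε l : ℝ) : ℂ) * ∫ z in Ω, f k j z * V l j z := by
      intro j
      have : ∀ z, (∑ k, (ε k : ℂ) * f k j z) * ∑ l, (ε l : ℂ) * V l j z =
          ∑ k, ∑ l, ((ε k * ε l : ℝ) : ℂ) * (f k j z * V l j z) := by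
        intro z
        rw [Finset.sum_mul_sum]
        refine Finset.sum_congr rfl fun k _ => Finset.sum_congr rfl fun l _ => ?_
        push_cast
        ring
      simp_rw [this]
      rw [integral_finsetSum _ fun k _ => integrable_finsetSum _ fun l _ =>
        (hintf k l j).const_mul _]
      refine Finset.sum_congr rfl fun k _ => ?_
      rw [integral_finsetSum _ fun l _ => (hintf k l j).const_mul _]
      exact Finset.sum_congr rfl fun l _ => integral_const_mul _ _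
    have h4 : (∫ z in Ω, u ε z * ∑ k, (ε k : ℂ) * g0 k z) +
        ∑ k, (ε k : ℂ) * ∫ z in Ω, u ε z * g1 k z =
        ∑ j, ∑ k, (ε k : ℂ) * ∫ z in Ω, u ε z * dbar j (V k j) z := by
      rw [Finset.sum_comm]
      have e1 : ∀ k, ∑ j, (ε k : ℂ) * ∫ z in Ω, u ε z * dbar j (V k j) z =
          (ε k : ℂ) * ((∫ z in Ω, u ε z * g0 k z) + ∫ z in Ω, u ε z * g1 k z) := by
        intro k
        rw [← Finset.mul_sum, ← integral_finsetSum _ fun j _ => hint ε hε k j,
          ← integral_add (hg0I ε hε k) (hg1I ε hε k)]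
        congr 1
        refine integral_congr_ae (Filter.Eventually.of_forall fun z => ?_)
        simp only
        rw [← Finset.mul_sum, hdiv k z]
        ring
      have e2 : ∫ z in Ω, u ε z * ∑ k, (ε k : ℂ) * g0 k z =
          ∑ k, (ε k : ℂ) * ∫ z in Ω, u ε z * g0 k z := by
        have : ∀ z, u ε z * ∑ k, (ε k : ℂ) * g0 k z = ∑ k, (ε k : ℂ) * (u ε z * g0 k z) := by
          intro z
          rw [Finset.mul_sum]
          exact Finset.sum_congr rfl fun k _ => by ring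
        simp_rw [this]
        rw [integral_finsetSum _ fun k _ => (hg0I ε hε k).const_mul _]
        exact Finset.sum_congr rfl fun k _ => integral_const_mul _ _
      rw [e2, ← Finset.sum_add_distrib]
      refine Finset.sum_congr rfl fun k _ => ?_
      rw [e1 k]
      ring
    rw [h4]
    simp_rw [← h2, h1, h3]
    rw [Finset.sum_neg_distrib, Finset.sum_comm]
    simp_rw [Finset.sum_comm (s := (Finset.univ : Finset (Fin 3)))]
    simp_rw [← Finset.mul_sum, mul_neg, Finset.sum_neg_distrib]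
  -- sum over the signs
  have hsum : ∑ ε ∈ S, ∑ k, ∑ l, ((ε k * ε l : ℝ) : ℂ) * (-∑ j, ∫ z in Ω, f k j z * V l j z) =
      ∑ k, (S.card : ℂ) * (-∫ z in Ω, ∑ j, f k j z * V k j z) := by
    rw [Finset.sum_comm]
    refine Finset.sum_congr rfl fun k _ => ?_
    rw [Finset.sum_comm]
    simp_rw [← Finset.sum_mul, ← Complex.ofReal_sum, hSorth]
    rw [Finset.sum_eq_single k]
    · simp only [if_true, Complex.ofReal_natCast]
      rw [integral_finsetSum _ fun j _ => hintf k k j]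
    · intro l _ hl
      simp [Ne.symm hl]
    · simp
  have hlow : (S.card : ℝ) * (N * P) ≤
      (∑ ε ∈ S, ∑ k, ∑ l, ((ε k * ε l : ℝ) : ℂ) * (-∑ j, ∫ z in Ω, f k j z * V l j z)).re := by
    rw [hsum, Complex.re_sum]
    calc (S.card : ℝ) * (N * P) = ∑ k : Fin N, (S.card : ℝ) * P := by
          simp; ring
      _ ≤ _ := by
          refine Finset.sum_le_sum fun k _ => ?_
          have : ((S.card : ℂ) * (-∫ z in Ω, ∑ j, f k j z * V k j z)).re =
              (S.card : ℝ) * (-∫ z in Ω, ∑ j, f k j z * V k j z).re := by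
            have h := Complex.re_ofReal_mul (S.card : ℝ) (-∫ z in Ω, ∑ j, f k j z * V k j z)
            rw [← h]; norm_cast
          rw [this]
          exact mul_le_mul_of_nonneg_left (hP k) hcard.le
  have hup : (∑ ε ∈ S, ∑ k, ∑ l, ((ε k * ε l : ℝ) : ℂ) *
      (-∑ j, ∫ z in Ω, f k j z * V l j z)).re ≤
      S.card * (U * (Real.sqrt N * G * m0 ^ (1 - 1 / p))) +
        S.card * (N * (U * (δ * m1 ^ (1 - 1 / p)))) := by
    refine (Complex.re_le_norm _).trans ?_
    rw [Finset.sum_congr rfl fun ε hε => (hid ε hε).symm, Finset.sum_add_distrib]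
    refine (norm_add_le _ _).trans (add_le_add ?_ ?_)
    · refine (norm_sum_le _ _).trans ?_
      exact signs_average hSorth hΩ hp hU0 hG0 hm0 hu1 hu3 hg0m hg0b hS0 hS0m hg0s
    · refine (norm_sum_le _ _).trans ?_
      rw [← nsmul_eq_mul]
      refine Finset.sum_le_card_nsmul _ _ _ fun ε hε => ?_
      refine (norm_sum_le _ _).trans ?_
      have : ∀ k ∈ (Finset.univ : Finset (Fin N)), ‖(ε k : ℂ) * ∫ z in Ω, u ε z * g1 k z‖ ≤
          U * (δ * m1 ^ (1 - 1 / p)) := by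
        intro k _
        rw [norm_mul, Complex.norm_real, Real.norm_eq_abs, hSabs ε hε k, one_mul]
        exact hg1B ε hε k
      refine (Finset.sum_le_card_nsmul _ _ _ this).trans (le_of_eq ?_)
      simp
  have := hlow.trans hup
  rw [← mul_add] at this
  have h5 := le_of_mul_le_mul_left this hcard
  refine h5.trans (le_of_eq ?_)
  ring

end Pool.Agent.Helper3.DB
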