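import Pool.Agent.Helper3.DB.Defs

open MeasureTheory
open scoped ContDiff NNReal ENNReal

namespace Pool.Agent.Helper3.DB

namespace B1aux

theorem chi_cd : ContDiff ℝ ∞ chi := by
  have h : ContDiff ℝ ∞ (fun s : ℝ => 2 - 2 * s) := by fun_prop
  exact (Real.smoothTransition.contDiff (n := ⊤)).comp h

theorem coord_cd (i : Fin 3) : ContDiff ℝ ∞ (fun ζ : Fin 3 → ℂ => ζ i) := by fun_prop

theorem re_cd (i : Fin 3) : ContDiff ℝ ∞ (fun ζ : Fin 3 → ℂ => (ζ i).re) :=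
  Complex.reCLM.contDiff.comp (coord_cd i)

theorem real_cd {g : ℝ → ℝ} (hg : ContDiff ℝ ∞ g) (c : ℝ) (i : Fin 3) :
    ContDiff ℝ ∞ (fun ζ : Fin 3 → ℂ => ((g ((ζ i).re / c) : ℝ) : ℂ)) := by
  have h1 : ContDiff ℝ ∞ (fun ζ : Fin 3 → ℂ => g ((ζ i).re / c)) :=
    hg.comp ((re_cd i).div_const c)
  exact Complex.ofRealCLM.contDiff.comp h1

theorem exp_cd (c : ℂ) (i : Fin 3) :
    ContDiff ℝ ∞ (fun ζ : Fin 3 → ℂ => Complex.exp (c * ζ i)) := by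
  have h1 : ContDiff ℝ ∞ (fun ζ : Fin 3 → ℂ => c * ζ i) := contDiff_const.mul (coord_cd i)
  exact h1.cexp

/-- the derivative of `g (Re ζ_i / c)`. -/
theorem hasFDerivAt_real {g : ℝ → ℝ} (hg : Differentiable ℝ g) (c : ℝ) (i : Fin 3)
    (ζ : Fin 3 → ℂ) :
    HasFDerivAt (fun ζ : Fin 3 → ℂ => ((g ((ζ i).re / c) : ℝ) : ℂ))
      (Complex.ofRealCLM.comp ((deriv g ((ζ i).re / c) / c) •
        (Complex.reCLM.comp (ContinuousLinearMap.proj (R := ℝ) (φ := fun _ : Fin 3 => ℂ) i)))) ζ := by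
  have h1 : HasFDerivAt (fun ζ : Fin 3 → ℂ => (ζ i).re)
      (Complex.reCLM.comp (ContinuousLinearMap.proj (R := ℝ) (φ := fun _ : Fin 3 => ℂ) i)) ζ :=
    (Complex.reCLM.comp
      (ContinuousLinearMap.proj (R := ℝ) (φ := fun _ : Fin 3 => ℂ) i)).hasFDerivAt
  have h2 : HasDerivAt (fun s : ℝ => g (s / c)) (deriv g ((ζ i).re / c) / c) ((ζ i).re) := by
    have h3 : HasDerivAt (fun s : ℝ => s / c) (1 / c) ((ζ i).re) := by
      simpa using (hasDerivAt_id ((ζ i).re)).div_const c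
    have h4 := (hg ((ζ i).re / c)).hasDerivAt.comp ((ζ i).re) h3
    simpa [div_eq_mul_inv, Function.comp_def] using h4
  have h5 := h2.comp_hasFDerivAt ζ h1
  exact Complex.ofRealCLM.hasFDerivAt.comp ζ h5

/-- the derivative of `exp (c ζ_i)`. -/
theorem hasFDerivAt_exp (c : ℂ) (i : Fin 3) (ζ : Fin 3 → ℂ) :
    HasFDerivAt (fun ζ : Fin 3 → ℂ => Complex.exp (c * ζ i))
      ((Complex.exp (c * ζ i) * c) •
        (ContinuousLinearMap.proj (R := ℝ) (φ := fun _ : Fin 3 => ℂ) i)) ζ := by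
  have h1 : HasFDerivAt (fun ζ : Fin 3 → ℂ => c * ζ i)
      (c • (ContinuousLinearMap.proj (R := ℝ) (φ := fun _ : Fin 3 => ℂ) i)) ζ := by
    have h0 : HasFDerivAt (fun ζ : Fin 3 → ℂ => ζ i)
      (ContinuousLinearMap.proj (R := ℝ) (φ := fun _ : Fin 3 => ℂ) i) ζ :=
      (ContinuousLinearMap.proj (R := ℝ) (φ := fun _ : Fin 3 => ℂ) i).hasFDerivAt
    simpa using h0.const_mul c
  refine h1.cexp.congr_fderiv ?_
  ext v
  simp [mul_assoc]

end B1aux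

open B1aux

theorem Phib_contDiff (M : ℕ) (τ : ℝ) : ContDiff ℝ ∞ (Phib M τ) := by
  have h3 : ContDiff ℝ ∞ (fun ζ : Fin 3 → ℂ => Complex.exp (-(τ * ζ 2))) := by
    have := exp_cd (-(τ : ℂ)) 2
    simpa [neg_mul] using this
  exact ((real_cd chi_cd (Rp M) 0).mul (exp_cd (KK M) 0)).mul h3

theorem dbar_Phib (M : ℕ) (τ : ℝ) (ζ : Fin 3 → ℂ) :
    dbar 0 (Phib M τ) ζ = Fb M τ ζ ∧ dbar 1 (Phib M τ) ζ = 0 ∧ dbar 2 (Phib M τ) ζ = 0 := by
  have h1 := hasFDerivAt_real (chi_cd.differentiable (by simp)) (Rp M) 0 ζ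
  have h2 := hasFDerivAt_exp (KK M) 0 ζ
  have h3 := hasFDerivAt_exp (-(τ : ℂ)) 2 ζ
  have he : (fun ζ : Fin 3 → ℂ =>
      ((chi ((ζ 0).re / Rp M) : ℝ) : ℂ) * Complex.exp (KK M * ζ 0) *
        Complex.exp (-(τ : ℂ) * ζ 2)) = Phib M τ := by
    funext ζ
    simp [Phib, neg_mul]
  have hP := (h1.fun_mul h2).fun_mul h3
  rw [he] at hP
  have hI : Complex.I * Complex.I = -1 := Complex.I_mul_I
  have hI2 : Complex.I ^ 2 = -1 := Complex.I_sq
  refine ⟨?_, ?_, ?_⟩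
  · simp only [dbar, hP.fderiv, Fb]
    simp [neg_mul]
    ring_nf
    rw [hI2]
    ring
  · simp only [dbar, hP.fderiv]
    simp
  · simp only [dbar, hP.fderiv]
    simp [neg_mul]
    ring_nf
    rw [hI2]
    ring

end Pool.Agent.Helper3.DB
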