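import Pool.Agent.Helper3.DB.Defs

/-!
Piece B2: smoothness of the base test function and its Wirtinger derivative.
-/

open MeasureTheory
open scoped ContDiff NNReal ENNReal

namespace Pool.Agent.Helper3.DB

theorem b2_chi : ContDiff ℝ ∞ chi :=
  Real.smoothTransition.contDiff.comp (by fun_prop)

theorem b2_TT : ContDiff ℝ ∞ TT :=
  Real.smoothTransition.contDiff.comp (by fun_prop)

theorem b2_cc : ContDiff ℝ ∞ cc :=
  b2_chi.mul (b2_chi.comp contDiff_neg)

theorem b2_eta : ContDiff ℝ ∞ eta :=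
  b2_cc.comp (by fun_prop)

theorem b2_BB : ContDiff ℝ ∞ BB :=
  b2_cc.comp (by fun_prop)

theorem b2_re : ContDiff ℝ ∞ (fun s : ℂ => s.re) := Complex.reCLM.contDiff

theorem b2_im : ContDiff ℝ ∞ (fun s : ℂ => s.im) := Complex.imCLM.contDiff

theorem b2_ofReal {f : ℂ → ℝ} (hf : ContDiff ℝ ∞ f) : ContDiff ℝ ∞ (fun s : ℂ => ((f s : ℝ) : ℂ)) :=
  Complex.ofRealCLM.contDiff.comp hf

theorem b2_exp {f : ℂ → ℂ} (hf : ContDiff ℝ ∞ f) : ContDiff ℝ ∞ (fun s : ℂ => Complex.exp (f s)) :=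
  Complex.contDiff_exp.comp hf

theorem b2_arg (M : ℕ) : ContDiff ℝ ∞ (fun s : ℂ => -(KK M * s) + kap M * s ^ 2) := by
  fun_prop

theorem b2_v0 (M : ℕ) : ContDiff ℝ ∞ (v0 M) := by
  refine (b2_ofReal ?_).mul (b2_exp (b2_arg M))
  exact ((b2_TT.comp (b2_re.div_const _)).mul (b2_chi.comp (b2_re.div_const _))).mul
    (b2_eta.comp b2_im)

theorem b2_v1 (M : ℕ) : ContDiff ℝ ∞ (v1 M) := by
  refine (b2_ofReal ?_).mul (b2_exp (by fun_prop))
  exact (b2_cc.comp (b2_re.div_const _)).mul (b2_eta.comp b2_im)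

theorem b2_v2 (τ : ℝ) : ContDiff ℝ ∞ (v2 τ) := by
  refine (b2_ofReal ?_).mul (b2_exp (by fun_prop))
  exact (b2_BB.comp (contDiff_const.mul b2_re)).mul (b2_eta.comp b2_im)

theorem b2_proj (j : Fin 3) : ContDiff ℝ ∞ (fun ζ : Fin 3 → ℂ => ζ j) := by
  fun_prop

theorem Vb_contDiff (M : ℕ) (τ : ℝ) : ContDiff ℝ ∞ (Vb M τ) :=
  (((b2_v0 M).comp (b2_proj 0)).mul ((b2_v1 M).comp (b2_proj 1))).mul
    ((b2_v2 τ).comp (b2_proj 2))

theorem b2_cont_div {f : ℝ → ℝ} (hf : Continuous f) (r : ℝ) :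
    Continuous (fun s : ℂ => f (s.re / r)) :=
  hf.comp (Complex.continuous_re.div_const r)

theorem b2_deriv_cont {f : ℝ → ℝ} (hf : ContDiff ℝ ∞ f) : Continuous (deriv f) :=
  hf.continuous_deriv (by simp)

theorem b2_d0_cont (M : ℕ) : Continuous (d0 M) := by
  unfold d0
  refine Continuous.mul (Complex.continuous_ofReal.comp ?_)
    (Complex.continuous_exp.comp (b2_arg M).continuous)
  refine continuous_const.mul (((Continuous.div_const ?_ _).mul ?_).mul ?_)
  · exact b2_cont_div (b2_deriv_cont b2_TT) _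
  · exact b2_cont_div b2_chi.continuous _
  · exact b2_eta.continuous.comp Complex.continuous_im

theorem b2_d1_cont (M : ℕ) : Continuous (d1 M) := by
  unfold d1
  refine Continuous.mul (Continuous.add (Complex.continuous_ofReal.comp ?_)
    ((Complex.continuous_ofReal.comp ?_).mul continuous_const))
    (Complex.continuous_exp.comp (b2_arg M).continuous)
  · refine continuous_const.mul (((b2_cont_div b2_TT.continuous _).mul
      (Continuous.div_const ?_ _)).mul (b2_eta.continuous.comp Complex.continuous_im))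
    exact b2_cont_div (b2_deriv_cont b2_chi) _
  · exact continuous_const.mul (((b2_cont_div b2_TT.continuous _).mul
      (b2_cont_div b2_chi.continuous _)).mul
      ((b2_deriv_cont b2_eta).comp Complex.continuous_im))

theorem continuous_G (M : ℕ) (τ : ℝ) : Continuous (G0 M τ) ∧ Continuous (G1 M τ) := by
  constructor
  · exact (((b2_d0_cont M).comp (continuous_apply 0)).mul
      ((b2_v1 M).continuous.comp (continuous_apply 1))).mul
      ((b2_v2 τ).continuous.comp (continuous_apply 2))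
  · exact (((b2_d1_cont M).comp (continuous_apply 0)).mul
      ((b2_v1 M).continuous.comp (continuous_apply 1))).mul
      ((b2_v2 τ).continuous.comp (continuous_apply 2))

/-- derivative of a product of two functions of the real part and the cutoff in `y` -/
theorem b2_deriv_x (M : ℕ) (s : ℂ) :
    HasDerivAt (fun t : ℝ => v0 M (s + t • (1 : ℂ)))
      (((deriv TT (s.re / rr M) / rr M * chi (s.re / Re' M) * eta s.im +
        TT (s.re / rr M) * (deriv chi (s.re / Re' M) / Re' M) * eta s.im : ℝ) : ℂ) *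
          Complex.exp (-(KK M * s) + kap M * s ^ 2) +
        ((TT (s.re / rr M) * chi (s.re / Re' M) * eta s.im : ℝ) : ℂ) *
          (Complex.exp (-(KK M * s) + kap M * s ^ 2) * (-(KK M) + kap M * (2 * s)))) 0 := by
  have hlin : HasDerivAt (fun t : ℝ => s.re + t) 1 0 := by
    simpa using (hasDerivAt_id (0 : ℝ)).const_add s.re
  have hT : HasDerivAt (fun t : ℝ => TT ((s.re + t) / rr M)) (deriv TT (s.re / rr M) / rr M) 0 := by
    have h1 : HasDerivAt TT (deriv TT (s.re / rr M)) ((s.re + 0) / rr M) := by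
      rw [add_zero]
      exact ((b2_TT.differentiable (by simp)) _).hasDerivAt
    have h2 := h1.comp (0 : ℝ) (hlin.div_const (rr M))
    rw [mul_one_div] at h2
    exact h2
  have hC : HasDerivAt (fun t : ℝ => chi ((s.re + t) / Re' M))
      (deriv chi (s.re / Re' M) / Re' M) 0 := by
    have h1 : HasDerivAt chi (deriv chi (s.re / Re' M)) ((s.re + 0) / Re' M) := by
      rw [add_zero]
      exact ((b2_chi.differentiable (by simp)) _).hasDerivAt
    have h2 := h1.comp (0 : ℝ) (hlin.div_const (Re' M))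
    rw [mul_one_div] at h2
    exact h2
  have hR : HasDerivAt (fun t : ℝ => TT ((s.re + t) / rr M) * chi ((s.re + t) / Re' M) * eta s.im)
      (deriv TT (s.re / rr M) / rr M * chi (s.re / Re' M) * eta s.im +
        TT (s.re / rr M) * (deriv chi (s.re / Re' M) / Re' M) * eta s.im) 0 := by
    have h2 := (hT.mul hC).mul_const (eta s.im)
    simp only [add_zero] at h2
    rw [add_mul] at h2
    exact h2
  have hR' := hR.ofReal_comp
  have hz : HasDerivAt (fun t : ℝ => s + (t : ℂ)) 1 0 := by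
    simpa using (Complex.ofRealCLM.hasDerivAt (x := (0 : ℝ))).const_add s
  have hA : HasDerivAt (fun t : ℝ => -(KK M * (s + (t : ℂ))) + kap M * (s + (t : ℂ)) ^ 2)
      (-(KK M) + kap M * (2 * s)) 0 := by
    have h1 := ((hz.const_mul (KK M : ℂ)).neg).add ((hz.pow 2).const_mul (kap M : ℂ))
    have h2 : -((KK M : ℂ) * 1) + (kap M : ℂ) * ((2 : ℕ) * (s + ((0 : ℝ) : ℂ)) ^ (2 - 1) * 1) =
        -(KK M : ℂ) + kap M * (2 * s) := by
      push_cast
      ring
    rw [h2] at h1
    exact h1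
  have hE := hA.cexp
  have hP := hR'.mul hE
  simp only [Complex.ofReal_zero, add_zero] at hP
  have hfun : (fun t : ℝ => v0 M (s + t • (1 : ℂ))) = fun t : ℝ =>
      ((TT ((s.re + t) / rr M) * chi ((s.re + t) / Re' M) * eta s.im : ℝ) : ℂ) *
        Complex.exp (-(KK M * (s + (t : ℂ))) + kap M * (s + (t : ℂ)) ^ 2) := by
    funext t
    simp [v0]
  rw [hfun]
  exact hP

theorem b2_deriv_y (M : ℕ) (s : ℂ) :
    HasDerivAt (fun t : ℝ => v0 M (s + t • Complex.I))
      (((TT (s.re / rr M) * chi (s.re / Re' M) * deriv eta s.im : ℝ) : ℂ) *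
          Complex.exp (-(KK M * s) + kap M * s ^ 2) +
        ((TT (s.re / rr M) * chi (s.re / Re' M) * eta s.im : ℝ) : ℂ) *
          (Complex.exp (-(KK M * s) + kap M * s ^ 2) *
            (-(KK M * Complex.I) + kap M * (2 * s * Complex.I)))) 0 := by
  have hlin : HasDerivAt (fun t : ℝ => s.im + t) 1 0 := by
    simpa using (hasDerivAt_id (0 : ℝ)).const_add s.im
  have hT : HasDerivAt (fun t : ℝ => eta (s.im + t)) (deriv eta s.im) 0 := by
    have h1 : HasDerivAt eta (deriv eta s.im) (s.im + 0) := by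
      rw [add_zero]
      exact ((b2_eta.differentiable (by simp)) _).hasDerivAt
    have h2 := h1.comp (0 : ℝ) hlin
    rw [mul_one] at h2
    exact h2
  have hR : HasDerivAt (fun t : ℝ => TT (s.re / rr M) * chi (s.re / Re' M) * eta (s.im + t))
      (TT (s.re / rr M) * chi (s.re / Re' M) * deriv eta s.im) 0 :=
    hT.const_mul (TT (s.re / rr M) * chi (s.re / Re' M))
  have hR' := hR.ofReal_comp
  have hz : HasDerivAt (fun t : ℝ => s + (t : ℂ) * Complex.I) Complex.I 0 := by
    simpa using ((Complex.ofRealCLM.hasDerivAt (x := (0 : ℝ))).mul_const Complex.I).const_add s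
  have hA : HasDerivAt (fun t : ℝ => -(KK M * (s + (t : ℂ) * Complex.I)) +
      kap M * (s + (t : ℂ) * Complex.I) ^ 2)
      (-(KK M * Complex.I) + kap M * (2 * s * Complex.I)) 0 := by
    have h1 := ((hz.const_mul (KK M : ℂ)).neg).add ((hz.pow 2).const_mul (kap M : ℂ))
    have h2 : -((KK M : ℂ) * Complex.I) +
        (kap M : ℂ) * ((2 : ℕ) * (s + ((0 : ℝ) : ℂ) * Complex.I) ^ (2 - 1) * Complex.I) =
        -((KK M : ℂ) * Complex.I) + kap M * (2 * s * Complex.I) := by
      push_cast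
      ring
    rw [h2] at h1
    exact h1
  have hE := hA.cexp
  have hP := hR'.mul hE
  simp only [Complex.ofReal_zero, zero_mul, add_zero] at hP
  have hfun : (fun t : ℝ => v0 M (s + t • Complex.I)) = fun t : ℝ =>
      ((TT (s.re / rr M) * chi (s.re / Re' M) * eta (s.im + t) : ℝ) : ℂ) *
        Complex.exp (-(KK M * (s + (t : ℂ) * Complex.I)) +
          kap M * (s + (t : ℂ) * Complex.I) ^ 2) := by
    funext t
    simp [v0]
  rw [hfun]
  exact hP

theorem b2_fderiv (M : ℕ) (τ : ℝ) (ζ : Fin 3 → ℂ) (c D : ℂ)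
    (h : HasDerivAt (fun t : ℝ => v0 M (ζ 0 + t • c)) D 0) :
    fderiv ℝ (Vb M τ) ζ (Pi.single 0 c) = D * v1 M (ζ 1) * v2 τ (ζ 2) := by
  have hd : DifferentiableAt ℝ (Vb M τ) ζ := ((Vb_contDiff M τ).differentiable (by simp)) ζ
  rw [← hd.lineDeriv_eq_fderiv]
  have h1 := (h.mul_const (v1 M (ζ 1))).mul_const (v2 τ (ζ 2))
  have hfun : (fun t : ℝ => Vb M τ (ζ + t • (Pi.single 0 c : Fin 3 → ℂ))) =
      fun t : ℝ => v0 M (ζ 0 + t • c) * v1 M (ζ 1) * v2 τ (ζ 2) := by
    funext t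
    simp [Vb]
  unfold lineDeriv
  rw [hfun]
  exact h1.deriv

theorem dbar_Vb (M : ℕ) (τ : ℝ) (ζ : Fin 3 → ℂ) :
    dbar 0 (Vb M τ) ζ = G0 M τ ζ + G1 M τ ζ := by
  unfold dbar
  rw [b2_fderiv M τ ζ 1 _ (b2_deriv_x M (ζ 0)), b2_fderiv M τ ζ Complex.I _ (b2_deriv_y M (ζ 0))]
  unfold G0 G1 d0 d1
  have hI : Complex.I * Complex.I = -1 := Complex.I_mul_I
  push_cast
  linear_combination (1 / 2 * (TT ((ζ 0).re / rr M) : ℂ) * (chi ((ζ 0).re / Re' M) : ℂ) *
    (eta (ζ 0).im : ℂ) * Complex.exp (-(KK M * ζ 0) + kap M * ζ 0 ^ 2) *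
    (-(KK M : ℂ) + kap M * (2 * ζ 0)) * v1 M (ζ 1) * v2 τ (ζ 2)) * hI

end Pool.Agent.Helper3.DB
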