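import Pool.Agent.Helper3.DB.C1

/-! Piece B3 (supports) of `MP_c338f1_an` (by helper87). -/

open MeasureTheory
open scoped ContDiff NNReal ENNReal

namespace Pool.Agent.Helper3.DB

private theorem rr_pos {M : ℕ} (hM : 1 ≤ M) : 0 < rr M := by
  have : (0 : ℝ) < M := by exact_mod_cast hM
  unfold rr
  positivity

private theorem Re'_pos {M : ℕ} (hM : 1 ≤ M) : 0 < Re' M := by
  have : (0 : ℝ) < M := by exact_mod_cast hM
  unfold Re'
  positivity

theorem Vb_supp {M : ℕ} (hM : 1 ≤ M) {τ : ℝ} (hτ : 0 < τ) {ζ : Fin 3 → ℂ} (h : ζ ∉ S1 M τ) :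
    Vb M τ ζ = 0 ∧ G0 M τ ζ = 0 ∧ G1 M τ ζ = 0 := by
  have hr := rr_pos hM
  have hR := Re'_pos hM
  have h0 : (v0 M (ζ 0) = 0 ∧ d0 M (ζ 0) = 0 ∧ d1 M (ζ 0) = 0) ∨ v1 M (ζ 1) = 0 ∨
      v2 τ (ζ 2) = 0 := by
    by_contra hc
    push Not at hc
    obtain ⟨hc0, hc1, hc2⟩ := hc
    apply h
    refine ⟨?_, ?_, ?_, ?_, ?_, ?_⟩
    · by_contra hlt
      have hs : (ζ 0).re / rr M ≤ -1 := by
        rw [div_le_iff₀ hr]
        linarith [not_le.1 hlt]
      refine hc0 ?_ ?_ ?_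
      · simp [v0, TT_zero hs]
      · simp [d0, deriv_TT_zero (Or.inl hs)]
      · simp [d1, TT_zero hs]
    · by_contra hlt
      have hs : 1 ≤ (ζ 0).re / Re' M := by
        rw [le_div_iff₀ hR]
        linarith [not_le.1 hlt]
      refine hc0 ?_ ?_ ?_
      · simp [v0, chi_zero hs]
      · simp [d0, chi_zero hs]
      · simp [d1, chi_zero hs, deriv_chi_zero (Or.inr hs)]
    · by_contra hlt
      have hs : 1 ≤ |(ζ 1).re / rr M| := by
        rw [abs_div, abs_of_pos hr, le_div_iff₀ hr]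
        linarith [not_le.1 hlt]
      exact hc1 (by simp [v1, cc_zero hs])
    · by_contra hlt
      have hs : τ * (ζ 2).re ≤ 4 := by
        have h1 := not_le.1 hlt
        rw [lt_div_iff₀ hτ] at h1
        linarith
      exact hc2 (by simp [v2, BB_zero (Or.inl hs)])
    · by_contra hlt
      have hs : 5 ≤ τ * (ζ 2).re := by
        have h1 := not_le.1 hlt
        rw [div_lt_iff₀ hτ] at h1
        linarith
      exact hc2 (by simp [v2, BB_zero (Or.inr hs)])
    · intro j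
      by_contra hlt
      have hs : 1 / 4 ≤ |(ζ j).im| := (not_le.1 hlt).le
      fin_cases j
      · have hs' : 1 / 4 ≤ |(ζ 0).im| := hs
        refine hc0 ?_ ?_ ?_
        · simp [v0, eta_zero hs']
        · simp [d0, eta_zero hs']
        · simp [d1, eta_zero hs', deriv_eta_zero (Or.inr hs')]
      · have hs' : 1 / 4 ≤ |(ζ 1).im| := hs
        exact hc1 (by simp [v1, eta_zero hs'])
      · have hs' : 1 / 4 ≤ |(ζ 2).im| := hs
        exact hc2 (by simp [v2, eta_zero hs'])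
  unfold Vb G0 G1
  rcases h0 with ⟨a, b, c⟩ | a | a
  · simp [a, b, c]
  · simp [a]
  · simp [a]

theorem G0_supp {M : ℕ} (hM : 1 ≤ M) {τ : ℝ} {ζ : Fin 3 → ℂ}
    (h : 0 < (ζ 0).re) : G0 M τ ζ = 0 := by
  have hs : 0 ≤ (ζ 0).re / rr M := (div_pos h (rr_pos hM)).le
  simp [G0, d0, deriv_TT_zero (Or.inr hs)]

theorem G0_comp_supp {M : ℕ} (hM : 1 ≤ M) {A : ℝ} (hA : 0 < A) (hA1 : A ≤ 1) {w : ℂ}
    (hw : ‖w‖ = 1) {z : Fin 3 → ℂ} (hz : z ∉ S0 M (tau M A)) :
    G0 M (tau M A) (LL w A z) = 0 := by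
  have hr := rr_pos hM
  have hτ : 0 < tau M A := by unfold tau; positivity
  have hinv : 1 / tau M A = rr M * A := by unfold tau; rw [one_div_one_div]
  by_contra hne
  apply hz
  have hS1 : LL w A z ∈ S1 M (tau M A) := by
    by_contra hn
    exact hne (Vb_supp hM hτ hn).2.1
  have hle : (LL w A z 0).re ≤ 0 := by
    by_contra hn
    exact hne (G0_supp hM (not_le.1 hn))
  obtain ⟨h1, -, h2, h3, h4, h5⟩ := hS1
  have hwsq : w.re ^ 2 + w.im ^ 2 = 1 := by
    have := Complex.sq_norm w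
    rw [hw, Complex.normSq_apply] at this
    nlinarith
  have e0 : LL w A z 0 = (w.re : ℂ) * z 0 + (w.im : ℂ) * z 1 := rfl
  have e1 : LL w A z 1 = -(w.im : ℂ) * z 0 + (w.re : ℂ) * z 1 := rfl
  have e2 : LL w A z 2 = z 2 - (A : ℂ) * ((w.re : ℂ) * z 0 + (w.im : ℂ) * z 1) := rfl
  have hwc : ((w.re : ℂ)) ^ 2 + ((w.im : ℂ)) ^ 2 = 1 := by exact_mod_cast hwsq
  have z0 : z 0 = (w.re : ℂ) * LL w A z 0 - (w.im : ℂ) * LL w A z 1 := by
    rw [e0, e1]
    linear_combination -(z 0) * hwc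
  have z1 : z 1 = (w.im : ℂ) * LL w A z 0 + (w.re : ℂ) * LL w A z 1 := by
    rw [e0, e1]
    linear_combination -(z 1) * hwc
  have z2 : z 2 = LL w A z 2 + (A : ℂ) * LL w A z 0 := by
    rw [e0, e2]
    ring
  have hwre : |w.re| ≤ 1 := by rw [abs_le]; constructor <;> nlinarith [sq_nonneg w.im]
  have hwim : |w.im| ≤ 1 := by rw [abs_le]; constructor <;> nlinarith [sq_nonneg w.re]
  set ζ := LL w A z with hζ
  have i0 := h5 0
  have i1 := h5 1
  have i2 := h5 2
  have r0 : |(ζ 0).re| ≤ rr M := by rw [abs_le]; constructor <;> linarith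
  have key : ∀ a b x y c : ℝ, |a| ≤ 1 → |b| ≤ 1 → |x| ≤ c → |y| ≤ c → |a * x| + |b * y| ≤ 2 * c := by
    intro a b x y c ha hb hx hy
    rw [abs_mul, abs_mul]
    have h1 : |a| * |x| ≤ 1 * c := mul_le_mul ha hx (abs_nonneg _) zero_le_one
    have h2 : |b| * |y| ≤ 1 * c := mul_le_mul hb hy (abs_nonneg _) zero_le_one
    linarith
  have re0 : (z 0).re = w.re * (ζ 0).re - w.im * (ζ 1).re := by rw [z0]; simp
  have re1 : (z 1).re = w.im * (ζ 0).re + w.re * (ζ 1).re := by rw [z1]; simp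
  have re2 : (z 2).re = (ζ 2).re + A * (ζ 0).re := by rw [z2]; simp
  have im0 : (z 0).im = w.re * (ζ 0).im - w.im * (ζ 1).im := by rw [z0]; simp
  have im1 : (z 1).im = w.im * (ζ 0).im + w.re * (ζ 1).im := by rw [z1]; simp
  have im2 : (z 2).im = (ζ 2).im + A * (ζ 0).im := by rw [z2]; simp
  have h34 : 4 * (rr M * A) ≤ (ζ 2).re := by
    have : 4 / tau M A = 4 * (rr M * A) := by rw [← hinv]; ring
    linarith
  have h45 : (ζ 2).re ≤ 5 * (rr M * A) := by
    have : 5 / tau M A = 5 * (rr M * A) := by rw [← hinv]; ring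
    linarith
  have hA0 : |A| ≤ 1 := by rw [abs_of_pos hA]; exact hA1
  have hrA : 0 < rr M * A := mul_pos hr hA
  have hAz1 : -(rr M * A) ≤ A * (ζ 0).re := by nlinarith
  have hAz2 : A * (ζ 0).re ≤ 0 := by nlinarith
  refine ⟨?_, ?_, ?_, ?_, ?_⟩
  · rw [re0]
    exact (abs_sub _ _).trans (key _ _ _ _ _ hwre hwim r0 h2)
  · rw [re1]
    exact (abs_add_le _ _).trans (key _ _ _ _ _ hwim hwre r0 h2)
  · have : 3 / tau M A = 3 * (rr M * A) := by rw [← hinv]; ring
    rw [this, re2]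
    linarith
  · have : 6 / tau M A = 6 * (rr M * A) := by rw [← hinv]; ring
    rw [this, re2]
    linarith
  · intro j
    fin_cases j
    · show |(z 0).im| ≤ 1 / 2
      rw [im0]
      refine (abs_sub _ _).trans ((key _ _ _ _ _ hwre hwim i0 i1).trans (by norm_num))
    · show |(z 1).im| ≤ 1 / 2
      rw [im1]
      refine (abs_add_le _ _).trans ((key _ _ _ _ _ hwim hwre i0 i1).trans (by norm_num))
    · show |(z 2).im| ≤ 1 / 2
      rw [im2]
      have := key 1 A (ζ 2).im (ζ 0).im (1 / 4) (by norm_num) hA0 i2 i0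
      rw [one_mul] at this
      exact (abs_add_le _ _).trans (this.trans (by norm_num))

end Pool.Agent.Helper3.DB
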