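import Pool.Agent.Helper3.DB.Defs

/-! # Volumes of the boxes -/

open MeasureTheory
open scoped ContDiff NNReal ENNReal

namespace Pool.Agent.Helper3.DB

namespace B4

lemma rect_eq (a b c d : ℝ) : (Set.Icc a b ×ℂ Set.Icc c d) =
    Complex.measurableEquivRealProd ⁻¹' (Set.Icc a b ×ˢ Set.Icc c d) := by
  ext z
  rw [Complex.mem_reProdIm, Set.mem_preimage, Complex.measurableEquivRealProd_apply, Set.mem_prod]

lemma volume_rect (a b c d : ℝ) :
    volume (Set.Icc a b ×ℂ Set.Icc c d) = ENNReal.ofReal (b - a) * ENNReal.ofReal (d - c) := by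
  rw [rect_eq, Complex.volume_preserving_equiv_real_prod.measure_preimage
    ((measurableSet_Icc.prod measurableSet_Icc).nullMeasurableSet), Measure.volume_eq_prod,
    Measure.prod_prod, Real.volume_Icc, Real.volume_Icc]

lemma measurable_rect (a b c d : ℝ) : MeasurableSet (Set.Icc a b ×ℂ Set.Icc c d) := by
  rw [rect_eq]
  exact Complex.measurableEquivRealProd.measurable (measurableSet_Icc.prod measurableSet_Icc)

/-- a box in `ℂ³` -/
def box (a b : Fin 3 → ℝ) (c : ℝ) : Set (Fin 3 → ℂ) :=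
  Set.pi Set.univ (fun j => Set.Icc (a j) (b j) ×ℂ Set.Icc (-c) c)

lemma box_measurable (a b : Fin 3 → ℝ) (c : ℝ) : MeasurableSet (box a b c) :=
  MeasurableSet.univ_pi (fun _ => measurable_rect _ _ _ _)

lemma box_volume {a b : Fin 3 → ℝ} {c : ℝ} (hab : ∀ j, a j ≤ b j) (hc : 0 ≤ c) :
    volume (box a b c) = ENNReal.ofReal
      ((b 0 - a 0) * (2 * c) * ((b 1 - a 1) * (2 * c)) * ((b 2 - a 2) * (2 * c))) := by
  have h0 := sub_nonneg.2 (hab 0)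
  have h1 := sub_nonneg.2 (hab 1)
  have h2 := sub_nonneg.2 (hab 2)
  rw [box, volume_pi_pi, Fin.prod_univ_three]
  simp only [volume_rect]
  rw [← ENNReal.ofReal_mul h0, ← ENNReal.ofReal_mul h1, ← ENNReal.ofReal_mul h2,
    ← ENNReal.ofReal_mul (by nlinarith), ← ENNReal.ofReal_mul (by
      refine mul_nonneg (mul_nonneg h0 ?_) (mul_nonneg h1 ?_) <;> linarith)]
  congr 1; ring

lemma S0_eq (M : ℕ) (τ : ℝ) :
    S0 M τ = box ![-(2 * rr M), -(2 * rr M), 3 / τ] ![2 * rr M, 2 * rr M, 6 / τ] (1 / 2) := by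
  ext z
  simp only [S0, box, Set.mem_ofPred_eq, Set.mem_pi, Set.mem_univ, forall_true_left,
    Complex.mem_reProdIm, Set.mem_Icc, abs_le, Fin.forall_fin_succ, Fin.isValue,
    Matrix.cons_val_zero, Matrix.cons_val_succ, Fin.succ_zero_eq_one, Fin.succ_one_eq_two,
    IsEmpty.forall_iff, and_true]
  constructor
  · rintro ⟨h1, h2, h3, h4, h5, h6, h7⟩
    exact ⟨⟨h1, h5⟩, ⟨h2, h6⟩, ⟨⟨h3, h4⟩, h7⟩⟩
  · rintro ⟨⟨h1, h5⟩, ⟨h2, h6⟩, ⟨⟨h3, h4⟩, h7⟩⟩
    exact ⟨h1, h2, h3, h4, h5, h6, h7⟩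

lemma S1_eq (M : ℕ) (τ : ℝ) :
    S1 M τ = box ![-rr M, -rr M, 4 / τ] ![Re' M, rr M, 5 / τ] (1 / 4) := by
  ext z
  simp only [S1, box, Set.mem_ofPred_eq, Set.mem_pi, Set.mem_univ, forall_true_left,
    Complex.mem_reProdIm, Set.mem_Icc, abs_le, Fin.forall_fin_succ, Fin.isValue,
    Matrix.cons_val_zero, Matrix.cons_val_succ, Fin.succ_zero_eq_one, Fin.succ_one_eq_two,
    IsEmpty.forall_iff, and_true]
  constructor
  · rintro ⟨h1, h1', h2, h3, h4, h5, h6, h7⟩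
    exact ⟨⟨⟨h1, h1'⟩, h5⟩, ⟨h2, h6⟩, ⟨⟨h3, h4⟩, h7⟩⟩
  · rintro ⟨⟨⟨h1, h1'⟩, h5⟩, ⟨h2, h6⟩, ⟨⟨h3, h4⟩, h7⟩⟩
    exact ⟨h1, h1', h2, h3, h4, h5, h6, h7⟩

lemma rr_bounds {M : ℕ} (hM : 1 ≤ M) : 0 < rr M ∧ rr M ≤ 1 / 16 := by
  have h1 : (1 : ℝ) ≤ (M : ℝ) ^ 162 := one_le_pow₀ (by exact_mod_cast hM)
  have h2 : (0 : ℝ) < 16 * (M : ℝ) ^ 162 := by linarith
  refine ⟨by rw [rr]; exact div_pos one_pos h2, ?_⟩
  rw [rr]
  apply one_div_le_one_div_of_le (by norm_num)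
  linarith

lemma Re_bounds {M : ℕ} (hM : 1 ≤ M) : 0 < Re' M ∧ Re' M ≤ 1 / 2 := by
  have h1 : (1 : ℝ) ≤ (M : ℝ) := by exact_mod_cast hM
  have h2 : (0 : ℝ) < 2 * (M : ℝ) := by linarith
  refine ⟨by rw [Re']; exact div_pos one_pos h2, ?_⟩
  rw [Re']
  apply one_div_le_one_div_of_le (by norm_num)
  linarith

end B4

open B4

theorem S0_measurable (M : ℕ) (τ : ℝ) : MeasurableSet (S0 M τ) := by
  rw [S0_eq]; exact box_measurable _ _ _

theorem S1_measurable (M : ℕ) (τ : ℝ) : MeasurableSet (S1 M τ) := by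
  rw [S1_eq]; exact box_measurable _ _ _

theorem S0_volume {M : ℕ} (hM : 1 ≤ M) {τ : ℝ} (hτ : 0 < τ) :
    volume (S0 M τ) ≤ ENNReal.ofReal (48 * rr M ^ 2 / τ) := by
  have hr := rr_bounds hM
  have h36 : 3 / τ ≤ 6 / τ := by gcongr; norm_num
  rw [S0_eq, box_volume (by
    intro j
    fin_cases j
    · simp; linarith [hr.1]
    · simp; linarith [hr.1]
    · simpa using h36) (by norm_num)]
  apply ENNReal.ofReal_le_ofReal
  simp only [Fin.isValue, Matrix.cons_val_zero, Matrix.cons_val_one, Matrix.cons_val]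
  apply le_of_eq
  field_simp
  ring

theorem S1_volume {M : ℕ} (hM : 1 ≤ M) {τ : ℝ} (hτ : 0 < τ) :
    volume (S1 M τ) ≤ ENNReal.ofReal (1 / τ) := by
  have hr := rr_bounds hM
  have hR := Re_bounds hM
  have h45 : 4 / τ ≤ 5 / τ := by gcongr; norm_num
  rw [S1_eq, box_volume (by
    intro j
    fin_cases j
    · simp; linarith [hr.1, hR.1]
    · simp; linarith [hr.1]
    · simpa using h45) (by norm_num)]
  apply ENNReal.ofReal_le_ofReal
  simp only [Fin.isValue, Matrix.cons_val_zero, Matrix.cons_val_one, Matrix.cons_val]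
  have e : 5 / τ - 4 / τ = 1 / τ := by ring
  rw [e]
  have h1 : 0 ≤ 1 / τ := by positivity
  have h2 : (Re' M - -rr M) * (2 * (1 / 4)) * ((rr M - -rr M) * (2 * (1 / 4))) * (2 * (1 / 4)) ≤ 1 := by
    have : (Re' M + rr M) * rr M ≤ 1 := by nlinarith [hr.1, hr.2, hR.1, hR.2]
    nlinarith [hr.1, hr.2, hR.1, hR.2]
  calc _ = ((Re' M - -rr M) * (2 * (1 / 4)) * ((rr M - -rr M) * (2 * (1 / 4))) * (2 * (1 / 4))) *
        (1 / τ) := by ring
    _ ≤ 1 * (1 / τ) := mul_le_mul_of_nonneg_right h2 h1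
    _ = 1 / τ := one_mul _

end Pool.Agent.Helper3.DB
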