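import Pool.Agent.Helper3.DB.C1

/-!
Piece B5: sup bounds for the two parts of the divergence.
-/

open MeasureTheory
open scoped ContDiff NNReal ENNReal

namespace Pool.Agent.Helper3.DB

namespace B5

theorem rr_pos {M : ℕ} (hM : 1 ≤ M) : 0 < rr M := by
  have : (0 : ℝ) < M := by exact_mod_cast hM
  unfold rr; positivity

theorem one_le_cast {M : ℕ} (hM : 1 ≤ M) : (1 : ℝ) ≤ M := by exact_mod_cast hM

/-- `K r ≤ 1` -/
theorem KK_rr {M : ℕ} (hM : 1 ≤ M) : KK M * rr M ≤ 1 := by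
  have h1 := one_le_cast hM
  unfold KK rr
  rw [mul_one_div, div_le_one (by positivity)]
  have : (M : ℝ) ^ 2 ≤ (M : ℝ) ^ 162 := pow_le_pow_right₀ h1 (by norm_num)
  linarith

/-- `κ r² ≤ 1` -/
theorem kap_rr {M : ℕ} (hM : 1 ≤ M) : kap M * rr M ^ 2 ≤ 1 := by
  have h1 := one_le_cast hM
  unfold kap rr
  rw [div_pow, one_pow, mul_one_div, div_le_one (by positivity)]
  have : (M : ℝ) ^ 2 ≤ (M : ℝ) ^ 324 := pow_le_pow_right₀ h1 (by norm_num)
  have e : (16 * (M : ℝ) ^ 162) ^ 2 = 256 * (M : ℝ) ^ 324 := by ring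
  rw [e]
  nlinarith [pow_pos (lt_of_lt_of_le one_pos h1) 324]

theorem kap_nonneg (M : ℕ) : 0 ≤ kap M := by unfold kap; positivity
theorem KK_nonneg (M : ℕ) : 0 ≤ KK M := by unfold KK; positivity

theorem norm_exp_quad (k : ℝ) (s : ℂ) :
    ‖Complex.exp (k * s ^ 2)‖ = Real.exp (k * (s.re ^ 2 - s.im ^ 2)) := by
  rw [Complex.norm_exp]
  congr 1
  simp [pow_two, Complex.mul_re]

theorem norm_exp_full (K k : ℝ) (s : ℂ) :
    ‖Complex.exp (-(K * s) + k * s ^ 2)‖ = Real.exp (-(K * s.re) + k * (s.re ^ 2 - s.im ^ 2)) := by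
  rw [Complex.norm_exp]
  congr 1
  simp [pow_two, Complex.mul_re]

theorem v1_bound {M : ℕ} (hM : 1 ≤ M) (s : ℂ) : ‖v1 M s‖ ≤ Real.exp 1 := by
  unfold v1
  rw [norm_mul, norm_exp_quad, Complex.norm_real, Real.norm_eq_abs, abs_mul]
  by_cases h : 1 ≤ |s.re / rr M|
  · rw [cc_zero h]
    simp [Real.exp_nonneg]
  · push Not at h
    have hr := rr_pos hM
    rw [abs_div, abs_of_pos hr, div_lt_one hr] at h
    have h1 : |cc (s.re / rr M)| ≤ 1 := by
      rw [abs_of_nonneg (cc_mem _).1]; exact (cc_mem _).2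
    have h2 : |eta s.im| ≤ 1 := by
      rw [abs_of_nonneg (eta_mem _).1]; exact (eta_mem _).2
    have h3 : |cc (s.re / rr M)| * |eta s.im| ≤ 1 := mul_le_one₀ h1 (abs_nonneg _) h2
    have h4 : s.re ^ 2 ≤ rr M ^ 2 := by
      rw [← sq_abs]; exact pow_le_pow_left₀ (abs_nonneg _) h.le 2
    have h5 : kap M * (s.re ^ 2 - s.im ^ 2) ≤ 1 := by
      have := kap_rr hM
      have := mul_le_mul_of_nonneg_left (show s.re ^ 2 - s.im ^ 2 ≤ rr M ^ 2 by
        nlinarith [sq_nonneg s.im]) (kap_nonneg M)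
      linarith
    calc _ ≤ 1 * Real.exp (kap M * (s.re ^ 2 - s.im ^ 2)) :=
          mul_le_mul_of_nonneg_right h3 (Real.exp_nonneg _)
      _ ≤ _ := by rw [one_mul]; exact Real.exp_le_exp.2 h5

theorem v2_bound {τ : ℝ} (s : ℂ) : ‖v2 τ s‖ ≤ Real.exp 5 := by
  unfold v2
  rw [norm_mul, Complex.norm_exp, Complex.norm_real, Real.norm_eq_abs, abs_mul]
  have e : ((τ : ℂ) * s).re = τ * s.re := by simp
  rw [e]
  by_cases h : τ * s.re ≤ 4 ∨ 5 ≤ τ * s.re
  · rw [BB_zero h]
    simp [Real.exp_nonneg]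
  · push Not at h
    have h1 : |BB (τ * s.re)| ≤ 1 := by
      rw [abs_of_nonneg (BB_mem _).1]; exact (BB_mem _).2
    have h2 : |eta s.im| ≤ 1 := by
      rw [abs_of_nonneg (eta_mem _).1]; exact (eta_mem _).2
    calc _ ≤ 1 * Real.exp (τ * s.re) :=
          mul_le_mul_of_nonneg_right (mul_le_one₀ h1 (abs_nonneg _) h2) (Real.exp_nonneg _)
      _ ≤ _ := by rw [one_mul]; exact Real.exp_le_exp.2 h.2.le

theorem d0_bound {C : ℝ} (hC : ∀ s, |deriv TT s| ≤ C) {M : ℕ} (hM : 1 ≤ M) (s : ℂ) :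
    ‖d0 M s‖ ≤ C / rr M * Real.exp 2 := by
  have hr := rr_pos hM
  have hC0 : 0 ≤ C := (abs_nonneg _).trans (hC 0)
  unfold d0
  rw [norm_mul, norm_exp_full, Complex.norm_real, Real.norm_eq_abs]
  by_cases h : s.re / rr M ≤ -1 ∨ 0 ≤ s.re / rr M
  · rw [deriv_TT_zero h]
    simp only [zero_div, zero_mul, mul_zero, abs_zero]
    positivity
  · push Not at h
    have h1 : -rr M < s.re := by
      have := (lt_div_iff₀ hr).1 h.1; linarith
    have h2 : s.re < 0 := by
      have := (div_lt_iff₀ hr).1 h.2; linarith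
    have h3 : |1 / 2 * (deriv TT (s.re / rr M) / rr M * chi (s.re / Re' M) * eta s.im)| ≤ C / rr M := by
      rw [abs_mul, abs_mul, abs_mul, abs_div (deriv TT (s.re / rr M)), abs_of_pos hr]
      have a1 : |chi (s.re / Re' M)| ≤ 1 := by rw [abs_of_nonneg (chi_mem _).1]; exact (chi_mem _).2
      have a2 : |eta s.im| ≤ 1 := by rw [abs_of_nonneg (eta_mem _).1]; exact (eta_mem _).2
      have a3 : |deriv TT (s.re / rr M)| / rr M ≤ C / rr M := div_le_div_of_nonneg_right (hC _) hr.le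
      have a0 : |(1 / 2 : ℝ)| ≤ 1 := by rw [abs_of_pos (by norm_num)]; norm_num
      have a4 : |deriv TT (s.re / rr M)| / rr M * |chi (s.re / Re' M)| ≤ C / rr M * 1 :=
        mul_le_mul a3 a1 (abs_nonneg _) (by positivity)
      have a5 := mul_le_mul a4 a2 (abs_nonneg _) (by positivity)
      have a6 := mul_le_mul a0 a5 (by positivity) zero_le_one
      linarith
    have h4 : -(KK M * s.re) + kap M * (s.re ^ 2 - s.im ^ 2) ≤ 2 := by
      have b1 := KK_rr hM
      have b2 := kap_rr hM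
      have b3 := mul_le_mul_of_nonneg_left (show -s.re ≤ rr M by linarith) (KK_nonneg M)
      have b4 := mul_le_mul_of_nonneg_left (show s.re ^ 2 - s.im ^ 2 ≤ rr M ^ 2 by
        nlinarith [sq_nonneg s.im]) (kap_nonneg M)
      linarith
    exact mul_le_mul h3 (Real.exp_le_exp.2 h4) (Real.exp_nonneg _) (by positivity)

theorem d1_bound {C : ℝ} (hC : ∀ s, |deriv chi s| ≤ C ∧ |deriv eta s| ≤ C) {M : ℕ} (hM : 1 ≤ M)
    (s : ℂ) : ‖d1 M s‖ ≤ 2 * C * Real.exp 2 * M * Real.exp (-(M : ℝ) / 64) := by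
  have hr := rr_pos hM
  have h1M := one_le_cast hM
  have hM0 : (0 : ℝ) < M := by linarith
  have hR : 0 < Re' M := by unfold Re'; positivity
  have hC0 : 0 ≤ C := (abs_nonneg _).trans (hC 0).1
  have a2 : |eta s.im| ≤ 1 := by rw [abs_of_nonneg (eta_mem _).1]; exact (eta_mem _).2
  have a1 : |chi (s.re / Re' M)| ≤ 1 := by rw [abs_of_nonneg (chi_mem _).1]; exact (chi_mem _).2
  have aT : |TT (s.re / rr M)| ≤ 1 := by rw [abs_of_nonneg (TT_mem _).1]; exact (TT_mem _).2
  have a0 : |(1 / 2 : ℝ)| = 1 / 2 := abs_of_pos (by norm_num)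
  unfold d1
  rw [add_mul]
  have hE : 0 < Real.exp (-(M : ℝ) / 64) := Real.exp_pos _
  have e2 : (0 : ℝ) < Real.exp 2 := Real.exp_pos _
  -- first part
  have p1 : ‖((1 / 2 * (TT (s.re / rr M) * (deriv chi (s.re / Re' M) / Re' M) * eta s.im) : ℝ) : ℂ) *
      Complex.exp (-(KK M * s) + kap M * s ^ 2)‖ ≤ C * Real.exp 2 * M * Real.exp (-(M : ℝ) / 64) := by
    rw [norm_mul, norm_exp_full, Complex.norm_real, Real.norm_eq_abs]
    by_cases h : s.re / Re' M ≤ 1 / 2 ∨ 1 ≤ s.re / Re' M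
    · rw [deriv_chi_zero h]
      simp only [zero_div, zero_mul, mul_zero, abs_zero]
      positivity
    · push Not at h
      have x1 : 1 / 2 * Re' M < s.re := (lt_div_iff₀ hR).1 h.1
      have x2 : s.re < 1 * Re' M := (div_lt_iff₀ hR).1 h.2
      have h3 : |1 / 2 * (TT (s.re / rr M) * (deriv chi (s.re / Re' M) / Re' M) * eta s.im)| ≤ C * M := by
        rw [abs_mul, abs_mul, abs_mul, abs_div (deriv chi (s.re / Re' M)), abs_of_pos hR, a0]
        have b1 : |deriv chi (s.re / Re' M)| / Re' M ≤ C / Re' M :=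
          div_le_div_of_nonneg_right (hC _).1 hR.le
        have b2 : |TT (s.re / rr M)| * (|deriv chi (s.re / Re' M)| / Re' M) ≤ 1 * (C / Re' M) :=
          mul_le_mul aT b1 (by positivity) zero_le_one
        have b3 := mul_le_mul b2 a2 (abs_nonneg _) (by positivity)
        have b4 : C / Re' M = 2 * (C * M) := by unfold Re'; field_simp
        rw [b4] at b3
        linarith
      have h4 : -(KK M * s.re) + kap M * (s.re ^ 2 - s.im ^ 2) ≤ 2 + -(M : ℝ) / 64 := by
        have b1 : 4 * (M : ℝ) ≤ KK M * s.re := by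
          have := mul_le_mul_of_nonneg_left x1.le (KK_nonneg M)
          have e : KK M * (1 / 2 * Re' M) = 4 * M := by unfold KK Re'; field_simp; norm_num
          linarith
        have b2 : kap M * (s.re ^ 2 - s.im ^ 2) ≤ 1 / 4 := by
          have c1 : 0 < s.re := by linarith [mul_pos (show (0 : ℝ) < 1 / 2 by norm_num) hR]
          have c2 : s.re ^ 2 ≤ Re' M ^ 2 := pow_le_pow_left₀ c1.le (by linarith) 2
          have c3 := mul_le_mul_of_nonneg_left (show s.re ^ 2 - s.im ^ 2 ≤ Re' M ^ 2 by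
            nlinarith [sq_nonneg s.im]) (kap_nonneg M)
          have e : kap M * Re' M ^ 2 = 1 / 4 := by unfold kap Re'; field_simp; norm_num
          linarith
        linarith
      calc _ ≤ C * M * Real.exp (2 + -(M : ℝ) / 64) :=
            mul_le_mul h3 (Real.exp_le_exp.2 h4) (Real.exp_nonneg _) (by positivity)
        _ = _ := by rw [Real.exp_add]; ring
  -- second part
  have p2 : ‖((1 / 2 * (TT (s.re / rr M) * chi (s.re / Re' M) * deriv eta s.im) : ℝ) : ℂ) * Complex.I *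
      Complex.exp (-(KK M * s) + kap M * s ^ 2)‖ ≤ C * Real.exp 2 * M * Real.exp (-(M : ℝ) / 64) := by
    rw [norm_mul, norm_mul, norm_exp_full, Complex.norm_real, Real.norm_eq_abs, Complex.norm_I, mul_one]
    by_cases h : |s.im| ≤ 1 / 8 ∨ 1 / 4 ≤ |s.im|
    · rw [deriv_eta_zero h]
      simp only [mul_zero, abs_zero, zero_mul]
      positivity
    by_cases hT : s.re / rr M ≤ -1
    · rw [TT_zero hT]
      simp only [mul_zero, abs_zero, zero_mul]
      positivity
    by_cases hc : 1 ≤ s.re / Re' M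
    · rw [chi_zero hc]
      simp only [mul_zero, abs_zero, zero_mul]
      positivity
    push Not at h hT hc
    have x1 : -rr M < s.re := by
      have := (lt_div_iff₀ hr).1 hT; linarith
    have x2 : s.re < 1 * Re' M := (div_lt_iff₀ hR).1 hc
    have h3 : |1 / 2 * (TT (s.re / rr M) * chi (s.re / Re' M) * deriv eta s.im)| ≤ C * M := by
      rw [abs_mul, abs_mul, abs_mul, a0]
      have b2 : |TT (s.re / rr M)| * |chi (s.re / Re' M)| ≤ 1 * 1 :=
        mul_le_mul aT a1 (by positivity) zero_le_one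
      have b3 := mul_le_mul b2 (hC s.im).2 (abs_nonneg _) (by positivity)
      have b4 : C ≤ C * M := le_mul_of_one_le_right hC0 h1M
      linarith
    have h4 : -(KK M * s.re) + kap M * (s.re ^ 2 - s.im ^ 2) ≤ 2 + -(M : ℝ) / 64 := by
      have b1 := KK_rr hM
      have b3 := mul_le_mul_of_nonneg_left (show -s.re ≤ rr M by linarith) (KK_nonneg M)
      have b4 : kap M * s.re ^ 2 ≤ 1 := by
        by_cases hs : 0 ≤ s.re
        · have c2 : s.re ^ 2 ≤ Re' M ^ 2 := pow_le_pow_left₀ hs (by linarith) 2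
          have c3 := mul_le_mul_of_nonneg_left c2 (kap_nonneg M)
          have e : kap M * Re' M ^ 2 = 1 / 4 := by unfold kap Re'; field_simp; norm_num
          linarith
        · have c2 : s.re ^ 2 ≤ rr M ^ 2 := by nlinarith
          have c3 := mul_le_mul_of_nonneg_left c2 (kap_nonneg M)
          have := kap_rr hM
          linarith
      have b5 : (M : ℝ) / 64 ≤ kap M * s.im ^ 2 := by
        have c1 : (1 / 8 : ℝ) ^ 2 ≤ s.im ^ 2 := by
          rw [← sq_abs s.im]; exact pow_le_pow_left₀ (by norm_num) h.1.le 2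
        have c2 := mul_le_mul_of_nonneg_left c1 (kap_nonneg M)
        have c3 : (M : ℝ) ≤ kap M := by unfold kap; nlinarith
        linarith
      have e : kap M * (s.re ^ 2 - s.im ^ 2) = kap M * s.re ^ 2 - kap M * s.im ^ 2 := by ring
      rw [e, neg_div]
      linarith
    calc _ ≤ C * M * Real.exp (2 + -(M : ℝ) / 64) :=
          mul_le_mul h3 (Real.exp_le_exp.2 h4) (Real.exp_nonneg _) (by positivity)
      _ = _ := by rw [Real.exp_add]; ring
  refine (norm_add_le _ _).trans ?_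
  linarith

end B5

theorem G0_bound : ∃ C : ℝ, 0 < C ∧ ∀ M : ℕ, 1 ≤ M → ∀ τ : ℝ, 0 < τ → ∀ ζ,
    ‖G0 M τ ζ‖ ≤ C / rr M := by
  obtain ⟨C, hC1, hC⟩ := deriv_bound
  refine ⟨C * Real.exp 2 * Real.exp 1 * Real.exp 5, by positivity, ?_⟩
  intro M hM τ _ ζ
  have hr := B5.rr_pos hM
  unfold G0
  rw [norm_mul, norm_mul]
  have h0 := B5.d0_bound (fun s => (hC s).2.1) hM (ζ 0)
  have h1 := B5.v1_bound hM (ζ 1)
  have h2 := B5.v2_bound (τ := τ) (ζ 2)
  have h3 := mul_le_mul (mul_le_mul h0 h1 (norm_nonneg _) (by positivity)) h2 (norm_nonneg _)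
    (by positivity)
  refine h3.trans (le_of_eq ?_)
  ring

theorem G1_bound : ∃ C : ℝ, 0 < C ∧ ∀ M : ℕ, 1 ≤ M → ∀ τ : ℝ, 0 < τ → ∀ ζ,
    ‖G1 M τ ζ‖ ≤ C * M * Real.exp (-(M : ℝ) / 64) := by
  obtain ⟨C, hC1, hC⟩ := deriv_bound
  refine ⟨2 * C * Real.exp 2 * Real.exp 1 * Real.exp 5, by positivity, ?_⟩
  intro M hM τ _ ζ
  unfold G1
  rw [norm_mul, norm_mul]
  have h0 := B5.d1_bound (fun s => ⟨(hC s).1, (hC s).2.2⟩) hM (ζ 0)
  have h1 := B5.v1_bound hM (ζ 1)
  have h2 := B5.v2_bound (τ := τ) (ζ 2)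
  have h3 := mul_le_mul (mul_le_mul h0 h1 (norm_nonneg _) (by positivity)) h2 (norm_nonneg _)
    (by positivity)
  refine h3.trans (le_of_eq ?_)
  ring

end Pool.Agent.Helper3.DB
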