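import Pool.Agent.Helper3.DB.Defs

/-! Piece C1: the one-variable cutoffs. -/

open MeasureTheory
open scoped ContDiff NNReal ENNReal

namespace Pool.Agent.Helper3.DB

theorem chi_contDiff : ContDiff ℝ ∞ chi := by
  unfold chi
  exact Real.smoothTransition.contDiff.comp (by fun_prop)

theorem TT_contDiff : ContDiff ℝ ∞ TT := by
  unfold TT
  exact Real.smoothTransition.contDiff.comp (by fun_prop)

theorem cc_contDiff : ContDiff ℝ ∞ cc := by
  unfold cc
  exact chi_contDiff.mul (chi_contDiff.comp contDiff_neg)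

theorem eta_contDiff : ContDiff ℝ ∞ eta := by
  unfold eta
  exact cc_contDiff.comp (by fun_prop)

theorem BB_contDiff : ContDiff ℝ ∞ BB := by
  unfold BB
  exact cc_contDiff.comp (by fun_prop)

theorem chi_mem (s : ℝ) : 0 ≤ chi s ∧ chi s ≤ 1 :=
  ⟨Real.smoothTransition.nonneg _, Real.smoothTransition.le_one _⟩

theorem TT_mem (s : ℝ) : 0 ≤ TT s ∧ TT s ≤ 1 :=
  ⟨Real.smoothTransition.nonneg _, Real.smoothTransition.le_one _⟩

theorem cc_mem (s : ℝ) : 0 ≤ cc s ∧ cc s ≤ 1 :=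
  ⟨mul_nonneg (chi_mem s).1 (chi_mem (-s)).1,
    mul_le_one₀ (chi_mem s).2 (chi_mem (-s)).1 (chi_mem (-s)).2⟩

theorem eta_mem (s : ℝ) : 0 ≤ eta s ∧ eta s ≤ 1 := cc_mem _

theorem BB_mem (s : ℝ) : 0 ≤ BB s ∧ BB s ≤ 1 := cc_mem _

theorem chi_one {s : ℝ} (h : s ≤ 1 / 2) : chi s = 1 :=
  Real.smoothTransition.one_of_one_le (by linarith)

theorem chi_zero {s : ℝ} (h : 1 ≤ s) : chi s = 0 :=
  Real.smoothTransition.zero_of_nonpos (by linarith)

theorem TT_one {s : ℝ} (h : 0 ≤ s) : TT s = 1 :=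
  Real.smoothTransition.one_of_one_le (by linarith)

theorem TT_zero {s : ℝ} (h : s ≤ -1) : TT s = 0 :=
  Real.smoothTransition.zero_of_nonpos (by linarith)

theorem cc_one {s : ℝ} (h : |s| ≤ 1 / 2) : cc s = 1 := by
  rw [abs_le] at h
  unfold cc
  rw [chi_one h.2, chi_one (by linarith [h.1]), one_mul]

theorem cc_zero {s : ℝ} (h : 1 ≤ |s|) : cc s = 0 := by
  unfold cc
  rcases le_abs.1 h with h | h
  · rw [chi_zero h, zero_mul]
  · rw [chi_zero h, mul_zero]

theorem eta_one {s : ℝ} (h : |s| ≤ 1 / 8) : eta s = 1 := by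
  refine cc_one ?_
  rw [abs_mul, abs_of_pos (by norm_num : (0 : ℝ) < 4)]
  linarith

theorem eta_zero {s : ℝ} (h : 1 / 4 ≤ |s|) : eta s = 0 := by
  refine cc_zero ?_
  rw [abs_mul, abs_of_pos (by norm_num : (0 : ℝ) < 4)]
  linarith

theorem BB_one {s : ℝ} (h1 : 17 / 4 ≤ s) (h2 : s ≤ 19 / 4) : BB s = 1 := by
  refine cc_one ?_
  rw [abs_le]
  constructor <;> linarith

theorem BB_zero {s : ℝ} (h : s ≤ 4 ∨ 5 ≤ s) : BB s = 0 := by
  refine cc_zero ?_
  rw [le_abs]
  rcases h with h | h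
  · right; linarith
  · left; linarith

/-- a function with values in `[0,1]` has zero derivative where it is `0` or `1` -/
theorem deriv_zero_of_mem {f : ℝ → ℝ} (h01 : ∀ s, 0 ≤ f s ∧ f s ≤ 1) {s : ℝ}
    (hs : f s = 0 ∨ f s = 1) : deriv f s = 0 := by
  rcases hs with hs | hs
  · have : IsLocalMin f s := Filter.Eventually.of_forall fun x => by
      rw [hs]; exact (h01 x).1
    exact this.deriv_eq_zero
  · have : IsLocalMax f s := Filter.Eventually.of_forall fun x => by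
      rw [hs]; exact (h01 x).2
    exact this.deriv_eq_zero

theorem chi_antitone : Antitone chi := fun s t h =>
  Real.smoothTransition.monotone (by linarith)

theorem deriv_chi_nonpos (s : ℝ) : deriv chi s ≤ 0 := chi_antitone.deriv_nonpos

theorem deriv_chi_zero {s : ℝ} (h : s ≤ 1 / 2 ∨ 1 ≤ s) : deriv chi s = 0 :=
  deriv_zero_of_mem chi_mem (h.elim (fun h => Or.inr (chi_one h)) fun h => Or.inl (chi_zero h))

theorem deriv_TT_zero {s : ℝ} (h : s ≤ -1 ∨ 0 ≤ s) : deriv TT s = 0 :=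
  deriv_zero_of_mem TT_mem (h.elim (fun h => Or.inl (TT_zero h)) fun h => Or.inr (TT_one h))

theorem deriv_eta_zero {s : ℝ} (h : |s| ≤ 1 / 8 ∨ 1 / 4 ≤ |s|) : deriv eta s = 0 :=
  deriv_zero_of_mem eta_mem (h.elim (fun h => Or.inr (eta_one h)) fun h => Or.inl (eta_zero h))

/-- a smooth function whose derivative vanishes off `[-1,1]` has bounded derivative -/
theorem bound_of_contDiff {f : ℝ → ℝ} (hf : ContDiff ℝ ∞ f)
    (h0 : ∀ s, s ∉ Set.Icc (-1 : ℝ) 1 → deriv f s = 0) : ∃ C : ℝ, 0 ≤ C ∧ ∀ s, |deriv f s| ≤ C := by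
  have hc : Continuous (deriv f) := hf.continuous_deriv (by norm_num)
  obtain ⟨C, hC⟩ := (isCompact_Icc (a := (-1 : ℝ)) (b := 1)).exists_bound_of_continuousOn
    hc.continuousOn
  refine ⟨max C 0, le_max_right _ _, fun s => ?_⟩
  by_cases hs : s ∈ Set.Icc (-1 : ℝ) 1
  · exact (hC s hs).trans (le_max_left _ _)
  · rw [h0 s hs, abs_zero]
    exact le_max_right _ _

theorem deriv_bound : ∃ C : ℝ, 1 ≤ C ∧ ∀ s, |deriv chi s| ≤ C ∧ |deriv TT s| ≤ C ∧
    |deriv eta s| ≤ C := by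
  obtain ⟨C1, hC1, h1⟩ := bound_of_contDiff chi_contDiff (fun s hs => by
    apply deriv_chi_zero
    by_contra hcon
    push Not at hcon
    exact hs ⟨by linarith [hcon.1], hcon.2.le⟩)
  obtain ⟨C2, hC2, h2⟩ := bound_of_contDiff TT_contDiff (fun s hs => by
    apply deriv_TT_zero
    by_contra hcon
    push Not at hcon
    exact hs ⟨hcon.1.le, by linarith [hcon.2]⟩)
  obtain ⟨C3, hC3, h3⟩ := bound_of_contDiff eta_contDiff (fun s hs => by
    apply deriv_eta_zero
    by_contra hcon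
    push Not at hcon
    have := abs_lt.1 hcon.2
    exact hs ⟨by linarith [this.1], by linarith [this.2]⟩)
  refine ⟨1 + C1 + C2 + C3, by linarith, fun s => ⟨?_, ?_, ?_⟩⟩
  · linarith [h1 s]
  · linarith [h2 s]
  · linarith [h3 s]

end Pool.Agent.Helper3.DB
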