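import Pool.Agent.Helper3.DB.Defs

/-! Piece P1: the function `HS`. -/

set_option autoImplicit false

open MeasureTheory
open scoped ContDiff NNReal ENNReal

namespace Pool.Agent.Helper3.DB

namespace P1Aux

theorem cont : Continuous (fun s : ℝ => Real.smoothTransition (s - 1)) :=
  Real.smoothTransition.continuous.comp (continuous_id.sub continuous_const)

theorem hasDerivAt (t : ℝ) : HasDerivAt HS (Real.smoothTransition (t - 1)) t :=
  (cont.integral_hasStrictDerivAt 0 t).hasDerivAt

theorem deriv_eq : deriv HS = fun t => Real.smoothTransition (t - 1) :=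
  funext fun t => (hasDerivAt t).deriv

theorem diff : Differentiable ℝ HS := fun t => (hasDerivAt t).differentiableAt

end P1Aux

open P1Aux

theorem HS_contDiff : ContDiff ℝ ∞ HS := by
  rw [contDiff_infty_iff_deriv]
  refine ⟨diff, ?_⟩
  rw [deriv_eq]
  exact Real.smoothTransition.contDiff.comp (contDiff_id.sub contDiff_const)

theorem HS_convex : ConvexOn ℝ Set.univ HS := by
  refine Monotone.convexOn_univ_of_deriv diff ?_
  rw [deriv_eq]
  intro a b hab
  exact Real.smoothTransition.monotone (by linarith)

theorem HS_mono : Monotone HS := by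
  refine monotone_of_deriv_nonneg diff fun x => ?_
  rw [deriv_eq]
  exact Real.smoothTransition.nonneg _

theorem HS_zero {t : ℝ} (h : t ≤ 1) : HS t = 0 := by
  unfold HS
  rw [intervalIntegral.integral_congr (g := fun _ => (0 : ℝ)), intervalIntegral.integral_zero]
  intro s hs
  have h1 : s ≤ max 0 t := hs.2
  have h2 : max 0 t ≤ 1 := max_le zero_le_one h
  exact Real.smoothTransition.zero_of_nonpos (by linarith)

theorem HS_nonneg (t : ℝ) : 0 ≤ HS t := by
  rcases le_total t 1 with h | h
  · rw [HS_zero h]
  · rw [← HS_zero le_rfl]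
    exact HS_mono h

theorem HS_ge (t : ℝ) : t - 2 ≤ HS t := by
  rcases le_total t 2 with h | h
  · exact (sub_nonpos.2 h).trans (HS_nonneg t)
  · have h1 : HS 2 + ∫ s in (2 : ℝ)..t, Real.smoothTransition (s - 1) = HS t :=
      intervalIntegral.integral_add_adjacent_intervals (cont.intervalIntegrable _ _)
        (cont.intervalIntegrable _ _)
    have h2 : ∫ s in (2 : ℝ)..t, Real.smoothTransition (s - 1) = t - 2 := by
      rw [intervalIntegral.integral_congr (g := fun _ => (1 : ℝ)), intervalIntegral.integral_const,
        smul_eq_mul, mul_one]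
      intro s hs
      rw [Set.uIcc_of_le h] at hs
      exact Real.smoothTransition.one_of_one_le (by linarith [hs.1])
    have h3 := HS_nonneg 2
    linarith

theorem HS_le {t : ℝ} (h : 0 ≤ t) : HS t ≤ t := by
  have h1 : HS t ≤ ∫ s in (0 : ℝ)..t, (1 : ℝ) :=
    intervalIntegral.integral_mono_on h (cont.intervalIntegrable _ _)
      (continuous_const.intervalIntegrable _ _) fun s _ => Real.smoothTransition.le_one _
  rw [intervalIntegral.integral_const, smul_eq_mul, mul_one, sub_zero] at h1
  exact h1

end Pool.Agent.Helper3.DB
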