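import Pool.Agent.Helper3.DB.Defs
import Pool.Agent.Helper3.DB.P1

/-!
# The domain is a smooth bounded convex domain
-/

open MeasureTheory
open scoped ContDiff NNReal ENNReal Topology

namespace Pool.Agent.Helper3.DB

namespace D1

/-- the coordinates as real linear maps -/
noncomputable def prj (j : Fin 3) : (Fin 3 → ℂ) →L[ℝ] ℂ :=
  ContinuousLinearMap.proj (R := ℝ) (φ := fun _ : Fin 3 => ℂ) j

@[simp] lemma prj_apply (j : Fin 3) (z : Fin 3 → ℂ) : prj j z = z j := rfl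

/-- `XX` as a real linear map. -/
noncomputable def XXl : (Fin 3 → ℂ) →L[ℝ] ℂ :=
  (Complex.ofRealCLM.comp Complex.reCLM).comp (prj 0) +
    (Complex.reCLM.comp (prj 1)).smulRight Complex.I

lemma XXl_apply (z : Fin 3 → ℂ) : XXl z = XX z := by
  simp [XXl, XX]

lemma rho_contDiff {ψ : ℂ → ℝ} (h : IsProfile ψ) : ContDiff ℝ ∞ (rho ψ) := by
  have h1 : ContDiff ℝ ∞ (fun z : Fin 3 → ℂ => ψ (XX z)) := by
    have : (fun z : Fin 3 → ℂ => ψ (XX z)) = ψ ∘ XXl := by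
      ext z; simp [XXl_apply]
    rw [this]
    exact h.smooth.comp XXl.contDiff
  have h2 : ContDiff ℝ ∞ (fun z : Fin 3 → ℂ => (z 2).re) :=
    (Complex.reCLM.comp (prj 2)).contDiff
  have h3 : ContDiff ℝ ∞ (fun z : Fin 3 → ℂ => ∑ j, ‖z j‖ ^ 2) := by
    refine ContDiff.sum fun j _ => ?_
    exact (contDiff_norm_sq ℝ).comp (prj j).contDiff
  exact (h1.sub h2).add (HS_contDiff.comp h3)

lemma sq_convex : ConvexOn ℝ Set.univ (fun z : Fin 3 → ℂ => ∑ j, ‖z j‖ ^ 2) := by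
  have h0 : ConvexOn ℝ Set.univ (fun z : ℂ => ‖z‖ ^ 2) :=
    (convexOn_univ_norm).pow (fun _ _ => norm_nonneg _) 2
  have h1 : ∀ j : Fin 3, ConvexOn ℝ Set.univ (fun z : Fin 3 → ℂ => ‖z j‖ ^ 2) := fun j => by
    have := h0.comp_linearMap (prj j).toLinearMap
    exact this
  have h2 := ((h1 0).add (h1 1)).add (h1 2)
  have h3 : (fun z : Fin 3 → ℂ => ∑ j, ‖z j‖ ^ 2) =
      (((fun z : Fin 3 → ℂ => ‖z 0‖ ^ 2) + fun z => ‖z 1‖ ^ 2) + fun z => ‖z 2‖ ^ 2) := by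
    ext z; simp [Fin.sum_univ_three]
  rw [h3]; exact h2

lemma rho_convex {ψ : ℂ → ℝ} (h : IsProfile ψ) : ConvexOn ℝ Set.univ (rho ψ) := by
  have h1 : ConvexOn ℝ Set.univ (fun z : Fin 3 → ℂ => ψ (XX z)) := by
    have h2 := h.convex.comp_linearMap XXl.toLinearMap
    have : (fun z : Fin 3 → ℂ => ψ (XX z)) = ψ ∘ XXl.toLinearMap := by
      ext z; simp [XXl_apply]
    rw [this]
    exact h2
  have h2 : ConvexOn ℝ Set.univ (fun z : Fin 3 → ℂ => -(z 2).re) := by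
    have := (-(Complex.reCLM.comp (prj 2))).toLinearMap.convexOn (convex_univ (𝕜 := ℝ))
    exact this
  have h3 : ConvexOn ℝ Set.univ (fun z : Fin 3 → ℂ => HS (∑ j, ‖z j‖ ^ 2)) := by
    have := ConvexOn.comp (g := HS) (f := fun z : Fin 3 → ℂ => ∑ j, ‖z j‖ ^ 2) (s := Set.univ)
      (HS_convex.subset (Set.subset_univ _) ?_) sq_convex (HS_mono.monotoneOn _)
    · exact this
    · rw [Set.image_univ]
      have hc : IsPreconnected (Set.range fun z : Fin 3 → ℂ => ∑ j, ‖z j‖ ^ 2) := by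
        apply isPreconnected_range
        fun_prop
      exact hc.ordConnected.convex
  have h4 := (h1.add h2).add h3
  have h5 : rho ψ = ((fun z : Fin 3 → ℂ => ψ (XX z)) + fun z => -(z 2).re) +
      fun z => HS (∑ j, ‖z j‖ ^ 2) := by
    ext z; simp [rho, sub_eq_add_neg]
  rw [h5]; exact h4

/-- the centre -/
noncomputable def ctr : Fin 3 → ℂ := ![0, 0, 1 / 2]

lemma rho_ctr {ψ : ℂ → ℝ} (h : IsProfile ψ) : rho ψ ctr = -(1 / 2) := by
  have h1 : XX ctr = 0 := by simp [XX, ctr]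
  have h2 : ∑ j, ‖ctr j‖ ^ 2 = 1 / 4 := by
    rw [Fin.sum_univ_three]
    simp [ctr]; norm_num
  rw [rho, h1, h2, h.zero, HS_zero (by norm_num)]
  simp [ctr]

lemma segment_lt {ψ : ℂ → ℝ} (h : IsProfile ψ) {z : Fin 3 → ℂ} (hz : rho ψ z = 0) {t : ℝ}
    (ht0 : 0 ≤ t) (ht1 : t ≤ 1) : rho ψ (z + t • (ctr - z)) ≤ -(t / 2) := by
  have h1 := (rho_convex h).2 (Set.mem_univ z) (Set.mem_univ ctr) (sub_nonneg.mpr ht1) ht0
    (by ring)
  have h2 : (1 - t) • z + t • ctr = z + t • (ctr - z) := by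
    module
  rw [h2, hz, rho_ctr h] at h1
  simp only [smul_eq_mul, mul_zero, zero_add] at h1
  linarith

lemma fderiv_ne {ψ : ℂ → ℝ} (h : IsProfile ψ) {z : Fin 3 → ℂ} (hz : rho ψ z = 0) :
    fderiv ℝ (rho ψ) z ≠ 0 := by
  intro h0
  have hd : DifferentiableAt ℝ (rho ψ) z := (rho_contDiff h).differentiable (by simp) z
  have h1 : HasFDerivAt (rho ψ) (0 : (Fin 3 → ℂ) →L[ℝ] ℝ) z := by
    rw [← h0]; exact hd.hasFDerivAt
  have h2 : HasDerivAt (fun t : ℝ => z + t • (ctr - z)) (ctr - z) 0 := by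
    have h3 : HasDerivAt (fun t : ℝ => t • (ctr - z)) ((1 : ℝ) • (ctr - z)) 0 :=
      (hasDerivAt_id (0 : ℝ)).smul_const (ctr - z)
    rw [one_smul] at h3
    exact h3.const_add z
  have h1' : HasFDerivAt (rho ψ) (0 : (Fin 3 → ℂ) →L[ℝ] ℝ) (z + (0 : ℝ) • (ctr - z)) := by
    rw [zero_smul, add_zero]; exact h1
  have h4 : HasDerivAt (fun t : ℝ => rho ψ (z + t • (ctr - z))) 0 0 := by
    have h3 := h1'.comp_hasDerivAt (0 : ℝ) h2
    exact h3
  rw [hasDerivAt_iff_tendsto_slope_zero] at h4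
  have h5 : Filter.Tendsto (fun t : ℝ => t⁻¹ • (rho ψ (z + (0 + t) • (ctr - z)) -
      rho ψ (z + (0 : ℝ) • (ctr - z)))) (𝓝[>] 0) (𝓝 0) :=
    h4.mono_left (nhdsWithin_mono _ (fun x hx => ne_of_gt hx))
  have h6 : ∀ᶠ t : ℝ in 𝓝[>] 0, t⁻¹ • (rho ψ (z + (0 + t) • (ctr - z)) -
      rho ψ (z + (0 : ℝ) • (ctr - z))) ≤ -(1 / 2) := by
    have h7 : ∀ᶠ t : ℝ in 𝓝[>] 0, t ∈ Set.Ioc (0 : ℝ) 1 := by
      exact Ioc_mem_nhdsGT zero_lt_one
    filter_upwards [h7] with t ht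
    have h8 := segment_lt h hz ht.1.le ht.2
    rw [zero_add, zero_smul, add_zero, hz, sub_zero, smul_eq_mul]
    have h9 : t⁻¹ * rho ψ (z + t • (ctr - z)) ≤ t⁻¹ * (-(t / 2)) :=
      mul_le_mul_of_nonneg_left h8 (inv_nonneg.mpr ht.1.le)
    have h10 : t⁻¹ * (-(t / 2)) = -(1 / 2) := by
      have := ht.1.ne'
      field_simp
    linarith
  have h7 := le_of_tendsto h5 h6
  norm_num at h7

lemma norm_le {ψ : ℂ → ℝ} (h : IsProfile ψ) {z : Fin 3 → ℂ} (hz : rho ψ z < 0) : ‖z‖ ≤ 3 := by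
  have h1 := h.nonneg (XX z)
  have h2 := HS_ge (∑ j, ‖z j‖ ^ 2)
  have h3 : (z 2).re ≤ ‖z 2‖ := (Complex.re_le_norm _)
  rw [rho] at hz
  have h4 : ∑ j, ‖z j‖ ^ 2 < 5 := by
    have h5 : ‖z 2‖ ^ 2 ≤ ∑ j, ‖z j‖ ^ 2 :=
      Finset.single_le_sum (f := fun j => ‖z j‖ ^ 2) (fun _ _ => sq_nonneg _) (Finset.mem_univ 2)
    nlinarith [sq_nonneg (‖z 2‖ - 1)]
  rw [pi_norm_le_iff_of_nonneg (by norm_num)]
  intro j
  have h5 : ‖z j‖ ^ 2 ≤ ∑ j, ‖z j‖ ^ 2 :=
    Finset.single_le_sum (f := fun j => ‖z j‖ ^ 2) (fun _ _ => sq_nonneg _) (Finset.mem_univ j)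
  nlinarith [norm_nonneg (z j)]

end D1

open D1 in
theorem dom_smoothBoundedConvex {ψ : ℂ → ℝ} (h : IsProfile ψ) : SmoothBoundedConvex (Dom ψ) := by
  have hcont : Continuous (rho ψ) := (rho_contDiff h).continuous
  have hopen : IsOpen (Dom ψ) := isOpen_lt hcont continuous_const
  refine ⟨⟨ctr, ?_⟩, hopen, ?_, ?_, rho ψ, rho_contDiff h, rfl, ?_, fun z hz => fderiv_ne h hz⟩
  · show rho ψ ctr < 0
    rw [rho_ctr h]; norm_num
  · have := (rho_convex h).convex_lt 0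
    simpa [Dom] using this
  · refine (Metric.isBounded_closedBall (x := (0 : Fin 3 → ℂ)) (r := 3)).subset ?_
    intro z hz
    rw [mem_closedBall_zero_iff]
    exact norm_le h hz
  · rw [hopen.frontier_eq]
    ext z
    constructor
    · rintro ⟨h1, h2⟩
      have h3 : rho ψ z ≤ 0 := by
        have h4 : closure (Dom ψ) ⊆ {z | rho ψ z ≤ 0} :=
          closure_minimal (fun w (hw : rho ψ w < 0) => le_of_lt hw)
            (isClosed_le hcont continuous_const)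
        exact h4 h1
      exact le_antisymm h3 (not_lt.mp h2)
    · intro hz
      refine ⟨?_, fun h1 => absurd (show rho ψ z < 0 from h1)
        (by rw [show rho ψ z = 0 from hz]; exact lt_irrefl _)⟩
      have h2 : Filter.Tendsto (fun t : ℝ => z + t • (ctr - z)) (𝓝[>] 0) (𝓝 z) := by
        have h3 : Continuous (fun t : ℝ => z + t • (ctr - z)) := by fun_prop
        have h4 := h3.tendsto 0
        rw [zero_smul, add_zero] at h4
        exact h4.mono_left nhdsWithin_le_nhds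
      refine mem_closure_of_tendsto h2 ?_
      have h7 : ∀ᶠ t : ℝ in 𝓝[>] 0, t ∈ Set.Ioc (0 : ℝ) 1 := Ioc_mem_nhdsGT zero_lt_one
      filter_upwards [h7] with t ht
      have h8 := segment_lt h hz ht.1.le ht.2
      show rho ψ (z + t • (ctr - z)) < 0
      linarith [ht.1]

end Pool.Agent.Helper3.DB
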