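import Pool.Agent.Helper3.DB.P1

open MeasureTheory
open scoped ContDiff NNReal ENNReal

namespace Pool.Agent.Helper3.DB

/-! ## piece D2 -/

theorem dom_sub {ψ : ℂ → ℝ} (h0 : ∀ x, 0 ≤ ψ x) {z : Fin 3 → ℂ} (hz : z ∈ Dom ψ) :
    ψ (XX z) < (z 2).re ∧ ∀ j, ‖z j‖ ≤ 2 := by
  have hz' : ψ (XX z) - (z 2).re + HS (∑ j, ‖z j‖ ^ 2) < 0 := hz
  have h1 := HS_nonneg (∑ j, ‖z j‖ ^ 2)
  have h2 := HS_ge (∑ j, ‖z j‖ ^ 2)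
  have h3 := h0 (XX z)
  have h4 : (z 2).re ≤ ‖z 2‖ := Complex.re_le_norm (z 2)
  rw [Fin.sum_univ_three] at h1 h2 hz'
  have h5 : ‖z 0‖ ^ 2 + ‖z 1‖ ^ 2 + ‖z 2‖ ^ 2 < 2 + ‖z 2‖ := by linarith
  refine ⟨by linarith, fun j => ?_⟩
  have n0 := norm_nonneg (z 0)
  have n1 := norm_nonneg (z 1)
  have n2 := norm_nonneg (z 2)
  fin_cases j
  · show ‖z 0‖ ≤ 2
    nlinarith [sq_nonneg (‖z 1‖), sq_nonneg (‖z 2‖ - 1 / 2)]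
  · show ‖z 1‖ ≤ 2
    nlinarith [sq_nonneg (‖z 0‖), sq_nonneg (‖z 2‖ - 1 / 2)]
  · show ‖z 2‖ ≤ 2
    nlinarith [sq_nonneg (‖z 0‖), sq_nonneg (‖z 1‖)]

theorem mem_dom {ψ : ℂ → ℝ} {z : Fin 3 → ℂ} (h1 : ψ (XX z) < (z 2).re)
    (h2 : ∑ j, ‖z j‖ ^ 2 ≤ 1) : z ∈ Dom ψ := by
  show ψ (XX z) - (z 2).re + HS (∑ j, ‖z j‖ ^ 2) < 0
  rw [HS_zero h2]
  linarith

end Pool.Agent.Helper3.DB
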