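import Pool.Agent.Helper3.DB.Notions

open MeasureTheory
open scoped ContDiff NNReal ENNReal

namespace Pool.Agent.Helper3.DB

/-! ### Parameters and one-variable cutoffs -/

/-- `HS t = ∫_0^t smoothTransition (s - 1) ds`: smooth convex nondecreasing, zero for `t ≤ 1`. -/
noncomputable def HS (t : ℝ) : ℝ := ∫ s in (0 : ℝ)..t, Real.smoothTransition (s - 1)

/-- `R' = 1/(16 M²)`. -/
noncomputable def Rp (M : ℕ) : ℝ := 1 / (16 * (M : ℝ) ^ 2)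
/-- `r = 1/(16 M^162)`. -/
noncomputable def rr (M : ℕ) : ℝ := 1 / (16 * (M : ℝ) ^ 162)
/-- `R_e = 1/(2M)`. -/
noncomputable def Re' (M : ℕ) : ℝ := 1 / (2 * (M : ℝ))
/-- `κ = M²`. -/
noncomputable def kap (M : ℕ) : ℝ := (M : ℝ) ^ 2
/-- `K = 16 M²`. -/
noncomputable def KK (M : ℕ) : ℝ := 16 * (M : ℝ) ^ 2

/-- one for `s ≤ 1/2`, zero for `s ≥ 1`. -/
noncomputable def chi (s : ℝ) : ℝ := Real.smoothTransition (2 - 2 * s)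
/-- zero for `s ≤ -1`, one for `s ≥ 0`. -/
noncomputable def TT (s : ℝ) : ℝ := Real.smoothTransition (s + 1)
/-- one for `|s| ≤ 1/2`, zero for `|s| ≥ 1`. -/
noncomputable def cc (s : ℝ) : ℝ := chi s * chi (-s)
/-- one for `|s| ≤ 1/8`, zero for `|s| ≥ 1/4`. -/
noncomputable def eta (s : ℝ) : ℝ := cc (4 * s)
/-- zero outside `(4,5)`, one on `[17/4, 19/4]`. -/
noncomputable def BB (s : ℝ) : ℝ := cc (2 * (s - 9 / 2))

/-- the smooth convex profile conditions: for infinitely many `M` the function `ψ` is at scale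
`1/M` a rounded cone of slope `A` with rounding scale `rr M`. -/
structure IsProfile (ψ : ℂ → ℝ) : Prop where
  smooth : ContDiff ℝ ∞ ψ
  convex : ConvexOn ℝ Set.univ ψ
  nonneg : ∀ x, 0 ≤ ψ x
  zero : ψ 0 = 0
  scales : ∀ M₀ : ℕ, ∃ M : ℕ, M₀ ≤ M ∧ ∃ A : ℝ, 0 < A ∧ A ≤ 1 ∧
    (∀ x, A * (‖x‖ - 2 * rr M) ≤ ψ x) ∧ ∀ x, ‖x‖ ≤ 1 / (M : ℝ) → ψ x ≤ A * ‖x‖

/-- `x = Re z_0 + i Re z_1`. -/
noncomputable def XX (z : Fin 3 → ℂ) : ℂ := (z 0).re + (z 1).re * Complex.I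

/-- the defining function. -/
noncomputable def rho (ψ : ℂ → ℝ) (z : Fin 3 → ℂ) : ℝ :=
  ψ (XX z) - (z 2).re + HS (∑ j, ‖z j‖ ^ 2)

/-- the domain. -/
def Dom (ψ : ℂ → ℝ) : Set (Fin 3 → ℂ) := {z | rho ψ z < 0}

/-! ### Rotations and base functions -/

/-- the linear map `L_k`. -/
noncomputable def LL (om : ℂ) (A : ℝ) (z : Fin 3 → ℂ) : Fin 3 → ℂ :=
  ![(om.re : ℂ) * z 0 + (om.im : ℂ) * z 1, -(om.im : ℂ) * z 0 + (om.re : ℂ) * z 1,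
    z 2 - (A : ℂ) * ((om.re : ℂ) * z 0 + (om.im : ℂ) * z 1)]

/-- the potential of the base form. -/
noncomputable def Phib (M : ℕ) (τ : ℝ) (ζ : Fin 3 → ℂ) : ℂ :=
  ((chi ((ζ 0).re / Rp M) : ℝ) : ℂ) * Complex.exp (KK M * ζ 0) * Complex.exp (-(τ * ζ 2))

/-- the coefficient of the base form, `Fb = ∂Phib/∂ζ̄_0`. -/
noncomputable def Fb (M : ℕ) (τ : ℝ) (ζ : Fin 3 → ℂ) : ℂ :=
  ((1 / 2 * (deriv chi ((ζ 0).re / Rp M) / Rp M) : ℝ) : ℂ) * Complex.exp (KK M * ζ 0) *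
    Complex.exp (-(τ * ζ 2))

/-- the factors of the base test function. -/
noncomputable def v0 (M : ℕ) (s : ℂ) : ℂ :=
  ((TT (s.re / rr M) * chi (s.re / Re' M) * eta s.im : ℝ) : ℂ) *
    Complex.exp (-(KK M * s) + kap M * s ^ 2)
noncomputable def v1 (M : ℕ) (s : ℂ) : ℂ :=
  ((cc (s.re / rr M) * eta s.im : ℝ) : ℂ) * Complex.exp (kap M * s ^ 2)
noncomputable def v2 (τ : ℝ) (s : ℂ) : ℂ :=
  ((BB (τ * s.re) * eta s.im : ℝ) : ℂ) * Complex.exp (τ * s)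

/-- the two parts of `∂v0/∂s̄`. -/
noncomputable def d0 (M : ℕ) (s : ℂ) : ℂ :=
  ((1 / 2 * (deriv TT (s.re / rr M) / rr M * chi (s.re / Re' M) * eta s.im) : ℝ) : ℂ) *
    Complex.exp (-(KK M * s) + kap M * s ^ 2)
noncomputable def d1 (M : ℕ) (s : ℂ) : ℂ :=
  (((1 / 2 * (TT (s.re / rr M) * (deriv chi (s.re / Re' M) / Re' M) * eta s.im) : ℝ) : ℂ) +
    ((1 / 2 * (TT (s.re / rr M) * chi (s.re / Re' M) * deriv eta s.im) : ℝ) : ℂ) * Complex.I) *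
    Complex.exp (-(KK M * s) + kap M * s ^ 2)

/-- the base test function. -/
noncomputable def Vb (M : ℕ) (τ : ℝ) (ζ : Fin 3 → ℂ) : ℂ := v0 M (ζ 0) * v1 M (ζ 1) * v2 τ (ζ 2)
/-- main part of its divergence. -/
noncomputable def G0 (M : ℕ) (τ : ℝ) (ζ : Fin 3 → ℂ) : ℂ := d0 M (ζ 0) * v1 M (ζ 1) * v2 τ (ζ 2)
/-- error part of its divergence. -/
noncomputable def G1 (M : ℕ) (τ : ℝ) (ζ : Fin 3 → ℂ) : ℂ := d1 M (ζ 0) * v1 M (ζ 1) * v2 τ (ζ 2)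

/-- the direction covector `(Re ω, Im ω, 0)` and the vector `(Re ω, Im ω, A)`. -/
noncomputable def cov (om : ℂ) : Fin 3 → ℂ := ![(om.re : ℂ), (om.im : ℂ), 0]
noncomputable def vec (om : ℂ) (A : ℝ) : Fin 3 → ℂ := ![(om.re : ℂ), (om.im : ℂ), (A : ℂ)]

/-- the unit vectors. -/
noncomputable def om (N : ℕ) (k : Fin N) : ℂ := Complex.exp (((k : ℝ) / N : ℝ) * Complex.I)

/-- `τ = 1/(r A)`. -/
noncomputable def tau (M : ℕ) (A : ℝ) : ℝ := 1 / (rr M * A)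

/-- the support box of `Vb` -/
def S1 (M : ℕ) (τ : ℝ) : Set (Fin 3 → ℂ) :=
  {ζ | -rr M ≤ (ζ 0).re ∧ (ζ 0).re ≤ Re' M ∧ |(ζ 1).re| ≤ rr M ∧ 4 / τ ≤ (ζ 2).re ∧
    (ζ 2).re ≤ 5 / τ ∧ ∀ j, |(ζ j).im| ≤ 1 / 4}

/-- the box at the centre -/
def S0 (M : ℕ) (τ : ℝ) : Set (Fin 3 → ℂ) :=
  {z | |(z 0).re| ≤ 2 * rr M ∧ |(z 1).re| ≤ 2 * rr M ∧ 3 / τ ≤ (z 2).re ∧ (z 2).re ≤ 6 / τ ∧
    ∀ j, |(z j).im| ≤ 1 / 2}

end Pool.Agent.Helper3.DB
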