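import Pool.Agent.Helper3.DB.Defs

open MeasureTheory
open scoped ContDiff NNReal ENNReal

namespace Pool.Agent.Helper3.DB

/-- Swapping directional derivatives under the integral, one factor with compact support. -/
theorem k1_swap {F φ : (Fin 3 → ℂ) → ℂ} (hF : ContDiff ℝ ∞ F) (hφ : ContDiff ℝ ∞ φ)
    (hc : HasCompactSupport φ) (v w : Fin 3 → ℂ) :
    ∫ z, fderiv ℝ F z v * fderiv ℝ φ z w = ∫ z, fderiv ℝ F z w * fderiv ℝ φ z v := by
  have hF1 : ContDiff ℝ ∞ (fun z => fderiv ℝ F z) := hF.fderiv_right (by simp)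
  have hφ1 : ContDiff ℝ ∞ (fun z => fderiv ℝ φ z) := hφ.fderiv_right (by simp)
  have hFv : ∀ v, ContDiff ℝ ∞ (fun z => fderiv ℝ F z v) := fun v => hF1.clm_apply contDiff_const
  have hφv : ∀ v, ContDiff ℝ ∞ (fun z => fderiv ℝ φ z v) := fun v => hφ1.clm_apply contDiff_const
  have hcv : ∀ v, HasCompactSupport (fun z => fderiv ℝ φ z v) := fun v => hc.fderiv_apply ℝ v
  have key : ∀ v w : Fin 3 → ℂ, ∫ z, fderiv ℝ F z v * fderiv ℝ φ z w =
      - ∫ z, fderiv ℝ (fun z => fderiv ℝ F z v) z w * φ z := by
    intro v w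
    apply integral_mul_fderiv_eq_neg_fderiv_mul_of_integrable
    · apply Continuous.integrable_of_hasCompactSupport
      · exact (((hFv v).fderiv_right (m := ∞) (by simp)).clm_apply contDiff_const).continuous.mul
          hφ.continuous
      · exact hc.mul_left
    · apply Continuous.integrable_of_hasCompactSupport
      · exact (hFv v).continuous.mul (hφv w).continuous
      · exact (hcv w).mul_left
    · apply Continuous.integrable_of_hasCompactSupport
      · exact (hFv v).continuous.mul hφ.continuous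
      · exact hc.mul_left
    · exact fun x _ => (hFv v).differentiable (by simp) x
    · exact fun x _ => hφ.differentiable (by simp) x
  have hsymm : ∀ z, fderiv ℝ (fun z => fderiv ℝ F z v) z w =
      fderiv ℝ (fun z => fderiv ℝ F z w) z v := by
    intro z
    have hd : DifferentiableAt ℝ (fun z => fderiv ℝ F z) z := hF1.differentiable (by simp) z
    have e : ∀ v w : Fin 3 → ℂ, fderiv ℝ (fun z => fderiv ℝ F z v) z w =
        (fderiv ℝ (fun z => fderiv ℝ F z) z w) v := by
      intro v w
      rw [fderiv_clm_apply hd (differentiableAt_const v)]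
      simp
    rw [e v w, e w v]
    have hs : IsSymmSndFDerivAt ℝ F z :=
      (hF.contDiffAt (x := z)).isSymmSndFDerivAt
        (by simpa using (WithTop.coe_le_coe.2 (le_top : (2 : ℕ∞) ≤ ⊤) :
          (2 : WithTop ℕ∞) ≤ ((⊤ : ℕ∞) : WithTop ℕ∞)))
    exact hs w v
  rw [key v w, key w v]
  simp_rw [hsymm]

theorem weakClosed_dbar (Ω : Set (Fin 3 → ℂ)) (F : (Fin 3 → ℂ) → ℂ) (hF : ContDiff ℝ ∞ F) :
    WeakClosed Ω (fun j z => dbar j F z) := by
  rintro φ ⟨hφ, hc, hsub⟩ i j
  have hF1 : ContDiff ℝ ∞ (fun z => fderiv ℝ F z) := hF.fderiv_right (by simp)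
  have hφ1 : ContDiff ℝ ∞ (fun z => fderiv ℝ φ z) := hφ.fderiv_right (by simp)
  have hFv : ∀ v, Continuous (fun z => fderiv ℝ F z v) :=
    fun v => (hF1.clm_apply contDiff_const).continuous
  have hφv : ∀ v, Continuous (fun z => fderiv ℝ φ z v) :=
    fun v => (hφ1.clm_apply contDiff_const).continuous
  have hcv : ∀ v, HasCompactSupport (fun z => fderiv ℝ φ z v) := fun v => hc.fderiv_apply ℝ v
  have hint : ∀ v w, Integrable (fun z => fderiv ℝ F z v * fderiv ℝ φ z w) := by
    intro v w
    apply Continuous.integrable_of_hasCompactSupport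
    · exact (hFv v).mul (hφv w)
    · exact (hcv w).mul_left
  have hzero : ∀ z, z ∉ Ω → fderiv ℝ φ z = 0 := by
    intro z hz
    by_contra hne
    exact hz (hsub (support_fderiv_subset ℝ (Function.mem_support.2 hne)))
  have hext : ∀ i j : Fin 3, ∫ z in Ω, dbar j F z * dbar i φ z =
      ∫ z, dbar j F z * dbar i φ z := by
    intro i j
    apply setIntegral_eq_integral_of_forall_compl_eq_zero
    intro z hz
    simp [dbar, hzero z hz]
  have hexp : ∀ i j : Fin 3, ∫ z, dbar j F z * dbar i φ z =
      (1 / 4 : ℂ) * ((∫ z, fderiv ℝ F z (Pi.single j 1) * fderiv ℝ φ z (Pi.single i 1)) +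
        Complex.I * (∫ z, fderiv ℝ F z (Pi.single j 1) * fderiv ℝ φ z (Pi.single i Complex.I)) +
        Complex.I * (∫ z, fderiv ℝ F z (Pi.single j Complex.I) * fderiv ℝ φ z (Pi.single i 1)) -
        (∫ z, fderiv ℝ F z (Pi.single j Complex.I) * fderiv ℝ φ z (Pi.single i Complex.I))) := by
    intro i j
    have h1 := hint (Pi.single j 1) (Pi.single i 1)
    have h2 := (hint (Pi.single j 1) (Pi.single i Complex.I)).const_mul Complex.I
    have h3 := (hint (Pi.single j Complex.I) (Pi.single i 1)).const_mul Complex.I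
    have h4 := hint (Pi.single j Complex.I) (Pi.single i Complex.I)
    have e1 := integral_sub ((h1.add h2).add h3) h4
    have e2 := integral_add (h1.add h2) h3
    have e3 := integral_add h1 h2
    simp only [Pi.add_apply] at e1 e2 e3
    rw [← integral_const_mul Complex.I, ← integral_const_mul Complex.I,
      ← e3, ← e2, ← e1, ← integral_const_mul]
    congr 1
    funext z
    simp only [dbar]
    linear_combination (1 / 4 : ℂ) * fderiv ℝ F z (Pi.single j Complex.I) *
      fderiv ℝ φ z (Pi.single i Complex.I) * Complex.I_sq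
  show ∫ z in Ω, dbar j F z * dbar i φ z = ∫ z in Ω, dbar i F z * dbar j φ z
  rw [hext, hext, hexp, hexp, k1_swap hF hφ hc (Pi.single j 1) (Pi.single i 1),
    k1_swap hF hφ hc (Pi.single j 1) (Pi.single i Complex.I),
    k1_swap hF hφ hc (Pi.single j Complex.I) (Pi.single i 1),
    k1_swap hF hφ hc (Pi.single j Complex.I) (Pi.single i Complex.I)]
  ring

end Pool.Agent.Helper3.DB
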