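import Pool.Agent.Helper3.DB.Defs

open MeasureTheory
open scoped ContDiff NNReal ENNReal

namespace Pool.Agent.Helper3.DB

theorem LL_measurePreserving {w : ℂ} (hw : ‖w‖ = 1) (A : ℝ) :
    MeasurePreserving (LL w A) volume volume := by
  classical
  set Mt : Matrix (Fin 3) (Fin 3) ℂ :=
    !![(w.re : ℂ), (w.im : ℂ), 0; -(w.im : ℂ), (w.re : ℂ), 0;
      -((A : ℂ) * (w.re : ℂ)), -((A : ℂ) * (w.im : ℂ)), 1] with hMt
  have hsq : w.re * w.re + w.im * w.im = 1 := by
    have h1 : Complex.normSq w = 1 := by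
      rw [Complex.normSq_eq_norm_sq, hw]; norm_num
    rwa [Complex.normSq_apply] at h1
  have hsqC : (w.re : ℂ) * (w.re : ℂ) + (w.im : ℂ) * (w.im : ℂ) = 1 := by
    exact_mod_cast hsq
  have hdet : Mt.det = 1 := by
    rw [hMt, Matrix.det_fin_three]
    simp
    linear_combination hsqC
  set f : (Fin 3 → ℂ) →ₗ[ℝ] (Fin 3 → ℂ) := (Matrix.toLin' Mt).restrictScalars ℝ with hf
  have hdetf : LinearMap.det f = 1 := by
    rw [hf, LinearMap.det_restrictScalars, LinearMap.det_toLin', hdet, map_one]
  have hcoe : ⇑f = LL w A := by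
    funext z
    rw [hf, LinearMap.coe_restrictScalars, Matrix.toLin'_apply]
    funext i
    fin_cases i
    · simp [hMt, LL, Matrix.mulVec, dotProduct, Fin.sum_univ_three]
    · simp [hMt, LL, Matrix.mulVec, dotProduct, Fin.sum_univ_three]
    · simp [hMt, LL, Matrix.mulVec, dotProduct, Fin.sum_univ_three]
      ring
  have hmap : Measure.map f (volume : Measure (Fin 3 → ℂ)) = volume := by
    have := Measure.map_linearMap_addHaar_eq_smul_addHaar (volume : Measure (Fin 3 → ℂ))
      (f := f) (by rw [hdetf]; exact one_ne_zero)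
    rw [this, hdetf]
    simp
  have hmeas : Measurable (LL w A) := by
    rw [← hcoe]
    exact (LinearMap.continuous_of_finiteDimensional f).measurable
  refine ⟨hmeas, ?_⟩
  rw [← hcoe]
  exact hmap

end Pool.Agent.Helper3.DB
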