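import Pool.Agent.Helper3.DB.Defs

/-! # Piece L2: the chain rule for the linear maps `LL` (MP_c338f1_an) -/

open MeasureTheory
open scoped ContDiff NNReal ENNReal

namespace Pool.Agent.Helper3.DB

/-- `LL w A` as a continuous complex linear map. -/
noncomputable def LLc (w : ℂ) (A : ℝ) : (Fin 3 → ℂ) →L[ℂ] (Fin 3 → ℂ) :=
  ContinuousLinearMap.pi (fun i =>
    ![(w.re : ℂ) • ContinuousLinearMap.proj (R := ℂ) (φ := fun _ : Fin 3 => ℂ) 0 +
        (w.im : ℂ) • ContinuousLinearMap.proj 1,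
      -(w.im : ℂ) • ContinuousLinearMap.proj 0 + (w.re : ℂ) • ContinuousLinearMap.proj 1,
      ContinuousLinearMap.proj 2 - (A : ℂ) • ((w.re : ℂ) • ContinuousLinearMap.proj 0 +
        (w.im : ℂ) • ContinuousLinearMap.proj 1)] i)

theorem LLc_apply (w : ℂ) (A : ℝ) (z : Fin 3 → ℂ) : LLc w A z = LL w A z := by
  ext i
  fin_cases i
  · simp [LLc, LL]
  · simp [LLc, LL]
  · simp [LLc, LL]
    ring

theorem LL_eq (w : ℂ) (A : ℝ) : LL w A = fun z => (LLc w A) z := by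
  funext z
  rw [LLc_apply]

theorem LL_contDiff (w : ℂ) (A : ℝ) : ContDiff ℝ ∞ (LL w A) := by
  rw [LL_eq]
  exact ((LLc w A).restrictScalars ℝ).contDiff

theorem fderiv_comp_LL (w : ℂ) (A : ℝ) {φ : (Fin 3 → ℂ) → ℂ} (hφ : Differentiable ℝ φ)
    (z v : Fin 3 → ℂ) :
    fderiv ℝ (fun z => φ (LL w A z)) z v = fderiv ℝ φ (LL w A z) (LL w A v) := by
  have h1 : HasFDerivAt (fun z => φ (LL w A z))
      ((fderiv ℝ φ (LL w A z)).comp ((LLc w A).restrictScalars ℝ)) z := by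
    have h2 : HasFDerivAt (LL w A) ((LLc w A).restrictScalars ℝ) z := by
      rw [LL_eq]
      exact ((LLc w A).restrictScalars ℝ).hasFDerivAt
    exact (hφ (LL w A z)).hasFDerivAt.comp z h2
  rw [h1.fderiv, ContinuousLinearMap.comp_apply, ContinuousLinearMap.coe_restrictScalars',
    LLc_apply]

theorem LL_single0 (w : ℂ) (A : ℝ) (c : ℂ) :
    LL w A (Pi.single 0 c) = w.re • (Pi.single 0 c : Fin 3 → ℂ) + (-w.im) • (Pi.single 1 c : Fin 3 → ℂ) +
      (-(A * w.re)) • (Pi.single 2 c : Fin 3 → ℂ) := by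
  ext i
  fin_cases i <;> simp [LL] <;> ring

theorem LL_single1 (w : ℂ) (A : ℝ) (c : ℂ) :
    LL w A (Pi.single 1 c) = w.im • (Pi.single 0 c : Fin 3 → ℂ) + w.re • (Pi.single 1 c : Fin 3 → ℂ) +
      (-(A * w.im)) • (Pi.single 2 c : Fin 3 → ℂ) := by
  ext i
  fin_cases i <;> simp [LL] <;> ring

theorem LL_single2 (w : ℂ) (A : ℝ) (c : ℂ) :
    LL w A (Pi.single 2 c) = (Pi.single 2 c : Fin 3 → ℂ) := by
  ext i
  fin_cases i <;> simp [LL]

theorem dbar0_comp_LL (w : ℂ) (A : ℝ) {φ : (Fin 3 → ℂ) → ℂ} (hφ : Differentiable ℝ φ)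
    (z : Fin 3 → ℂ) :
    dbar 0 (fun z => φ (LL w A z)) z = w.re * dbar 0 φ (LL w A z) - w.im * dbar 1 φ (LL w A z) -
      A * w.re * dbar 2 φ (LL w A z) := by
  simp only [dbar, fderiv_comp_LL w A hφ, LL_single0, map_add, map_smul, Complex.real_smul]
  push_cast
  ring

theorem dbar1_comp_LL (w : ℂ) (A : ℝ) {φ : (Fin 3 → ℂ) → ℂ} (hφ : Differentiable ℝ φ)
    (z : Fin 3 → ℂ) :
    dbar 1 (fun z => φ (LL w A z)) z = w.im * dbar 0 φ (LL w A z) + w.re * dbar 1 φ (LL w A z) -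
      A * w.im * dbar 2 φ (LL w A z) := by
  simp only [dbar, fderiv_comp_LL w A hφ, LL_single1, map_add, map_smul, Complex.real_smul]
  push_cast
  ring

theorem dbar2_comp_LL (w : ℂ) (A : ℝ) {φ : (Fin 3 → ℂ) → ℂ} (hφ : Differentiable ℝ φ)
    (z : Fin 3 → ℂ) :
    dbar 2 (fun z => φ (LL w A z)) z = dbar 2 φ (LL w A z) := by
  simp only [dbar, fderiv_comp_LL w A hφ, LL_single2]

theorem differentiable_comp_LL (w : ℂ) (A : ℝ) {φ : (Fin 3 → ℂ) → ℂ} (hφ : Differentiable ℝ φ) :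
    Differentiable ℝ (fun z => φ (LL w A z)) :=
  hφ.comp ((LL_contDiff w A).differentiable (by simp))

theorem dbar_const_mul {n : ℕ} (j : Fin n) (c : ℂ) {φ : (Fin n → ℂ) → ℂ}
    (hφ : Differentiable ℝ φ) (z : Fin n → ℂ) :
    dbar j (fun z => c * φ z) z = c * dbar j φ z := by
  have h : fderiv ℝ (fun z => c * φ z) z = c • fderiv ℝ φ z := fderiv_const_mul (hφ z) c
  simp only [dbar, h, smul_apply, smul_eq_mul]
  ring

theorem normSq_of_norm_one {w : ℂ} (hw : ‖w‖ = 1) : (w.re : ℂ) * w.re + w.im * w.im = 1 := by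
  have h : w.re * w.re + w.im * w.im = 1 := by
    rw [← Complex.normSq_apply, Complex.normSq_eq_norm_sq, hw, one_pow]
  exact_mod_cast h

theorem sum_dbar_vec_comp_LL {w : ℂ} (hw : ‖w‖ = 1) (A : ℝ) {φ : (Fin 3 → ℂ) → ℂ}
    (hφ : Differentiable ℝ φ) (z : Fin 3 → ℂ) :
    ∑ j, dbar j (fun z => vec w A j * φ (LL w A z)) z = dbar 0 φ (LL w A z) := by
  have h1 : ∀ j : Fin 3, dbar j (fun z => vec w A j * φ (LL w A z)) z =
      vec w A j * dbar j (fun z => φ (LL w A z)) z := fun j =>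
    dbar_const_mul j (vec w A j) (differentiable_comp_LL w A hφ) z
  simp only [h1, Fin.sum_univ_three, dbar0_comp_LL w A hφ, dbar1_comp_LL w A hφ,
    dbar2_comp_LL w A hφ]
  have h2 := normSq_of_norm_one hw
  have e0 : vec w A 0 = w.re := rfl
  have e1 : vec w A 1 = w.im := rfl
  have e2 : vec w A 2 = A := rfl
  rw [e0, e1, e2]
  linear_combination (dbar 0 φ (LL w A z) - A * dbar 2 φ (LL w A z)) * h2

theorem dbar_comp_LL (w : ℂ) (A : ℝ) {φ : (Fin 3 → ℂ) → ℂ}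
    (hφ : Differentiable ℝ φ) (h1 : ∀ ζ, dbar 1 φ ζ = 0) (h2 : ∀ ζ, dbar 2 φ ζ = 0)
    (z : Fin 3 → ℂ) (j : Fin 3) :
    dbar j (fun z => φ (LL w A z)) z = cov w j * dbar 0 φ (LL w A z) := by
  fin_cases j
  · simp [dbar0_comp_LL w A hφ, h1, h2, cov]
  · simp [dbar1_comp_LL w A hφ, h1, h2, cov]
  · simp [dbar2_comp_LL w A hφ, h2, cov]

end Pool.Agent.Helper3.DB
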