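import Pool.Agent.Helper3.DB.Defs

open MeasureTheory
open scoped ContDiff NNReal ENNReal

namespace Pool.Agent.Helper3.DB

theorem norm_om (N : ℕ) (k : Fin N) : ‖om N k‖ = 1 := by
  unfold om
  exact Complex.norm_exp_ofReal_mul_I _

namespace N1

theorem om_re (N : ℕ) (k : Fin N) : (om N k).re = Real.cos ((k : ℝ) / N) := by
  unfold om
  exact Complex.exp_ofReal_mul_I_re _

theorem om_im (N : ℕ) (k : Fin N) : (om N k).im = Real.sin ((k : ℝ) / N) := by
  unfold om
  exact Complex.exp_ofReal_mul_I_im _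

theorem re_eq (N : ℕ) (k : Fin N) (x : ℂ) : (x * (starRingEnd ℂ) (om N k)).re =
    x.re * Real.cos ((k : ℝ) / N) + x.im * Real.sin ((k : ℝ) / N) := by
  rw [Complex.mul_re, Complex.conj_re, Complex.conj_im, om_re, om_im]
  ring

/-- two different directions cannot both be close to `x` -/
theorem not_both (N : ℕ) (hN : 1 ≤ N) (x : ℂ) (hx : 0 < ‖x‖) (k l : Fin N) (hkl : k ≠ l)
    (h1 : ‖x‖ - (x * (starRingEnd ℂ) (om N k)).re < 1 / (32 * (N : ℝ) ^ 2) * ‖x‖)
    (h2 : ‖x‖ - (x * (starRingEnd ℂ) (om N l)).re < 1 / (32 * (N : ℝ) ^ 2) * ‖x‖) : False := by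
  rw [re_eq] at h1 h2
  have hN0 : (0 : ℝ) < N := by exact_mod_cast hN
  set a := ‖x‖ with ha
  set α := (k : ℝ) / N with hα
  set β := (l : ℝ) / N with hβ
  have hsq : a ^ 2 = x.re ^ 2 + x.im ^ 2 := by
    rw [ha, Complex.sq_norm, Complex.normSq_apply]; ring
  have e1 := Real.sin_sq_add_cos_sq α
  have e2 := Real.sin_sq_add_cos_sq β
  have hc : Real.cos (α - β) = Real.cos α * Real.cos β + Real.sin α * Real.sin β :=
    Real.cos_sub α β
  -- the distance between the two unit vectors is small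
  have h3 : (x.re - a * Real.cos α) ^ 2 + (x.im - a * Real.sin α) ^ 2 =
      2 * a * (a - (x.re * Real.cos α + x.im * Real.sin α)) := by
    linear_combination (a ^ 2) * e1 - hsq
  have h4 : (x.re - a * Real.cos β) ^ 2 + (x.im - a * Real.sin β) ^ 2 =
      2 * a * (a - (x.re * Real.cos β + x.im * Real.sin β)) := by
    linear_combination (a ^ 2) * e2 - hsq
  have h5 : a ^ 2 * (2 - 2 * Real.cos (α - β)) =
      (a * Real.cos α - a * Real.cos β) ^ 2 + (a * Real.sin α - a * Real.sin β) ^ 2 := by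
    rw [hc]
    linear_combination (-a ^ 2) * e1 + (-a ^ 2) * e2
  have h6 : a ^ 2 * (2 - 2 * Real.cos (α - β)) ≤
      2 * ((x.re - a * Real.cos α) ^ 2 + (x.im - a * Real.sin α) ^ 2) +
      2 * ((x.re - a * Real.cos β) ^ 2 + (x.im - a * Real.sin β) ^ 2) := by
    rw [h5]
    nlinarith [sq_nonneg ((x.re - a * Real.cos α) + (x.re - a * Real.cos β)),
      sq_nonneg ((x.im - a * Real.sin α) + (x.im - a * Real.sin β))]
  rw [h3, h4] at h6
  have h7 : a * (a - (x.re * Real.cos α + x.im * Real.sin α)) <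
      a * (1 / (32 * (N : ℝ) ^ 2) * a) := mul_lt_mul_of_pos_left h1 hx
  have h8 : a * (a - (x.re * Real.cos β + x.im * Real.sin β)) <
      a * (1 / (32 * (N : ℝ) ^ 2) * a) := mul_lt_mul_of_pos_left h2 hx
  have h9 : a ^ 2 * (2 - 2 * Real.cos (α - β)) < a ^ 2 * (1 / (4 * (N : ℝ) ^ 2)) := by
    have e : a ^ 2 * (1 / (4 * (N : ℝ) ^ 2)) = 8 * (a * (1 / (32 * (N : ℝ) ^ 2) * a)) := by
      field_simp; ring
    rw [e]
    linarith
  have h10 : 2 - 2 * Real.cos (α - β) < 1 / (4 * (N : ℝ) ^ 2) :=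
    lt_of_mul_lt_mul_left h9 (sq_nonneg a)
  -- but the angles differ by at least `1 / N`
  have hd : 1 / (N : ℝ) ^ 2 ≤ (α - β) ^ 2 := by
    have h11 : (1 : ℝ) ≤ ((k : ℝ) - l) ^ 2 := by
      have hne : (k : ℤ) - (l : ℤ) ≠ 0 := by
        intro h
        apply hkl
        apply Fin.ext
        omega
      have h12 : (1 : ℤ) ≤ ((k : ℤ) - (l : ℤ)) ^ 2 := by
        have := Int.one_le_abs hne
        rw [← sq_abs]
        exact one_le_pow₀ this
      exact_mod_cast h12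
    have e : (α - β) ^ 2 = ((k : ℝ) - l) ^ 2 / (N : ℝ) ^ 2 := by
      rw [hα, hβ]; field_simp
    rw [e]
    gcongr
  have hab : |α - β| ≤ Real.pi := by
    have hk : (k : ℝ) ≤ N := by exact_mod_cast k.2.le
    have hl : (l : ℝ) ≤ N := by exact_mod_cast l.2.le
    have hα1 : α ≤ 1 := by rw [hα]; exact (div_le_one hN0).2 hk
    have hβ1 : β ≤ 1 := by rw [hβ]; exact (div_le_one hN0).2 hl
    have hα0 : 0 ≤ α := by rw [hα]; positivity
    have hβ0 : 0 ≤ β := by rw [hβ]; positivity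
    have := Real.pi_gt_three
    rw [abs_le]
    constructor <;> linarith
  have hcos := Real.cos_le_one_sub_mul_cos_sq hab
  have hpi : Real.pi ^ 2 < 16 :=
    calc Real.pi ^ 2 < 3.15 ^ 2 := pow_lt_pow_left₀ Real.pi_lt_d2 Real.pi_pos.le (by norm_num)
      _ < 16 := by norm_num
  have hpi0 : 0 < Real.pi ^ 2 := by positivity
  have h13 : 4 / Real.pi ^ 2 * (α - β) ^ 2 < 1 / (4 * (N : ℝ) ^ 2) := by
    have : 4 / Real.pi ^ 2 * (α - β) ^ 2 = 2 * (2 / Real.pi ^ 2 * (α - β) ^ 2) := by ring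
    linarith
  have h14 : 1 / 4 < 4 / Real.pi ^ 2 := by
    rw [div_lt_div_iff₀ (by norm_num) hpi0]; linarith
  have h15 : 1 / 4 * (1 / (N : ℝ) ^ 2) < 4 / Real.pi ^ 2 * (α - β) ^ 2 := by
    have : 0 < 1 / (N : ℝ) ^ 2 := by positivity
    calc 1 / 4 * (1 / (N : ℝ) ^ 2) < 4 / Real.pi ^ 2 * (1 / (N : ℝ) ^ 2) :=
          mul_lt_mul_of_pos_right h14 this
      _ ≤ _ := mul_le_mul_of_nonneg_left hd (by positivity)
  have e : 1 / (4 * (N : ℝ) ^ 2) = 1 / 4 * (1 / (N : ℝ) ^ 2) := by field_simp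
  linarith

end N1

theorem sum_exp_le_two (N : ℕ) (hN : 1 ≤ N) (b ρ : ℝ) (hρ : 0 < ρ)
    (hb : 64 * (N : ℝ) ^ 3 ≤ b * ρ) (x : ℂ) :
    ∑ k : Fin N, (if ρ ≤ (x * (starRingEnd ℂ) (om N k)).re then
      Real.exp (-(b * (‖x‖ - (x * (starRingEnd ℂ) (om N k)).re))) else 0) ≤ 2 := by
  classical
  have hN0 : (0 : ℝ) < N := by exact_mod_cast hN
  have hb0 : 0 < b := by
    have : 0 < b * ρ := lt_of_lt_of_le (by positivity) hb
    exact pos_of_mul_pos_left this hρ.le
  set f : Fin N → ℝ := fun k => if ρ ≤ (x * (starRingEnd ℂ) (om N k)).re then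
      Real.exp (-(b * (‖x‖ - (x * (starRingEnd ℂ) (om N k)).re))) else 0 with hf
  have hle : ∀ k, (x * (starRingEnd ℂ) (om N k)).re ≤ ‖x‖ := by
    intro k
    have h := Complex.re_le_norm (x * (starRingEnd ℂ) (om N k))
    rwa [norm_mul, Complex.norm_conj, norm_om, mul_one] at h
  have hf1 : ∀ k, f k ≤ 1 := by
    intro k
    simp only [hf]
    split_ifs
    · rw [← Real.exp_zero]
      apply Real.exp_le_exp.2
      have := mul_nonneg hb0.le (sub_nonneg.2 (hle k))
      linarith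
    · exact zero_le_one
  have hsmall : ∀ k, (ρ ≤ (x * (starRingEnd ℂ) (om N k)).re →
      1 / (32 * (N : ℝ) ^ 2) * ‖x‖ ≤ ‖x‖ - (x * (starRingEnd ℂ) (om N k)).re) →
      f k ≤ 1 / (2 * N) := by
    intro k hk
    simp only [hf]
    split_ifs with h
    · have h1 := hk h
      have h2 : ρ ≤ ‖x‖ := h.trans (hle k)
      have h3 : 2 * (N : ℝ) ≤ b * (‖x‖ - (x * (starRingEnd ℂ) (om N k)).re) := by
        calc 2 * (N : ℝ) = 1 / (32 * (N : ℝ) ^ 2) * (64 * (N : ℝ) ^ 3) := by field_simp; ring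
          _ ≤ 1 / (32 * (N : ℝ) ^ 2) * (b * ρ) := by gcongr
          _ ≤ 1 / (32 * (N : ℝ) ^ 2) * (b * ‖x‖) := by gcongr
          _ = b * (1 / (32 * (N : ℝ) ^ 2) * ‖x‖) := by ring
          _ ≤ _ := by gcongr
      calc Real.exp (-(b * (‖x‖ - (x * (starRingEnd ℂ) (om N k)).re)))
          ≤ Real.exp (-(2 * N)) := Real.exp_le_exp.2 (by linarith)
        _ = 1 / Real.exp (2 * N) := by rw [Real.exp_neg, one_div]
        _ ≤ 1 / (2 * N) := by
            apply one_div_le_one_div_of_le (by positivity)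
            linarith [Real.add_one_le_exp (2 * (N : ℝ))]
    · positivity
  by_cases hex : ∃ k0, ρ ≤ (x * (starRingEnd ℂ) (om N k0)).re ∧
      ‖x‖ - (x * (starRingEnd ℂ) (om N k0)).re < 1 / (32 * (N : ℝ) ^ 2) * ‖x‖
  · obtain ⟨k0, hk0, hk1⟩ := hex
    have hx : 0 < ‖x‖ := lt_of_lt_of_le hρ (hk0.trans (hle k0))
    have hothers : ∀ k ∈ Finset.univ.erase k0, f k ≤ 1 / (2 * N) := by
      intro k hk
      apply hsmall
      intro _
      by_contra hcon
      exact N1.not_both N hN x hx k k0 (Finset.ne_of_mem_erase hk) (not_le.1 hcon) hk1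
    have hsum : ∑ k, f k = f k0 + ∑ k ∈ Finset.univ.erase k0, f k :=
      (Finset.add_sum_erase _ _ (Finset.mem_univ k0)).symm
    have h1 : ∑ k ∈ Finset.univ.erase k0, f k ≤
        ((Finset.univ.erase k0).card : ℝ) * (1 / (2 * N)) := by
      have := Finset.sum_le_card_nsmul _ _ _ hothers
      rwa [nsmul_eq_mul] at this
    have h2 : ((Finset.univ.erase k0).card : ℝ) ≤ N := by
      have : (Finset.univ.erase k0).card ≤ (Finset.univ : Finset (Fin N)).card :=
        Finset.card_le_card (Finset.erase_subset _ _)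
      rw [Finset.card_univ, Fintype.card_fin] at this
      exact_mod_cast this
    have h3 : ((Finset.univ.erase k0).card : ℝ) * (1 / (2 * N)) ≤ 1 := by
      calc ((Finset.univ.erase k0).card : ℝ) * (1 / (2 * N)) ≤ N * (1 / (2 * N)) := by gcongr
        _ = 1 / 2 := by field_simp
        _ ≤ 1 := by norm_num
    change ∑ k, f k ≤ 2
    rw [hsum]
    linarith [hf1 k0]
  · push Not at hex
    have hall : ∀ k ∈ (Finset.univ : Finset (Fin N)), f k ≤ 1 / (2 * N) := fun k _ =>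
      hsmall k (hex k)
    have h1 := Finset.sum_le_card_nsmul _ _ _ hall
    rw [nsmul_eq_mul, Finset.card_univ, Fintype.card_fin] at h1
    have h2 : (N : ℝ) * (1 / (2 * N)) ≤ 2 := by
      have : (N : ℝ) * (1 / (2 * N)) = 1 / 2 := by field_simp
      rw [this]; norm_num
    exact h1.trans h2

end Pool.Agent.Helper3.DB
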