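import Pool.Agent.Helper3.DB.P1

open MeasureTheory
open scoped ContDiff NNReal ENNReal

namespace Pool.Agent.Helper3.DB

theorem HS_norm_contDiff (r : ℝ) (hr : 0 < r) : ContDiff ℝ ∞ (fun x : ℂ => HS (‖x‖ / r)) := by
  rw [contDiff_iff_contDiffAt]
  intro x
  by_cases hx : x = 0
  · -- locally zero
    have h1 : (fun x : ℂ => HS (‖x‖ / r)) =ᶠ[nhds x] fun _ => (0 : ℝ) := by
      rw [hx]
      filter_upwards [Metric.ball_mem_nhds (0 : ℂ) hr] with y hy
      have hy' : ‖y‖ < r := by simpa using hy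
      exact HS_zero ((div_le_one hr).2 hy'.le)
    exact contDiffAt_const.congr_of_eventuallyEq h1
  · exact HS_contDiff.contDiffAt.comp x (((contDiffAt_norm ℝ hx)).div_const r)

theorem HS_norm_convex (r : ℝ) (hr : 0 < r) : ConvexOn ℝ Set.univ (fun x : ℂ => HS (‖x‖ / r)) := by
  refine ⟨convex_univ, fun x _ y _ a b ha hb hab => ?_⟩
  have h1 : ‖a • x + b • y‖ / r ≤ a * (‖x‖ / r) + b * (‖y‖ / r) := by
    rw [← mul_div_assoc, ← mul_div_assoc, ← add_div]
    refine div_le_div_of_nonneg_right ?_ hr.le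
    refine (norm_add_le _ _).trans ?_
    rw [norm_smul, norm_smul, Real.norm_of_nonneg ha, Real.norm_of_nonneg hb]
  calc HS (‖a • x + b • y‖ / r) ≤ HS (a * (‖x‖ / r) + b * (‖y‖ / r)) := HS_mono h1
    _ ≤ a • HS (‖x‖ / r) + b • HS (‖y‖ / r) :=
        HS_convex.2 (Set.mem_univ _) (Set.mem_univ _) ha hb hab

end Pool.Agent.Helper3.DB
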