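import Pool.Agent.Helper3.DB.Defs

/-! Piece P3 of `MP_c338f1_an` (by helper87). -/

open MeasureTheory
open scoped ContDiff NNReal ENNReal

namespace Pool.Agent.Helper3.DB

/-- the smooth cutoff which is one on the ball of radius `n + 1`. -/
private noncomputable def cutP3 (n : ℕ) : ContDiffBump (0 : ℂ) :=
  ⟨(n : ℝ) + 1, (n : ℝ) + 2, by positivity, by linarith⟩

private theorem bound_P3 (φ : ℂ → ℝ) (hφ : ContDiff ℝ ∞ φ) (n k : ℕ) :
    ∃ B : ℝ, ∀ x, ‖iteratedFDeriv ℝ k (fun y => cutP3 n y * φ y) x‖ ≤ B := by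
  have hg : ContDiff ℝ ∞ (fun y => cutP3 n y * φ y) := (cutP3 n).contDiff.mul hφ
  have hc : HasCompactSupport (fun y => cutP3 n y * φ y) :=
    (cutP3 n).hasCompactSupport.mul_right
  have hk : Continuous (iteratedFDeriv ℝ k (fun y => cutP3 n y * φ y)) :=
    hg.continuous_iteratedFDeriv (by exact_mod_cast le_top)
  exact (hc.iteratedFDeriv k).exists_bound_of_continuous hk

theorem exists_coeff (φ : ℕ → ℂ → ℝ) (hφ : ∀ j, ContDiff ℝ ∞ (φ j)) :
    ∃ a : ℕ → ℝ, (∀ j, 0 < a j ∧ a j ≤ (1 / 2) ^ (j + 1)) ∧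
      (∀ x, Summable (fun j => a j * φ j x)) ∧ ContDiff ℝ ∞ (fun x => ∑' j, a j * φ j x) := by
  choose B hB using fun (n j k : ℕ) => bound_P3 (φ j) (hφ j) n k
  have hB0 : ∀ n j k, 0 ≤ B n j k := fun n j k => (norm_nonneg _).trans (hB n j k 0)
  let S : ℕ → ℝ := fun j => ∑ n ∈ Finset.range (j + 1), ∑ k ∈ Finset.range (j + 1), B n j k
  have hS0 : ∀ j, 0 ≤ S j := fun j =>
    Finset.sum_nonneg fun n _ => Finset.sum_nonneg fun k _ => hB0 n j k
  have hSB : ∀ n j k, n ≤ j → k ≤ j → B n j k ≤ S j := by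
    intro n j k hn hk
    calc B n j k ≤ ∑ k ∈ Finset.range (j + 1), B n j k :=
          Finset.single_le_sum (f := fun k => B n j k) (fun k _ => hB0 n j k)
            (Finset.mem_range.2 (by omega))
      _ ≤ S j := Finset.single_le_sum (f := fun n => ∑ k ∈ Finset.range (j + 1), B n j k)
            (fun n _ => Finset.sum_nonneg fun k _ => hB0 n j k) (Finset.mem_range.2 (by omega))
  let a : ℕ → ℝ := fun j => (1 / 2) ^ (j + 1) / (1 + S j)
  have ha0 : ∀ j, 0 < a j := fun j => by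
    have := hS0 j
    show 0 < (1 / 2 : ℝ) ^ (j + 1) / (1 + S j)
    positivity
  have ha1 : ∀ j, a j ≤ (1 / 2) ^ (j + 1) := fun j =>
    div_le_self (by positivity) (by linarith [hS0 j])
  have haB : ∀ n j k, n ≤ j → k ≤ j → a j * B n j k ≤ (1 / 2) ^ (j + 1) := by
    intro n j k hn hk
    have h1 : a j * B n j k ≤ a j * (1 + S j) :=
      mul_le_mul_of_nonneg_left (by linarith [hSB n j k hn hk]) (ha0 j).le
    have h2 : a j * (1 + S j) = (1 / 2) ^ (j + 1) :=
      div_mul_cancel₀ _ (by linarith [hS0 j] : (1 + S j) ≠ 0)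
    linarith
  have hsum : Summable (fun j : ℕ => (1 / 2 : ℝ) ^ (j + 1)) := by
    simpa [pow_succ] using (summable_geometric_two).mul_right (1 / 2 : ℝ)
  have hder : ∀ n j k, n ≤ j → k ≤ j → ∀ x,
      ‖iteratedFDeriv ℝ k (a j • fun y => cutP3 n y * φ j y) x‖ ≤ (1 / 2) ^ (j + 1) := by
    intro n j k hn hk x
    have hg : ContDiff ℝ ∞ (fun y => cutP3 n y * φ j y) := (cutP3 n).contDiff.mul (hφ j)
    rw [iteratedFDeriv_const_smul_apply
      ((hg.contDiffAt).of_le (by exact_mod_cast le_top)), norm_smul, Real.norm_eq_abs,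
      abs_of_pos (ha0 j)]
    exact (mul_le_mul_of_nonneg_left (hB n j k x) (ha0 j).le).trans (haB n j k hn hk)
  have hcut : ∀ (n : ℕ) (x : ℂ), ‖x‖ < (n : ℝ) + 1 → cutP3 n x = 1 := by
    intro n x hx
    apply (cutP3 n).one_of_mem_closedBall
    simpa [cutP3] using hx.le
  refine ⟨a, fun j => ⟨ha0 j, ha1 j⟩, fun x => ?_, ?_⟩
  · obtain ⟨n, hn⟩ := exists_nat_gt ‖x‖
    refine Summable.of_norm_bounded_eventually_nat hsum ?_
    filter_upwards [Filter.eventually_ge_atTop n] with j hj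
    have h := hder n j 0 hj (Nat.zero_le _) x
    rw [norm_iteratedFDeriv_zero] at h
    have hx1 : cutP3 n x = 1 := hcut n x (by linarith)
    simpa [hx1] using h
  · rw [contDiff_iff_contDiffAt]
    intro x
    obtain ⟨n, hn⟩ := exists_nat_gt ‖x‖
    have hT : ContDiff ℝ ∞ (fun y => ∑' j, (a j • fun y => cutP3 n y * φ j y) y) := by
      refine contDiff_tsum_of_eventually (v := fun _ j => (1 / 2 : ℝ) ^ (j + 1)) (fun j => ?_)
        (fun k _ => hsum) (fun k _ => ?_)
      · exact ((cutP3 n).contDiff.mul (hφ j)).const_smul (a j)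
      · rw [Nat.cofinite_eq_atTop]
        filter_upwards [Filter.eventually_ge_atTop (max n k)] with j hj
        exact hder n j k (le_of_max_le_left hj) (le_of_max_le_right hj)
    refine (hT.contDiffAt).congr_of_eventuallyEq ?_
    have hopen : IsOpen {y : ℂ | ‖y‖ < (n : ℝ) + 1} := isOpen_lt continuous_norm continuous_const
    filter_upwards [hopen.mem_nhds (show ‖x‖ < (n : ℝ) + 1 by linarith)] with y hy
    refine tsum_congr fun j => ?_
    simp [hcut n y hy]

end Pool.Agent.Helper3.DB
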