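import Pool.Agent.Helper3.DB.P1
import Pool.Agent.Helper3.DB.P2
import Pool.Agent.Helper3.DB.P3

/-! # The profile: a convergent sum of rounded cones -/

open MeasureTheory
open scoped ContDiff NNReal ENNReal

namespace Pool.Agent.Helper3.DB

namespace P4

/-- the scales -/
def Mseq : ℕ → ℕ
  | 0 => 16
  | j + 1 => 16 * Mseq j ^ 162

lemma Mseq_ge (j : ℕ) : 16 ≤ Mseq j := by
  cases j with
  | zero => exact le_refl _
  | succ j =>
    rw [Mseq]
    have h : 1 ≤ Mseq j ^ 162 := by
      apply Nat.one_le_pow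
      induction j with
      | zero => norm_num [Mseq]
      | succ j ih => rw [Mseq]; positivity
    omega

lemma Mseq_lt (j : ℕ) : Mseq j < Mseq (j + 1) := by
  have h1 := Mseq_ge j
  rw [Mseq]
  have h2 : Mseq j ^ 1 ≤ Mseq j ^ 162 := Nat.pow_le_pow_right (by omega) (by norm_num)
  rw [pow_one] at h2
  omega

lemma Mseq_strictMono : StrictMono Mseq := strictMono_nat_of_lt_succ Mseq_lt

lemma rr_Mseq (j : ℕ) : rr (Mseq j) = 1 / (Mseq (j + 1) : ℝ) := by
  rw [rr, Mseq]; push_cast; rfl

lemma rr_pos (j : ℕ) : 0 < rr (Mseq j) := by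
  rw [rr_Mseq]
  have := Mseq_ge (j + 1)
  have h : (0 : ℝ) < (Mseq (j + 1) : ℝ) := by
    have : 0 < Mseq (j + 1) := by omega
    exact_mod_cast this
  positivity

lemma rr_anti {i j : ℕ} (h : i ≤ j) : rr (Mseq j) ≤ rr (Mseq i) := by
  rw [rr_Mseq, rr_Mseq]
  have h1 : (0 : ℝ) < (Mseq (i + 1) : ℝ) := by
    have := Mseq_ge (i + 1)
    have : 0 < Mseq (i + 1) := by omega
    exact_mod_cast this
  apply one_div_le_one_div_of_le h1
  exact_mod_cast Mseq_strictMono.monotone (by omega)

end P4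

open P4

theorem profile_exists : ∃ ψ : ℂ → ℝ, IsProfile ψ := by
  obtain ⟨a, ha, hsum, hsm⟩ := exists_coeff
    (fun j x => rr (Mseq j) * HS (‖x‖ / rr (Mseq j)))
    (fun j => contDiff_const.mul (HS_norm_contDiff _ (rr_pos j)))
  have hsa : Summable a := by
    refine Summable.of_nonneg_of_le (fun j => (ha j).1.le) (fun j => (ha j).2) ?_
    exact (summable_nat_add_iff 1).2 summable_geometric_two
  have hterm : ∀ x : ℂ, ∀ j, 0 ≤ a j * (rr (Mseq j) * HS (‖x‖ / rr (Mseq j))) := fun x j =>
    mul_nonneg (ha j).1.le (mul_nonneg (rr_pos j).le (HS_nonneg _))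
  refine ⟨fun x => ∑' j, a j * (rr (Mseq j) * HS (‖x‖ / rr (Mseq j))), hsm, ?_, ?_, ?_, ?_⟩
  · -- convexity
    refine ⟨convex_univ, ?_⟩
    intro x _ y _ s t hs ht hst
    simp only [smul_eq_mul]
    rw [← tsum_mul_left, ← tsum_mul_left,
      ← Summable.tsum_add ((hsum x).mul_left s) ((hsum y).mul_left t)]
    refine Summable.tsum_le_tsum ?_ (hsum _) (((hsum x).mul_left s).add ((hsum y).mul_left t))
    intro j
    have h := (HS_norm_convex _ (rr_pos j)).2 (Set.mem_univ x) (Set.mem_univ y) hs ht hst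
    simp only [smul_eq_mul] at h
    calc a j * (rr (Mseq j) * HS (‖s • x + t • y‖ / rr (Mseq j)))
        ≤ a j * (rr (Mseq j) * (s * HS (‖x‖ / rr (Mseq j)) + t * HS (‖y‖ / rr (Mseq j)))) :=
          mul_le_mul_of_nonneg_left (mul_le_mul_of_nonneg_left h (rr_pos j).le) (ha j).1.le
      _ = _ := by ring
  · exact fun x => tsum_nonneg (hterm x)
  · have : ∀ j, a j * (rr (Mseq j) * HS (‖(0 : ℂ)‖ / rr (Mseq j))) = 0 := by
      intro j
      rw [norm_zero, zero_div, HS_zero zero_le_one, mul_zero, mul_zero]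
    simp only [this, tsum_zero]
  · intro M₀
    refine ⟨Mseq M₀, Mseq_strictMono.id_le M₀, ∑' j, a (j + M₀), ?_, ?_, ?_, ?_⟩
    · have h1 : Summable (fun j => a (j + M₀)) := (summable_nat_add_iff M₀).2 hsa
      exact h1.tsum_pos (fun j => (ha _).1.le) 0 (ha _).1
    · have h1 : Summable (fun j => a (j + M₀)) := (summable_nat_add_iff M₀).2 hsa
      have hg : Summable (fun j : ℕ => ((1 : ℝ) / 2) ^ (j + 1)) :=
        (summable_nat_add_iff 1).2 summable_geometric_two
      calc ∑' j, a (j + M₀) ≤ ∑' j : ℕ, ((1 : ℝ) / 2) ^ (j + 1) := by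
            refine Summable.tsum_le_tsum (fun j => (ha _).2.trans ?_) h1 hg
            exact pow_le_pow_of_le_one (by norm_num) (by norm_num) (by omega)
        _ = 1 := by
          have : ∀ j : ℕ, ((1 : ℝ) / 2) ^ (j + 1) = (1 / 2) ^ j * (1 / 2) := fun j => pow_succ _ _
          simp only [this]
          rw [tsum_mul_right, tsum_geometric_two]; norm_num
    · intro x
      have h1 : Summable (fun j => a (j + M₀)) := (summable_nat_add_iff M₀).2 hsa
      have h2 := (summable_nat_add_iff M₀).2 (hsum x)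
      calc (∑' j, a (j + M₀)) * (‖x‖ - 2 * rr (Mseq M₀))
          = ∑' j, a (j + M₀) * (‖x‖ - 2 * rr (Mseq M₀)) := by rw [tsum_mul_right]
        _ ≤ ∑' j, a (j + M₀) * (rr (Mseq (j + M₀)) * HS (‖x‖ / rr (Mseq (j + M₀)))) := by
            refine Summable.tsum_le_tsum (fun j => ?_) (h1.mul_right _) h2
            refine mul_le_mul_of_nonneg_left ?_ (ha _).1.le
            have h3 := HS_ge (‖x‖ / rr (Mseq (j + M₀)))
            have h4 := rr_pos (j + M₀)
            have h5 : rr (Mseq (j + M₀)) ≤ rr (Mseq M₀) := rr_anti (by omega)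
            calc ‖x‖ - 2 * rr (Mseq M₀) ≤ ‖x‖ - 2 * rr (Mseq (j + M₀)) := by linarith
              _ = rr (Mseq (j + M₀)) * (‖x‖ / rr (Mseq (j + M₀)) - 2) := by
                  field_simp
              _ ≤ _ := mul_le_mul_of_nonneg_left h3 h4.le
        _ ≤ ∑' j, a j * (rr (Mseq j) * HS (‖x‖ / rr (Mseq j))) := by
            rw [← (hsum x).sum_add_tsum_nat_add M₀]
            have := Finset.sum_nonneg (fun j (_ : j ∈ Finset.range M₀) => hterm x j)
            linarith
    · intro x hx
      have h1 : Summable (fun j => a (j + M₀)) := (summable_nat_add_iff M₀).2 hsa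
      have h2 := (summable_nat_add_iff M₀).2 (hsum x)
      have h0 : ∑ j ∈ Finset.range M₀, a j * (rr (Mseq j) * HS (‖x‖ / rr (Mseq j))) = 0 := by
        refine Finset.sum_eq_zero (fun j hj => ?_)
        have hj' : j + 1 ≤ M₀ := by
          have := Finset.mem_range.1 hj
          omega
        have h3 : ‖x‖ ≤ rr (Mseq j) := by
          refine hx.trans ?_
          rw [rr_Mseq]
          have h4 : (0 : ℝ) < (Mseq (j + 1) : ℝ) := by
            have := Mseq_ge (j + 1)
            have : 0 < Mseq (j + 1) := by omega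
            exact_mod_cast this
          apply one_div_le_one_div_of_le h4
          exact_mod_cast Mseq_strictMono.monotone hj'
        rw [HS_zero ((div_le_one (rr_pos j)).2 h3), mul_zero, mul_zero]
      show ∑' j, a j * (rr (Mseq j) * HS (‖x‖ / rr (Mseq j))) ≤ (∑' j, a (j + M₀)) * ‖x‖
      rw [← (hsum x).sum_add_tsum_nat_add M₀, h0, zero_add, ← tsum_mul_right]
      refine Summable.tsum_le_tsum (fun j => ?_) h2 (h1.mul_right _)
      refine mul_le_mul_of_nonneg_left ?_ (ha _).1.le
      have h4 := rr_pos (j + M₀)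
      calc rr (Mseq (j + M₀)) * HS (‖x‖ / rr (Mseq (j + M₀)))
          ≤ rr (Mseq (j + M₀)) * (‖x‖ / rr (Mseq (j + M₀))) :=
            mul_le_mul_of_nonneg_left (HS_le (by positivity)) h4.le
        _ = ‖x‖ := by field_simp

end Pool.Agent.Helper3.DB
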