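import Pool.Agent.Helper3.DB.C1

/-! Piece Q1: lower bound of the pairing of the base form with the base test function. -/

open MeasureTheory
open scoped ContDiff NNReal ENNReal

namespace Pool.Agent.Helper3.DB

namespace Q1

/-- the exponential of the even part -/
noncomputable def q0 (M : ℕ) (s : ℂ) : ℂ :=
  ((1 / 2 * (deriv chi (s.re / Rp M) / Rp M) *
    (TT (s.re / rr M) * chi (s.re / Re' M) * eta s.im) : ℝ) : ℂ) * Complex.exp (kap M * s ^ 2)
noncomputable def q2 (τ : ℝ) (s : ℂ) : ℂ := ((BB (τ * s.re) * eta s.im : ℝ) : ℂ)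

noncomputable def f0 (M : ℕ) (s : ℂ) : ℝ :=
  -(deriv chi (s.re / Rp M) / Rp M) * (eta s.im * Real.exp (-((M : ℝ) ^ 2 * s.im ^ 2)))
noncomputable def f1 (M : ℕ) (s : ℂ) : ℝ :=
  cc (s.re / rr M) * (eta s.im * Real.exp (-((M : ℝ) ^ 2 * s.im ^ 2)))
noncomputable def f2 (τ : ℝ) (s : ℂ) : ℝ := BB (τ * s.re) * eta s.im

noncomputable def Qc (M : ℕ) (τ : ℝ) : Fin 3 → ℂ → ℂ := ![q0 M, v1 M, q2 τ]
noncomputable def Qr (M : ℕ) (τ : ℝ) : Fin 3 → ℂ → ℝ := ![f0 M, f1 M, f2 τ]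

theorem Fb_Vb (M : ℕ) (τ : ℝ) (ζ : Fin 3 → ℂ) :
    Fb M τ ζ * Vb M τ ζ = ∏ i, Qc M τ i (ζ i) := by
  rw [Fin.prod_univ_three]
  change _ = q0 M (ζ 0) * v1 M (ζ 1) * q2 τ (ζ 2)
  unfold Fb Vb v0 v2 q0 q2
  have h1 : Complex.exp (KK M * ζ 0) * Complex.exp (-(KK M * ζ 0) + kap M * ζ 0 ^ 2)
      = Complex.exp (kap M * ζ 0 ^ 2) := by
    rw [← Complex.exp_add]; congr 1; ring
  have h2 : Complex.exp (-(τ * ζ 2)) * Complex.exp (τ * ζ 2) = 1 := by
    rw [← Complex.exp_add]; simp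
  push_cast
  calc _ = (1 / 2 * (((deriv chi ((ζ 0).re / Rp M) : ℝ) : ℂ) / ((Rp M : ℝ) : ℂ)) *
        (((TT ((ζ 0).re / rr M) : ℝ) : ℂ) * ((chi ((ζ 0).re / Re' M) : ℝ) : ℂ) *
          ((eta (ζ 0).im : ℝ) : ℂ))) *
        (Complex.exp (KK M * ζ 0) * Complex.exp (-(KK M * ζ 0) + kap M * ζ 0 ^ 2)) * v1 M (ζ 1) *
        (((BB (τ * (ζ 2).re) : ℝ) : ℂ) * ((eta (ζ 2).im : ℝ) : ℂ)) *
        (Complex.exp (-(τ * ζ 2)) * Complex.exp (τ * ζ 2)) := by ring
    _ = _ := by rw [h1, h2, mul_one]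

theorem rr_pos {M : ℕ} (hM : 1 ≤ M) : 0 < rr M := by
  have : (0 : ℝ) < M := by exact_mod_cast hM
  unfold rr; positivity
theorem Rp_pos {M : ℕ} (hM : 1 ≤ M) : 0 < Rp M := by
  have : (0 : ℝ) < M := by exact_mod_cast hM
  unfold Rp; positivity
theorem Re'_pos {M : ℕ} (hM : 1 ≤ M) : 0 < Re' M := by
  have : (0 : ℝ) < M := by exact_mod_cast hM
  unfold Re'; positivity
theorem Rp_eq {M : ℕ} (hM : 1 ≤ M) : (M : ℝ) ^ 2 * Rp M = 1 / 16 := by
  have : (0 : ℝ) < M := by exact_mod_cast hM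
  unfold Rp; field_simp
theorem rr_le {M : ℕ} (hM : 1 ≤ M) : (M : ℝ) ^ 2 * rr M ≤ 1 / 16 := by
  have h0 : (0 : ℝ) < M := by exact_mod_cast hM
  have h1 : (1 : ℝ) ≤ M := by exact_mod_cast hM
  unfold rr
  have h2 : (1 : ℝ) ≤ (M : ℝ) ^ 160 := one_le_pow₀ h1
  have h3 : (M : ℝ) ^ 2 * (1 / (16 * (M : ℝ) ^ 162)) = 1 / (16 * (M : ℝ) ^ 160) := by
    field_simp
  rw [h3]
  apply one_div_le_one_div_of_le (by norm_num)
  linarith
theorem Rp_le {M : ℕ} (hM : 2 ≤ M) : Rp M ≤ Re' M / 2 := by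
  have h0 : (0 : ℝ) < M := by exact_mod_cast (by omega : 0 < M)
  have h1 : (1 : ℝ) ≤ M := by exact_mod_cast (by omega : 1 ≤ M)
  unfold Rp Re'
  rw [div_div, show 2 * (M : ℝ) * 2 = 4 * M by ring]
  apply one_div_le_one_div_of_le (by positivity)
  nlinarith

theorem deriv_chi_continuous : Continuous (deriv chi) :=
  chi_contDiff.continuous_deriv (by simp)

/-- pointwise comparison -/
theorem pointwise {M : ℕ} (hM : 2 ≤ M) (τ : ℝ) (ζ : Fin 3 → ℂ) :
    1 / 4 * ∏ i, Qr M τ i (ζ i) ≤ (-∏ i, Qc M τ i (ζ i)).re := by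
  have hM1 : 1 ≤ M := by omega
  have hMr : (0 : ℝ) < M := by exact_mod_cast (by omega : 0 < M)
  rw [Fin.prod_univ_three, Fin.prod_univ_three]
  change 1 / 4 * (f0 M (ζ 0) * f1 M (ζ 1) * f2 τ (ζ 2)) ≤
    (-(q0 M (ζ 0) * v1 M (ζ 1) * q2 τ (ζ 2))).re
  set x0 := (ζ 0).re
  set y0 := (ζ 0).im
  set x1 := (ζ 1).re
  set y1 := (ζ 1).im
  have hRp := Rp_pos hM1
  have hrr := rr_pos hM1
  have hRe := Re'_pos hM1
  -- the trivial cases
  have htriv : (deriv chi (x0 / Rp M) = 0 ∨ eta y0 = 0 ∨ cc (x1 / rr M) = 0 ∨ eta y1 = 0) →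
      f0 M (ζ 0) * f1 M (ζ 1) = 0 ∧ q0 M (ζ 0) * v1 M (ζ 1) = 0 := by
    intro h
    unfold f0 f1 q0 v1
    rcases h with h | h | h | h
    · constructor <;> simp [x0] at h ⊢ <;> simp [h]
    · constructor <;> simp [y0] at h ⊢ <;> simp [h]
    · constructor <;> simp [x1] at h ⊢ <;> simp [h]
    · constructor <;> simp [y1] at h ⊢ <;> simp [h]
  by_cases h : deriv chi (x0 / Rp M) = 0 ∨ eta y0 = 0 ∨ cc (x1 / rr M) = 0 ∨ eta y1 = 0
  · obtain ⟨h1, h2⟩ := htriv h
    rw [h1, h2]; simp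
  · push Not at h
    obtain ⟨h1, h2, h3, h4⟩ := h
    have hx0 : 1 / 2 < x0 / Rp M ∧ x0 / Rp M < 1 := by
      constructor
      · by_contra hc; exact h1 (deriv_chi_zero (Or.inl (not_lt.1 hc)))
      · by_contra hc; exact h1 (deriv_chi_zero (Or.inr (not_lt.1 hc)))
    have hy0 : |y0| < 1 / 4 := by by_contra hc; exact h2 (eta_zero (not_lt.1 hc))
    have hx1 : |x1 / rr M| < 1 := by by_contra hc; exact h3 (cc_zero (not_lt.1 hc))
    have hy1 : |y1| < 1 / 4 := by by_contra hc; exact h4 (eta_zero (not_lt.1 hc))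
    have hx0p : 0 < x0 := by
      have := hx0.1
      rw [lt_div_iff₀ hRp] at this
      linarith [mul_pos (by norm_num : (0 : ℝ) < 1 / 2) hRp]
    have hx0u : x0 < Rp M := by
      have := hx0.2
      rwa [div_lt_one hRp] at this
    have hTT : TT (x0 / rr M) = 1 := TT_one (div_nonneg hx0p.le hrr.le)
    have hchi : chi (x0 / Re' M) = 1 := by
      apply chi_one
      rw [div_le_iff₀ hRe]
      linarith [Rp_le hM]
    have hx1' : |x1| < rr M := by
      rwa [abs_div, abs_of_pos hrr, div_lt_one hrr] at hx1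
    -- exponent
    have hprod : q0 M (ζ 0) * v1 M (ζ 1) * q2 τ (ζ 2) =
        ((1 / 2 * (deriv chi (x0 / Rp M) / Rp M) * eta y0 * (cc (x1 / rr M) * eta y1) *
          (BB (τ * (ζ 2).re) * eta (ζ 2).im) : ℝ) : ℂ) *
          Complex.exp ((kap M : ℂ) * (ζ 0 ^ 2 + ζ 1 ^ 2)) := by
      unfold q0 v1 q2
      change ((1 / 2 * (deriv chi (x0 / Rp M) / Rp M) *
        (TT (x0 / rr M) * chi (x0 / Re' M) * eta y0) : ℝ) : ℂ) * Complex.exp (kap M * ζ 0 ^ 2) *
        (((cc (x1 / rr M) * eta y1 : ℝ) : ℂ) * Complex.exp (kap M * ζ 1 ^ 2)) *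
        ((BB (τ * (ζ 2).re) * eta (ζ 2).im : ℝ) : ℂ) = _
      rw [hTT, hchi, mul_add, Complex.exp_add]
      push_cast
      ring
    rw [hprod, Complex.neg_re, Complex.re_ofReal_mul, Complex.exp_re]
    have hre : ((kap M : ℂ) * (ζ 0 ^ 2 + ζ 1 ^ 2)).re
        = (M : ℝ) ^ 2 * (x0 ^ 2 - y0 ^ 2 + (x1 ^ 2 - y1 ^ 2)) := by
      rw [Complex.re_ofReal_mul]
      simp only [kap, Complex.add_re, pow_two, Complex.mul_re, x0, x1, y0, y1]
    have him : ((kap M : ℂ) * (ζ 0 ^ 2 + ζ 1 ^ 2)).im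
        = 2 * ((M : ℝ) ^ 2 * x0) * y0 + 2 * ((M : ℝ) ^ 2 * x1) * y1 := by
      rw [Complex.im_ofReal_mul]
      simp only [kap, Complex.add_im, pow_two, Complex.mul_im, x0, x1, y0, y1]
      ring
    have hcos : 1 / 2 ≤ Real.cos ((kap M : ℂ) * (ζ 0 ^ 2 + ζ 1 ^ 2)).im := by
      have hb : |((kap M : ℂ) * (ζ 0 ^ 2 + ζ 1 ^ 2)).im| ≤ 1 := by
        rw [him]
        have e1 : |(M : ℝ) ^ 2 * x0| ≤ 1 / 16 := by
          rw [abs_of_pos (by positivity), ← Rp_eq hM1]
          exact mul_le_mul_of_nonneg_left hx0u.le (by positivity)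
        have e2 : |(M : ℝ) ^ 2 * x1| ≤ 1 / 16 := by
          rw [abs_mul, abs_of_pos (by positivity : (0 : ℝ) < (M : ℝ) ^ 2)]
          exact le_trans (mul_le_mul_of_nonneg_left hx1'.le (by positivity)) (rr_le hM1)
        calc _ ≤ |2 * ((M : ℝ) ^ 2 * x0) * y0| + |2 * ((M : ℝ) ^ 2 * x1) * y1| := abs_add_le _ _
          _ = 2 * |(M : ℝ) ^ 2 * x0| * |y0| + 2 * |(M : ℝ) ^ 2 * x1| * |y1| := by
            simp only [abs_mul, abs_two]
          _ ≤ 2 * (1 / 16) * (1 / 4) + 2 * (1 / 16) * (1 / 4) := by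
            gcongr
          _ ≤ 1 := by norm_num
      have := Real.cos_one_pos
      have h5 : Real.cos 1 ≤ Real.cos ((kap M : ℂ) * (ζ 0 ^ 2 + ζ 1 ^ 2)).im := by
        rw [← Real.cos_abs (((kap M : ℂ) * (ζ 0 ^ 2 + ζ 1 ^ 2)).im)]
        apply Real.cos_le_cos_of_nonneg_of_le_pi (abs_nonneg _) _ hb
        linarith [Real.pi_gt_three]
      have h6 : 1 / 2 ≤ Real.cos 1 := by
        have := Real.one_sub_sq_div_two_le_cos (x := 1)
        linarith
      linarith
    have hexp : Real.exp (-((M : ℝ) ^ 2 * y0 ^ 2)) * Real.exp (-((M : ℝ) ^ 2 * y1 ^ 2)) ≤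
        Real.exp ((kap M : ℂ) * (ζ 0 ^ 2 + ζ 1 ^ 2)).re := by
      rw [← Real.exp_add, hre]
      apply Real.exp_le_exp.2
      nlinarith [mul_nonneg (sq_nonneg (M : ℝ)) (sq_nonneg x0),
        mul_nonneg (sq_nonneg (M : ℝ)) (sq_nonneg x1)]
    have hmul : Real.exp (-((M : ℝ) ^ 2 * y0 ^ 2)) * Real.exp (-((M : ℝ) ^ 2 * y1 ^ 2)) * (1 / 2)
        ≤ Real.exp ((kap M : ℂ) * (ζ 0 ^ 2 + ζ 1 ^ 2)).re *
          Real.cos ((kap M : ℂ) * (ζ 0 ^ 2 + ζ 1 ^ 2)).im := by
      apply mul_le_mul hexp hcos (by norm_num) (Real.exp_pos _).le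
    have ha : 0 ≤ -(1 / 2 * (deriv chi (x0 / Rp M) / Rp M) * eta y0 * (cc (x1 / rr M) * eta y1) *
          (BB (τ * (ζ 2).re) * eta (ζ 2).im)) := by
      have g1 : 0 ≤ -(deriv chi (x0 / Rp M) / Rp M) := by
        rw [neg_nonneg]
        exact div_nonpos_of_nonpos_of_nonneg (deriv_chi_nonpos _) hRp.le
      have g2 := (eta_mem y0).1
      have g3 := (eta_mem y1).1
      have g4 := (cc_mem (x1 / rr M)).1
      have g5 := (BB_mem (τ * (ζ 2).re)).1
      have g6 := (eta_mem (ζ 2).im).1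
      have g7 : 0 ≤ 1 / 2 * -(deriv chi (x0 / Rp M) / Rp M) * eta y0 * (cc (x1 / rr M) * eta y1) *
          (BB (τ * (ζ 2).re) * eta (ζ 2).im) := by positivity
      linarith
    have hfin := mul_le_mul_of_nonneg_left hmul ha
    refine le_trans (le_of_eq ?_) (hfin.trans (le_of_eq ?_))
    · unfold f0 f1 f2
      ring
    · ring

theorem integrable_of_box {E : Type*} [NormedAddCommGroup E] {f : ℂ → E} (hf : Continuous f)
    {R : ℝ} (h : ∀ s : ℂ, (R < |s.re| ∨ R < |s.im|) → f s = 0) : Integrable f := by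
  apply hf.integrable_of_hasCompactSupport
  apply HasCompactSupport.intro (isCompact_closedBall (0 : ℂ) (2 * R))
  intro s hs
  apply h
  rw [Metric.mem_closedBall, dist_zero_right, not_le] at hs
  have := Complex.norm_le_abs_re_add_abs_im s
  by_contra hc
  push Not at hc
  linarith [hc.1, hc.2]

theorem integrable_of_box_real {f : ℝ → ℝ} (hf : Continuous f)
    {R : ℝ} (h : ∀ s : ℝ, R < |s| → f s = 0) : Integrable f := by
  apply hf.integrable_of_hasCompactSupport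
  apply HasCompactSupport.intro (isCompact_closedBall (0 : ℝ) R)
  intro s hs
  apply h
  rwa [Metric.mem_closedBall, dist_zero_right, not_le, Real.norm_eq_abs] at hs

theorem integral_complex_mul (g k : ℝ → ℝ) :
    ∫ s : ℂ, g s.re * k s.im = (∫ x, g x) * ∫ y, k y := by
  rw [← integral_prod_mul, ← Measure.volume_eq_prod,
    ← Complex.volume_preserving_equiv_real_prod.integral_comp
      Complex.measurableEquivRealProd.measurableEmbedding]
  rfl

theorem le_integral_of_Icc {g : ℝ → ℝ} (hg : Integrable g) (h0 : ∀ x, 0 ≤ g x) {c a b : ℝ}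
    (hab : a ≤ b) (h : ∀ x ∈ Set.Icc a b, c ≤ g x) : c * (b - a) ≤ ∫ x, g x := by
  have h1 : ∫ x in Set.Icc a b, c ≤ ∫ x in Set.Icc a b, g x := by
    apply setIntegral_mono_on (integrableOn_const (by simp)) hg.integrableOn measurableSet_Icc h
  have h2 : ∫ x in Set.Icc a b, g x ≤ ∫ x, g x :=
    setIntegral_le_integral hg (Filter.Eventually.of_forall h0)
  refine le_trans (le_of_eq ?_) (h1.trans h2)
  rw [setIntegral_const, Measure.real, Real.volume_Icc, ENNReal.toReal_ofReal (by linarith),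
    smul_eq_mul, mul_comm]

theorem deriv_chi_eq_zero_of {M : ℕ} (hM : 1 ≤ M) {x : ℝ} (h : Rp M < |x|) :
    deriv chi (x / Rp M) = 0 := by
  have hRp := Rp_pos hM
  apply deriv_chi_zero
  rcases lt_abs.1 h with h | h
  · right; rw [one_le_div hRp]; exact h.le
  · left
    rw [div_le_iff₀ hRp]; linarith

theorem cc_eq_zero_of {M : ℕ} (hM : 1 ≤ M) {x : ℝ} (h : rr M < |x|) :
    cc (x / rr M) = 0 := by
  have hr := rr_pos hM
  apply cc_zero
  rw [abs_div, abs_of_pos hr, one_le_div hr]; exact h.le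

theorem BB_eq_zero_of {τ : ℝ} (hτ : 0 < τ) {x : ℝ} (h : 5 / τ < |x|) : BB (τ * x) = 0 := by
  apply BB_zero
  rw [div_lt_iff₀ hτ] at h
  rcases le_or_gt 0 x with h0 | h0
  · right; rw [abs_of_nonneg h0] at h; linarith
  · left; have := mul_neg_of_pos_of_neg hτ h0; linarith

theorem Qc_integrable {M : ℕ} (hM : 1 ≤ M) {τ : ℝ} (hτ : 0 < τ) (i : Fin 3) :
    Integrable (Qc M τ i) := by
  have c1 := chi_contDiff.continuous
  have c2 := TT_contDiff.continuous
  have c3 := cc_contDiff.continuous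
  have c4 := eta_contDiff.continuous
  have c5 := BB_contDiff.continuous
  have c6 := deriv_chi_continuous
  fin_cases i
  · change Integrable (q0 M)
    apply integrable_of_box (R := Rp M + 1 / 4)
    · unfold q0; fun_prop
    · have hRp := Rp_pos hM
      rintro s (h | h)
      · have := deriv_chi_eq_zero_of hM (x := s.re) (by linarith)
        simp [q0, this]
      · have := eta_zero (s := s.im) (by linarith)
        simp [q0, this]
  · change Integrable (v1 M)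
    apply integrable_of_box (R := rr M + 1 / 4)
    · unfold v1; fun_prop
    · have hRp := rr_pos hM
      rintro s (h | h)
      · have := cc_eq_zero_of hM (x := s.re) (by linarith)
        simp [v1, this]
      · have := eta_zero (s := s.im) (by linarith)
        simp [v1, this]
  · change Integrable (q2 τ)
    apply integrable_of_box (R := 5 / τ + 1 / 4)
    · unfold q2; fun_prop
    · have : 0 < 5 / τ := by positivity
      rintro s (h | h)
      · have := BB_eq_zero_of hτ (x := s.re) (by linarith)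
        simp [q2, this]
      · have := eta_zero (s := s.im) (by linarith)
        simp [q2, this]

theorem Qr_integrable {M : ℕ} (hM : 1 ≤ M) {τ : ℝ} (hτ : 0 < τ) (i : Fin 3) :
    Integrable (Qr M τ i) := by
  have c1 := chi_contDiff.continuous
  have c2 := TT_contDiff.continuous
  have c3 := cc_contDiff.continuous
  have c4 := eta_contDiff.continuous
  have c5 := BB_contDiff.continuous
  have c6 := deriv_chi_continuous
  fin_cases i
  · change Integrable (f0 M)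
    apply integrable_of_box (R := Rp M + 1 / 4)
    · unfold f0; fun_prop
    · have hRp := Rp_pos hM
      rintro s (h | h)
      · have := deriv_chi_eq_zero_of hM (x := s.re) (by linarith)
        simp [f0, this]
      · have := eta_zero (s := s.im) (by linarith)
        simp [f0, this]
  · change Integrable (f1 M)
    apply integrable_of_box (R := rr M + 1 / 4)
    · unfold f1; fun_prop
    · have hRp := rr_pos hM
      rintro s (h | h)
      · have := cc_eq_zero_of hM (x := s.re) (by linarith)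
        simp [f1, this]
      · have := eta_zero (s := s.im) (by linarith)
        simp [f1, this]
  · change Integrable (f2 τ)
    apply integrable_of_box (R := 5 / τ + 1 / 4)
    · unfold f2; fun_prop
    · have : 0 < 5 / τ := by positivity
      rintro s (h | h)
      · have := BB_eq_zero_of hτ (x := s.re) (by linarith)
        simp [f2, this]
      · have := eta_zero (s := s.im) (by linarith)
        simp [f2, this]

theorem integral_deriv_chi {M : ℕ} (hM : 1 ≤ M) : ∫ x : ℝ, -(deriv chi (x / Rp M) / Rp M) = 1 := by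
  have hRp := Rp_pos hM
  have h1 : ∀ x : ℝ, HasDerivAt (fun x => -chi (x / Rp M)) (-(deriv chi (x / Rp M) / Rp M)) x := by
    intro x
    have hd : HasDerivAt chi (deriv chi (x / Rp M)) (x / Rp M) :=
      (chi_contDiff.differentiable (by simp) _).hasDerivAt
    have h3 := (hd.comp x ((hasDerivAt_id x).div_const (Rp M))).neg
    exact h3.congr_deriv (by rw [mul_one_div])
  have hint : Integrable (fun x : ℝ => -(deriv chi (x / Rp M) / Rp M)) := by
    have c6 := deriv_chi_continuous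
    apply integrable_of_box_real (R := Rp M)
    · fun_prop
    · intro x hx
      rw [deriv_chi_eq_zero_of hM hx]; simp
  have h2 := integral_of_hasDerivAt_of_tendsto h1 hint (m := -1) (n := 0) ?_ ?_
  · rw [h2]; norm_num
  · apply tendsto_const_nhds.congr'
    filter_upwards [Filter.eventually_le_atBot (0 : ℝ)] with x hx
    rw [chi_one]
    have : x / Rp M ≤ 0 := div_nonpos_of_nonpos_of_nonneg hx hRp.le
    linarith
  · apply tendsto_const_nhds.congr'
    filter_upwards [Filter.eventually_ge_atTop (Rp M)] with x hx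
    rw [chi_zero, neg_zero]
    rwa [one_le_div hRp]

theorem integral_J {M : ℕ} (hM : 1 ≤ M) :
    1 / (8 * (M : ℝ)) ≤ ∫ y : ℝ, eta y * Real.exp (-((M : ℝ) ^ 2 * y ^ 2)) := by
  have h0 : (0 : ℝ) < M := by exact_mod_cast hM
  have h1 : (1 : ℝ) ≤ M := by exact_mod_cast hM
  have c4 := eta_contDiff.continuous
  have h2 := le_integral_of_Icc (g := fun y : ℝ => eta y * Real.exp (-((M : ℝ) ^ 2 * y ^ 2)))
    (c := 1 / 2) (a := -(1 / (8 * (M : ℝ)))) (b := 1 / (8 * (M : ℝ))) ?_ ?_ ?_ ?_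
  · refine le_trans (le_of_eq ?_) h2
    ring
  · apply integrable_of_box_real (R := 1 / 4)
    · fun_prop
    · intro x hx
      rw [eta_zero hx.le, zero_mul]
  · intro x
    exact mul_nonneg (eta_mem x).1 (Real.exp_pos _).le
  · have : 0 < 1 / (8 * (M : ℝ)) := by positivity
    linarith
  · intro x hx
    have hx' : |x| ≤ 1 / (8 * (M : ℝ)) := abs_le.2 ⟨by linarith [hx.1], hx.2⟩
    have h3 : |x| ≤ 1 / 8 := by
      refine hx'.trans ?_
      apply one_div_le_one_div_of_le (by norm_num)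
      linarith
    rw [eta_one h3, one_mul]
    have h4 : (M : ℝ) * |x| ≤ 1 / 8 := by
      calc (M : ℝ) * |x| ≤ M * (1 / (8 * (M : ℝ))) := mul_le_mul_of_nonneg_left hx' h0.le
        _ = 1 / 8 := by field_simp
    have h5 : (M : ℝ) ^ 2 * x ^ 2 ≤ 1 / 64 := by
      rw [← sq_abs x, ← mul_pow]
      calc ((M : ℝ) * |x|) ^ 2 ≤ (1 / 8) ^ 2 := by
            apply pow_le_pow_left₀ (by positivity) h4
        _ = 1 / 64 := by norm_num
    have h6 := Real.add_one_le_exp (-((M : ℝ) ^ 2 * x ^ 2))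
    linarith

theorem integral_cc {M : ℕ} (hM : 1 ≤ M) : rr M ≤ ∫ x : ℝ, cc (x / rr M) := by
  have hr := rr_pos hM
  have c4 := cc_contDiff.continuous
  have h2 := le_integral_of_Icc (g := fun x : ℝ => cc (x / rr M))
    (c := 1) (a := -(rr M / 2)) (b := rr M / 2) ?_ ?_ ?_ ?_
  · linarith
  · apply integrable_of_box_real (R := rr M)
    · fun_prop
    · intro x hx
      exact cc_eq_zero_of hM hx
  · intro x
    exact (cc_mem _).1
  · linarith
  · intro x hx
    rw [cc_one]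
    rw [abs_div, abs_of_pos hr, div_le_iff₀ hr]
    have : |x| ≤ rr M / 2 := abs_le.2 ⟨by linarith [hx.1], hx.2⟩
    linarith

theorem integral_BB {τ : ℝ} (hτ : 0 < τ) : 1 / (2 * τ) ≤ ∫ x : ℝ, BB (τ * x) := by
  have c4 := BB_contDiff.continuous
  have h2 := le_integral_of_Icc (g := fun x : ℝ => BB (τ * x))
    (c := 1) (a := 17 / 4 / τ) (b := 19 / 4 / τ) ?_ ?_ ?_ ?_
  · refine le_trans (le_of_eq ?_) h2
    field_simp; norm_num
  · apply integrable_of_box_real (R := 5 / τ)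
    · fun_prop
    · intro x hx
      exact BB_eq_zero_of hτ hx
  · intro x
    exact (BB_mem _).1
  · gcongr; norm_num
  · intro x hx
    rw [BB_one]
    · have := hx.1
      rw [div_le_iff₀ hτ] at this; linarith
    · have := hx.2
      rw [le_div_iff₀ hτ] at this; linarith

theorem integral_eta : 1 / 4 ≤ ∫ x : ℝ, eta x := by
  have c4 := eta_contDiff.continuous
  have h2 := le_integral_of_Icc (g := fun x : ℝ => eta x)
    (c := 1) (a := -(1 / 8)) (b := 1 / 8) ?_ ?_ ?_ ?_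
  · linarith
  · apply integrable_of_box_real (R := 1 / 4)
    · fun_prop
    · intro x hx
      exact eta_zero hx.le
  · intro x
    exact (eta_mem _).1
  · norm_num
  · intro x hx
    rw [eta_one]
    exact abs_le.2 ⟨by linarith [hx.1], hx.2⟩

end Q1

theorem pairing_lower : ∃ c : ℝ, 0 < c ∧ ∀ M : ℕ, 2 ≤ M → ∀ τ : ℝ, 0 < τ →
    c * (rr M / τ / (M : ℝ) ^ 2) ≤ (-∫ ζ : Fin 3 → ℂ, Fb M τ ζ * Vb M τ ζ).re := by
  refine ⟨1 / 2048, by norm_num, fun M hM τ hτ => ?_⟩
  have hM1 : 1 ≤ M := by omega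
  have h0 : (0 : ℝ) < M := by exact_mod_cast hM1
  have hr := Q1.rr_pos hM1
  have hI : Integrable (fun ζ : Fin 3 → ℂ => ∏ i, Q1.Qc M τ i (ζ i)) := by
    exact Integrable.fintype_prod_dep (Q1.Qc_integrable hM1 hτ)
  have hIr : Integrable (fun ζ : Fin 3 → ℂ => ∏ i, Q1.Qr M τ i (ζ i)) := by
    exact Integrable.fintype_prod_dep (Q1.Qr_integrable hM1 hτ)
  have h1 : (-∫ ζ : Fin 3 → ℂ, Fb M τ ζ * Vb M τ ζ).re
      = ∫ ζ : Fin 3 → ℂ, (-∏ i, Q1.Qc M τ i (ζ i)).re := by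
    simp only [Q1.Fb_Vb]
    rw [← integral_neg]
    exact (integral_re hI.neg).symm
  have h2 : ∫ ζ : Fin 3 → ℂ, 1 / 4 * ∏ i, Q1.Qr M τ i (ζ i) ≤
      ∫ ζ : Fin 3 → ℂ, (-∏ i, Q1.Qc M τ i (ζ i)).re := by
    apply integral_mono (hIr.const_mul _)
    · exact hI.neg.re
    · intro ζ
      exact Q1.pointwise hM τ ζ
  have h3 : ∫ ζ : Fin 3 → ℂ, 1 / 4 * ∏ i, Q1.Qr M τ i (ζ i) = 1 / 4 *
      ((∫ y : ℝ, eta y * Real.exp (-((M : ℝ) ^ 2 * y ^ 2))) *
      ((∫ x : ℝ, cc (x / rr M)) * ∫ y : ℝ, eta y * Real.exp (-((M : ℝ) ^ 2 * y ^ 2))) *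
      ((∫ x : ℝ, BB (τ * x)) * ∫ x : ℝ, eta x)) := by
    rw [integral_const_mul, integral_fintype_prod_volume_eq_prod, Fin.prod_univ_three]
    have e0 : ∫ s : ℂ, Q1.Qr M τ 0 s = ∫ y : ℝ, eta y * Real.exp (-((M : ℝ) ^ 2 * y ^ 2)) := by
      change ∫ s : ℂ, -(deriv chi (s.re / Rp M) / Rp M) *
        (eta s.im * Real.exp (-((M : ℝ) ^ 2 * s.im ^ 2))) = _
      rw [Q1.integral_complex_mul (fun x => -(deriv chi (x / Rp M) / Rp M))
        (fun y => eta y * Real.exp (-((M : ℝ) ^ 2 * y ^ 2))), Q1.integral_deriv_chi hM1, one_mul]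
    have e1 : ∫ s : ℂ, Q1.Qr M τ 1 s = (∫ x : ℝ, cc (x / rr M)) *
        ∫ y : ℝ, eta y * Real.exp (-((M : ℝ) ^ 2 * y ^ 2)) :=
      Q1.integral_complex_mul (fun x => cc (x / rr M))
        (fun y => eta y * Real.exp (-((M : ℝ) ^ 2 * y ^ 2)))
    have e2 : ∫ s : ℂ, Q1.Qr M τ 2 s = (∫ x : ℝ, BB (τ * x)) * ∫ x : ℝ, eta x :=
      Q1.integral_complex_mul (fun x => BB (τ * x)) eta
    rw [e0, e1, e2]
  rw [h1]
  refine le_trans ?_ h2
  rw [h3]
  have hJ := Q1.integral_J hM1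
  have hC := Q1.integral_cc hM1
  have hB := Q1.integral_BB hτ
  have hE := Q1.integral_eta
  have hJ0 : 0 < 1 / (8 * (M : ℝ)) := by positivity
  have hB0 : 0 < 1 / (2 * τ) := by positivity
  generalize (∫ y : ℝ, eta y * Real.exp (-((M : ℝ) ^ 2 * y ^ 2))) = J at *
  generalize (∫ x : ℝ, cc (x / rr M)) = I1 at *
  generalize (∫ x : ℝ, BB (τ * x)) = I2 at *
  generalize (∫ x : ℝ, eta x) = I3 at *
  have hJp : 0 < J := hJ0.trans_le hJ
  have hCp : 0 < I1 := hr.trans_le hC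
  have hBp : 0 < I2 := hB0.trans_le hB
  calc 1 / 2048 * (rr M / τ / (M : ℝ) ^ 2)
      = 1 / 4 * (1 / (8 * (M : ℝ)) * (rr M * (1 / (8 * (M : ℝ)))) * (1 / (2 * τ) * (1 / 4))) := by
        field_simp; norm_num
    _ ≤ _ := by gcongr

end Pool.Agent.Helper3.DB
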