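import Pool.Agent.Helper3.DB.L1

open MeasureTheory
open scoped ContDiff NNReal ENNReal

namespace Pool.Agent.Helper3.DB

namespace Q2aux

theorem sq_one {w : ℂ} (hw : ‖w‖ = 1) : (w.re : ℂ) * (w.re : ℂ) + (w.im : ℂ) * (w.im : ℂ) = 1 := by
  have h1 : Complex.normSq w = 1 := by
    rw [Complex.normSq_eq_norm_sq, hw]; norm_num
  rw [Complex.normSq_apply] at h1
  exact_mod_cast h1

theorem LL_injective {w : ℂ} (hw : ‖w‖ = 1) (A : ℝ) : Function.Injective (LL w A) := by
  intro z z' h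
  have hs := sq_one hw
  have h0 : (w.re : ℂ) * z 0 + (w.im : ℂ) * z 1 = (w.re : ℂ) * z' 0 + (w.im : ℂ) * z' 1 := by
    simpa [LL] using congrFun h 0
  have h1 : -(w.im : ℂ) * z 0 + (w.re : ℂ) * z 1 = -(w.im : ℂ) * z' 0 + (w.re : ℂ) * z' 1 := by
    simpa [LL] using congrFun h 1
  have h2 : z 2 - (A : ℂ) * ((w.re : ℂ) * z 0 + (w.im : ℂ) * z 1) =
      z' 2 - (A : ℂ) * ((w.re : ℂ) * z' 0 + (w.im : ℂ) * z' 1) := by
    simpa [LL] using congrFun h 2
  funext i
  fin_cases i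
  · show z 0 = z' 0
    linear_combination (w.re : ℂ) * h0 - (w.im : ℂ) * h1 - (z 0 - z' 0) * hs
  · show z 1 = z' 1
    linear_combination (w.im : ℂ) * h0 + (w.re : ℂ) * h1 - (z 1 - z' 1) * hs
  · show z 2 = z' 2
    linear_combination h2 + (A : ℂ) * h0

theorem LL_continuous (w : ℂ) (A : ℝ) : Continuous (LL w A) := by
  refine continuous_pi fun i => ?_
  fin_cases i
  · simp only [LL]
    show Continuous fun a : Fin 3 → ℂ => (w.re : ℂ) * a 0 + (w.im : ℂ) * a 1
    fun_prop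
  · show Continuous fun a : Fin 3 → ℂ => -(w.im : ℂ) * a 0 + (w.re : ℂ) * a 1
    fun_prop
  · show Continuous fun a : Fin 3 → ℂ => a 2 - (A : ℂ) * ((w.re : ℂ) * a 0 + (w.im : ℂ) * a 1)
    fun_prop

end Q2aux

theorem pairing_transfer {ψ : ℂ → ℝ} {M : ℕ} {A : ℝ} {w : ℂ} (hw : ‖w‖ = 1)
    (ht : ∀ j, IsTest (Dom ψ) (fun z => vec w A j * Vb M (tau M A) (LL w A z))) :
    ∫ z in Dom ψ, ∑ j, (cov w j * Fb M (tau M A) (LL w A z)) *
        (vec w A j * Vb M (tau M A) (LL w A z)) =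
      ∫ ζ : Fin 3 → ℂ, Fb M (tau M A) ζ * Vb M (tau M A) ζ := by
  have hs := Q2aux.sq_one hw
  -- the integrand
  have hsum : ∀ z : Fin 3 → ℂ, ∑ j, (cov w j * Fb M (tau M A) (LL w A z)) *
        (vec w A j * Vb M (tau M A) (LL w A z)) =
      Fb M (tau M A) (LL w A z) * Vb M (tau M A) (LL w A z) := by
    intro z
    rw [Fin.sum_univ_three]
    simp only [cov, vec, Matrix.cons_val_zero, Matrix.cons_val_one, Matrix.cons_val]
    linear_combination (Fb M (tau M A) (LL w A z) * Vb M (tau M A) (LL w A z)) * hs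
  -- vanishing outside of the domain
  have hzero : ∀ z : Fin 3 → ℂ, z ∉ Dom ψ → Vb M (tau M A) (LL w A z) = 0 := by
    intro z hz
    have hj : ∀ j, vec w A j * Vb M (tau M A) (LL w A z) = 0 := by
      intro j
      have h := (ht j).2.2
      have h' : z ∉ tsupport (fun z => vec w A j * Vb M (tau M A) (LL w A z)) :=
        fun hmem => hz (h hmem)
      exact image_eq_zero_of_notMem_tsupport
        (f := fun z => vec w A j * Vb M (tau M A) (LL w A z)) h'
    have h0 : (w.re : ℂ) * Vb M (tau M A) (LL w A z) = 0 := by simpa [vec] using hj 0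
    have h1 : (w.im : ℂ) * Vb M (tau M A) (LL w A z) = 0 := by simpa [vec] using hj 1
    linear_combination (w.re : ℂ) * h0 + (w.im : ℂ) * h1 - (Vb M (tau M A) (LL w A z)) * hs
  simp_rw [hsum]
  rw [setIntegral_eq_integral_of_forall_compl_eq_zero
    (fun z hz => by rw [hzero z hz, mul_zero])]
  exact (LL_measurePreserving hw A).integral_comp
    ((Q2aux.LL_continuous w A).measurableEmbedding (Q2aux.LL_injective hw A))
    (fun ζ => Fb M (tau M A) ζ * Vb M (tau M A) ζ)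

end Pool.Agent.Helper3.DB
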