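import Pool.Agent.Helper3.DB.Defs
import Pool.Agent.Helper3.DB.B2
import Pool.Agent.Helper3.DB.B3
import Pool.Agent.Helper3.DB.D2
import Pool.Agent.Helper3.DB.L2

open MeasureTheory
open scoped ContDiff NNReal ENNReal

namespace Pool.Agent.Helper3.DB

namespace T1

lemma rr_pos {M : ℕ} (hM : 16 ≤ M) : 0 < rr M := by
  have : (0 : ℝ) < M := by exact_mod_cast (by omega : 0 < M)
  unfold rr; positivity

lemma rr_le {M : ℕ} (hM : 16 ≤ M) : rr M ≤ Re' M := by
  have h0 : (16 : ℝ) ≤ M := by exact_mod_cast hM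
  unfold rr Re'
  apply one_div_le_one_div_of_le (by positivity)
  have : (M : ℝ) ≤ (M : ℝ) ^ 162 := le_self_pow₀ (by linarith) (by norm_num)
  nlinarith

lemma Re'_le {M : ℕ} (hM : 16 ≤ M) : Re' M ≤ 1 / 32 := by
  have h0 : (16 : ℝ) ≤ M := by exact_mod_cast hM
  unfold Re'
  apply one_div_le_one_div_of_le (by norm_num)
  linarith

lemma four_div_tau (M : ℕ) (A : ℝ) (c : ℝ) : c / tau M A = c * (rr M * A) := by
  unfold tau
  rw [div_div_eq_mul_div, div_one]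

lemma S1_closed (M : ℕ) (τ : ℝ) : IsClosed (S1 M τ) := by
  unfold S1
  have c : ∀ j : Fin 3, Continuous fun ζ : Fin 3 → ℂ => (ζ j).re :=
    fun j => Complex.continuous_re.comp (continuous_apply j)
  have d : ∀ j : Fin 3, Continuous fun ζ : Fin 3 → ℂ => |(ζ j).im| :=
    fun j => (Complex.continuous_im.comp (continuous_apply j)).abs
  refine (isClosed_le continuous_const (c 0)).inter ((isClosed_le (c 0) continuous_const).inter
    ((isClosed_le (c 1).abs continuous_const).inter ((isClosed_le continuous_const (c 2)).inter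
    ((isClosed_le (c 2) continuous_const).inter ?_))))
  have : {ζ : Fin 3 → ℂ | ∀ j, |(ζ j).im| ≤ 1 / 4} = ⋂ j, {ζ : Fin 3 → ℂ | |(ζ j).im| ≤ 1 / 4} := by
    ext ζ; simp
  show IsClosed {ζ : Fin 3 → ℂ | ∀ j, |(ζ j).im| ≤ 1 / 4}
  rw [this]
  exact isClosed_iInter fun j => isClosed_le (d j) continuous_const

/-- the quantitative facts on the support -/
lemma facts {M : ℕ} (hM : 16 ≤ M) {A : ℝ} (hA : 0 < A) (hA1 : A ≤ 1) {w : ℂ} (hw : ‖w‖ = 1)
    {z : Fin 3 → ℂ} (hz : LL w A z ∈ S1 M (tau M A)) :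
    ‖XX z‖ ≤ 1 / (M : ℝ) ∧ A * ‖XX z‖ < (z 2).re ∧ ∑ j, ‖z j‖ ^ 2 ≤ 1 := by
  have hr := rr_pos hM
  have hrR := rr_le hM
  have hR := Re'_le hM
  have h0 : (16 : ℝ) ≤ M := by exact_mod_cast hM
  have hRM : Re' M + Re' M = 1 / (M : ℝ) := by unfold Re'; field_simp; norm_num
  have hw2 : w.re ^ 2 + w.im ^ 2 = 1 := by
    have := Complex.sq_norm w
    rw [hw, Complex.normSq_apply] at this
    nlinarith
  obtain ⟨b1, b2, b3, b4, b5, b6⟩ := hz
  have c0 := b6 0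
  have c1 := b6 1
  have c2 := b6 2
  rw [four_div_tau] at b4 b5
  simp only [LL, Matrix.cons_val_zero, Matrix.cons_val_one, Matrix.cons_val_two,
    Matrix.head_cons, Matrix.tail_cons, Complex.add_re, Complex.add_im, Complex.sub_re,
    Complex.sub_im, Complex.mul_re, Complex.mul_im, Complex.neg_re, Complex.neg_im,
    Complex.ofReal_re, Complex.ofReal_im, zero_mul, sub_zero, add_zero, neg_zero,
    Matrix.cons_val] at b1 b2 b3 b4 b5 c0 c1 c2
  set a := w.re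
  set b := w.im
  set x0 := (z 0).re
  set y0 := (z 0).im
  set x1 := (z 1).re
  set y1 := (z 1).im
  set x2 := (z 2).re
  set y2 := (z 2).im
  have hXX : ‖XX z‖ ^ 2 = x0 ^ 2 + x1 ^ 2 := by
    rw [Complex.sq_norm, Complex.normSq_apply]
    simp [XX]
    ring
  -- the rotated coordinates
  obtain ⟨s, hs⟩ : ∃ s, s = a * x0 + b * x1 := ⟨_, rfl⟩
  obtain ⟨t, ht⟩ : ∃ t, t = -b * x0 + a * x1 := ⟨_, rfl⟩
  have hst : ‖XX z‖ ^ 2 = s ^ 2 + t ^ 2 := by
    rw [hXX, hs, ht]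
    linear_combination (-(x0 ^ 2 + x1 ^ 2)) * hw2
  have hle : ‖XX z‖ ≤ |s| + |t| := by
    apply abs_le_of_sq_le_sq' _ (by positivity) |>.2
    rw [hst]
    nlinarith [abs_nonneg s, abs_nonneg t, sq_abs s, sq_abs t, mul_nonneg (abs_nonneg s) (abs_nonneg t)]
  rw [← hs] at b1 b2 b4 b5
  rw [← ht] at b3
  have hsabs : |s| ≤ Re' M := abs_le.2 ⟨by linarith, b2⟩
  have hAs : |A * s| ≤ 1 / 32 := by
    rw [abs_mul, abs_of_pos hA]
    calc A * |s| ≤ 1 * (1 / 32) := mul_le_mul hA1 (by linarith) (abs_nonneg _) zero_le_one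
      _ = 1 / 32 := one_mul _
  have hrA : rr M * A ≤ 1 / 32 := by
    calc rr M * A ≤ 1 / 32 * 1 := mul_le_mul (by linarith) hA1 hA.le (by norm_num)
      _ = 1 / 32 := mul_one _
  have hrA0 : 0 < rr M * A := mul_pos hr hA
  refine ⟨by linarith, ?_, ?_⟩
  · have h1 : ‖XX z‖ < s + 4 * rr M := by
      rcases le_or_gt 0 s with h | h
      · rw [abs_of_nonneg h] at hle; linarith
      · rw [abs_of_neg h] at hle; linarith
    have h2 : A * ‖XX z‖ < A * (s + 4 * rr M) := mul_lt_mul_of_pos_left h1 hA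
    linarith
  · -- bounds
    have n0 : ‖z 0‖ ^ 2 = x0 ^ 2 + y0 ^ 2 := by
      rw [Complex.sq_norm, Complex.normSq_apply]; ring
    have n1 : ‖z 1‖ ^ 2 = x1 ^ 2 + y1 ^ 2 := by
      rw [Complex.sq_norm, Complex.normSq_apply]; ring
    have n2 : ‖z 2‖ ^ 2 = x2 ^ 2 + y2 ^ 2 := by
      rw [Complex.sq_norm, Complex.normSq_apply]; ring
    obtain ⟨p, hp⟩ : ∃ p, p = a * y0 + b * y1 := ⟨_, rfl⟩
    obtain ⟨q, hq⟩ : ∃ q, q = -b * y0 + a * y1 := ⟨_, rfl⟩
    rw [← hp] at c0 c2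
    rw [← hq] at c1
    have e1 : x0 ^ 2 + x1 ^ 2 = s ^ 2 + t ^ 2 := by
      rw [hs, ht]
      linear_combination (-(x0 ^ 2 + x1 ^ 2)) * hw2
    have e2 : y0 ^ 2 + y1 ^ 2 = p ^ 2 + q ^ 2 := by
      rw [hp, hq]
      linear_combination (-(y0 ^ 2 + y1 ^ 2)) * hw2
    have s1 : s ^ 2 ≤ (1 / 32) ^ 2 := by
      rw [sq_le_sq, abs_of_pos (by norm_num : (0 : ℝ) < 1 / 32)]; linarith
    have s2 : t ^ 2 ≤ (1 / 32) ^ 2 := by
      rw [sq_le_sq, abs_of_pos (by norm_num : (0 : ℝ) < 1 / 32)]; linarith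
    have s3 : p ^ 2 ≤ (1 / 4) ^ 2 := by
      rw [sq_le_sq, abs_of_pos (by norm_num : (0 : ℝ) < 1 / 4)]; exact c0
    have s4 : q ^ 2 ≤ (1 / 4) ^ 2 := by
      rw [sq_le_sq, abs_of_pos (by norm_num : (0 : ℝ) < 1 / 4)]; exact c1
    have s5 : x2 ^ 2 ≤ (1 / 4) ^ 2 := by
      rw [sq_le_sq, abs_of_pos (by norm_num : (0 : ℝ) < 1 / 4), abs_le]
      have := abs_le.1 hAs
      constructor <;> linarith
    have s6 : y2 ^ 2 ≤ (1 / 2) ^ 2 := by
      rw [sq_le_sq, abs_of_pos (by norm_num : (0 : ℝ) < 1 / 2), abs_le]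
      have h1 := abs_le.1 c2
      have h2 : |A * p| ≤ 1 / 4 := by
        rw [abs_mul, abs_of_pos hA]
        calc A * |p| ≤ 1 * (1 / 4) := mul_le_mul hA1 c0 (abs_nonneg _) zero_le_one
          _ = 1 / 4 := one_mul _
      have h3 := abs_le.1 h2
      constructor <;> linarith
    rw [Fin.sum_univ_three, n0, n1, n2]
    norm_num at s1 s2 s3 s4 s5 s6
    linarith

end T1

open T1

theorem isTest_V {ψ : ℂ → ℝ} {M : ℕ} (hM : 16 ≤ M) {A : ℝ} (hA : 0 < A) (hA1 : A ≤ 1)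
    (hup : ∀ x : ℂ, ‖x‖ ≤ 1 / (M : ℝ) → ψ x ≤ A * ‖x‖) {w : ℂ} (hw : ‖w‖ = 1) (j : Fin 3) :
    IsTest (Dom ψ) (fun z => vec w A j * Vb M (tau M A) (LL w A z)) := by
  have hr := rr_pos hM
  have hτ : 0 < tau M A := by unfold tau; positivity
  have hclosed : IsClosed {z | LL w A z ∈ S1 M (tau M A)} :=
    (S1_closed M (tau M A)).preimage (LL_contDiff w A).continuous
  have hsub : ∀ z, LL w A z ∈ S1 M (tau M A) → ∀ j, ‖z j‖ ≤ 1 := by
    intro z hz j
    have h3 := (facts hM hA hA1 hw hz).2.2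
    have h4 : ‖z j‖ ^ 2 ≤ 1 := le_trans
      (Finset.single_le_sum (f := fun j => ‖z j‖ ^ 2) (fun i _ => sq_nonneg _) (Finset.mem_univ j)) h3
    nlinarith [norm_nonneg (z j)]
  have hcomp : IsCompact {z | LL w A z ∈ S1 M (tau M A)} := by
    apply Metric.isCompact_of_isClosed_isBounded hclosed
    apply (Metric.isBounded_closedBall (x := (0 : Fin 3 → ℂ)) (r := 1)).subset
    intro z hz
    rw [mem_closedBall_zero_iff, pi_norm_le_iff_of_nonneg zero_le_one]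
    exact hsub z hz
  have hts : tsupport (fun z => vec w A j * Vb M (tau M A) (LL w A z)) ⊆
      {z | LL w A z ∈ S1 M (tau M A)} := by
    apply closure_minimal _ hclosed
    intro z hz
    by_contra hcon
    apply hz
    have := (Vb_supp (by omega : 1 ≤ M) hτ (ζ := LL w A z) hcon).1
    simp [this]
  refine ⟨contDiff_const.mul ((Vb_contDiff M (tau M A)).comp (LL_contDiff w A)), ?_, ?_⟩
  · exact hcomp.of_isClosed_subset (isClosed_tsupport _) hts
  · intro z hz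
    obtain ⟨h1, h2, h3⟩ := facts hM hA hA1 hw (hts hz)
    exact mem_dom (lt_of_le_of_lt (hup _ h1) h2) h3

end Pool.Agent.Helper3.DB
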