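import Pool.Agent.Helper3.DB.Defs

open Filter Topology

namespace Pool.Agent.Helper3.DB

private theorem z_key {M : ℕ} (hM : 1 ≤ M) {a t : ℝ} (ha : 0 < a) (ha' : a ≤ 1 / 32) (ht : 0 < t) :
    t ^ a * (48 * rr M ^ 2 * t) ^ (1 - a) ≤ 768 * (M : ℝ) ^ 11 * rr M ^ 2 * t := by
  have hM' : (1 : ℝ) ≤ M := by exact_mod_cast hM
  set X : ℝ := 16 * (M : ℝ) ^ 162 with hX
  have hX1 : 1 ≤ X := by
    have : (1 : ℝ) ≤ (M : ℝ) ^ 162 := one_le_pow₀ hM'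
    rw [hX]; linarith
  have hr : rr M = X⁻¹ := by rw [rr, hX, one_div]
  have hr0 : 0 < rr M := by rw [hr]; positivity
  have h1 : (48 * rr M ^ 2 * t) ^ (1 - a) = (48 * rr M ^ 2) * (48 * rr M ^ 2) ^ (-a) *
      t ^ (1 - a) := by
    rw [Real.mul_rpow (by positivity) ht.le, sub_eq_add_neg,
      Real.rpow_add (by positivity) 1 (-a), Real.rpow_one]
  have h2 : t ^ a * t ^ (1 - a) = t := by
    rw [← Real.rpow_add ht]; simp
  have h3 : (48 * rr M ^ 2) ^ (-a) ≤ 16 * (M : ℝ) ^ 11 := by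
    have e1 : (48 * rr M ^ 2) ^ (-a) ≤ (rr M ^ 2) ^ (-a) := by
      apply Real.rpow_le_rpow_of_nonpos (by positivity)
      · nlinarith [pow_pos hr0 2]
      · linarith
    have e2 : (rr M ^ 2) ^ (-a) = X ^ (2 * a) := by
      rw [hr, inv_pow, Real.rpow_neg (by positivity), Real.inv_rpow (by positivity), inv_inv,
        ← Real.rpow_natCast, ← Real.rpow_mul (by positivity)]
      norm_num
    have e3 : X ^ (2 * a) ≤ X ^ ((1 : ℝ) / 16) :=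
      Real.rpow_le_rpow_of_exponent_le hX1 (by linarith)
    have e4 : X ≤ (16 * (M : ℝ) ^ 11) ^ 16 := by
      rw [hX, mul_pow, ← pow_mul]
      have : (M : ℝ) ^ 162 ≤ (M : ℝ) ^ (11 * 16) := pow_le_pow_right₀ hM' (by norm_num)
      have h0 : (0 : ℝ) ≤ (M : ℝ) ^ 162 := by positivity
      nlinarith
    have e5 : X ^ ((1 : ℝ) / 16) ≤ ((16 * (M : ℝ) ^ 11) ^ 16) ^ ((1 : ℝ) / 16) :=
      Real.rpow_le_rpow (by positivity) e4 (by norm_num)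
    have e6 : ((16 * (M : ℝ) ^ 11) ^ 16) ^ ((1 : ℝ) / 16) = 16 * (M : ℝ) ^ 11 := by
      rw [← Real.rpow_natCast, ← Real.rpow_mul (by positivity)]
      norm_num
    rw [e6] at e5
    rw [e2] at e1
    linarith
  calc t ^ a * (48 * rr M ^ 2 * t) ^ (1 - a)
      = (t ^ a * t ^ (1 - a)) * ((48 * rr M ^ 2) * (48 * rr M ^ 2) ^ (-a)) := by rw [h1]; ring
    _ = t * ((48 * rr M ^ 2) * (48 * rr M ^ 2) ^ (-a)) := by rw [h2]
    _ ≤ t * ((48 * rr M ^ 2) * (16 * (M : ℝ) ^ 11)) := by gcongr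
    _ = 768 * (M : ℝ) ^ 11 * rr M ^ 2 * t := by ring

/-! ## piece Z: asymptotics -/
theorem asymptotics (C Cf c C0 C1 p : ℝ) (hC : 0 ≤ C) (hCf : 0 < Cf) (hc : 0 < c) (hC0 : 0 < C0)
    (hC1 : 0 < C1) (hp : 32 ≤ p) : ∃ M₀ : ℕ, ∀ M : ℕ, M₀ ≤ M → ∀ τ : ℝ, 0 < τ →
    C * (Cf * (M : ℝ) ^ 2 * (1 / τ) ^ (1 / p)) *
      (Real.sqrt ((M ^ 40 : ℕ) : ℝ) * (C0 / rr M) * (48 * rr M ^ 2 / τ) ^ (1 - 1 / p) +
        ((M ^ 40 : ℕ) : ℝ) * (C1 * M * Real.exp (-(M : ℝ) / 64)) * (1 / τ) ^ (1 - 1 / p)) <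
      ((M ^ 40 : ℕ) : ℝ) * (c * (rr M / τ / (M : ℝ) ^ 2)) := by
  -- the exponential beats the power
  have hlim : Tendsto (fun M : ℕ => (M : ℝ) ^ 205 * Real.exp (-(M : ℝ) / 64)) atTop (𝓝 0) := by
    have h1 := (Real.tendsto_pow_mul_exp_neg_atTop_nhds_zero 205).comp
      ((tendsto_natCast_atTop_atTop (R := ℝ)).atTop_div_const (show (0 : ℝ) < 64 by norm_num))
    have h2 := h1.const_mul ((64 : ℝ) ^ 205)
    rw [mul_zero] at h2
    refine h2.congr fun M => ?_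
    simp only [Function.comp_apply]
    rw [← mul_assoc, ← mul_pow, mul_div_cancel₀ _ (by norm_num : (64 : ℝ) ≠ 0), neg_div]
  have hev : ∀ᶠ M : ℕ in atTop, (M : ℝ) ^ 205 * Real.exp (-(M : ℝ) / 64) ≤ 1 :=
    (hlim.eventually (gt_mem_nhds (show (0 : ℝ) < 1 by norm_num))).mono fun _ h => h.le
  obtain ⟨M₁, hM₁⟩ := eventually_atTop.1 hev
  set K : ℝ := 768 * (C * Cf * C0) + 16 * (C * Cf * C1) with hK
  have hK0 : 0 ≤ K := by positivity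
  obtain ⟨M₂, hM₂⟩ := exists_nat_gt (K / c)
  refine ⟨max (max M₁ M₂) 1, fun M hM τ hτ => ?_⟩
  have hMa : M₁ ≤ M := le_trans (le_trans (le_max_left _ _) (le_max_left _ _)) hM
  have hMb : M₂ ≤ M := le_trans (le_trans (le_max_right _ _) (le_max_left _ _)) hM
  have hMc : 1 ≤ M := le_trans (le_max_right _ _) hM
  have hM' : (1 : ℝ) ≤ M := by exact_mod_cast hMc
  have hM0 : (0 : ℝ) < M := by linarith
  have hKM : K < c * M := by
    have : K / c < M := lt_of_lt_of_le hM₂ (by exact_mod_cast hMb)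
    rw [div_lt_iff₀ hc] at this
    linarith
  have hexp := hM₁ M hMa
  have hr0 : 0 < rr M := by rw [rr]; positivity
  set t : ℝ := 1 / τ with ht
  have ht0 : 0 < t := by positivity
  set a : ℝ := 1 / p with ha
  have ha0 : 0 < a := by positivity
  have ha1 : a ≤ 1 / 32 := one_div_le_one_div_of_le (by norm_num) hp
  have hs : Real.sqrt ((M ^ 40 : ℕ) : ℝ) = (M : ℝ) ^ 20 := by
    rw [show ((M ^ 40 : ℕ) : ℝ) = ((M : ℝ) ^ 20) ^ 2 by push_cast; ring]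
    exact Real.sqrt_sq (by positivity)
  have hcast : ((M ^ 40 : ℕ) : ℝ) = (M : ℝ) ^ 40 := by push_cast; ring
  have hkey := z_key hMc ha0 ha1 ht0
  have h2 : t ^ a * t ^ (1 - a) = t := by
    rw [← Real.rpow_add ht0]; simp
  rw [hs, hcast, show 48 * rr M ^ 2 / τ = 48 * rr M ^ 2 * t by rw [ht]; ring,
    show rr M / τ / (M : ℝ) ^ 2 = rr M * t / (M : ℝ) ^ 2 by rw [ht]; ring]
  -- the two parts
  have hL : C * (Cf * (M : ℝ) ^ 2 * t ^ a) *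
      ((M : ℝ) ^ 20 * (C0 / rr M) * (48 * rr M ^ 2 * t) ^ (1 - a) +
        (M : ℝ) ^ 40 * (C1 * M * Real.exp (-(M : ℝ) / 64)) * t ^ (1 - a)) =
      C * Cf * C0 * (M : ℝ) ^ 22 / rr M * (t ^ a * (48 * rr M ^ 2 * t) ^ (1 - a)) +
      C * Cf * C1 * ((M : ℝ) ^ 43 * Real.exp (-(M : ℝ) / 64)) * (t ^ a * t ^ (1 - a)) := by
    ring
  rw [hL, h2]
  have hA : C * Cf * C0 * (M : ℝ) ^ 22 / rr M * (t ^ a * (48 * rr M ^ 2 * t) ^ (1 - a)) ≤
      768 * (C * Cf * C0) * (M : ℝ) ^ 33 * (rr M * t) := by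
    calc C * Cf * C0 * (M : ℝ) ^ 22 / rr M * (t ^ a * (48 * rr M ^ 2 * t) ^ (1 - a))
        ≤ C * Cf * C0 * (M : ℝ) ^ 22 / rr M * (768 * (M : ℝ) ^ 11 * rr M ^ 2 * t) := by
          gcongr
      _ = 768 * (C * Cf * C0) * (M : ℝ) ^ 33 * (rr M * t) := by
          field_simp
  have hB : C * Cf * C1 * ((M : ℝ) ^ 43 * Real.exp (-(M : ℝ) / 64)) * t ≤
      16 * (C * Cf * C1) * (rr M * t) := by
    have e1 : (M : ℝ) ^ 43 * Real.exp (-(M : ℝ) / 64) ≤ 16 * rr M := by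
      have e2 : 16 * rr M = 1 / (M : ℝ) ^ 162 := by
        rw [rr]; field_simp
      rw [e2, le_div_iff₀ (by positivity)]
      calc (M : ℝ) ^ 43 * Real.exp (-(M : ℝ) / 64) * (M : ℝ) ^ 162
          = (M : ℝ) ^ 205 * Real.exp (-(M : ℝ) / 64) := by ring
        _ ≤ 1 := hexp
    calc C * Cf * C1 * ((M : ℝ) ^ 43 * Real.exp (-(M : ℝ) / 64)) * t
        ≤ C * Cf * C1 * (16 * rr M) * t := by gcongr
      _ = 16 * (C * Cf * C1) * (rr M * t) := by ring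
  have hR : (M : ℝ) ^ 40 * (c * (rr M * t / (M : ℝ) ^ 2)) = c * (M : ℝ) ^ 38 * (rr M * t) := by
    field_simp
  rw [hR]
  have hrt : 0 < rr M * t := by positivity
  have hp33 : (1 : ℝ) ≤ (M : ℝ) ^ 33 := one_le_pow₀ hM'
  have hfin : K * (M : ℝ) ^ 33 < c * (M : ℝ) ^ 38 := by
    have e1 : (M : ℝ) ^ 34 ≤ (M : ℝ) ^ 38 := pow_le_pow_right₀ hM' (by norm_num)
    calc K * (M : ℝ) ^ 33 < c * M * (M : ℝ) ^ 33 := by gcongr
      _ = c * (M : ℝ) ^ 34 := by ring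
      _ ≤ c * (M : ℝ) ^ 38 := by gcongr
  have hB' : 16 * (C * Cf * C1) * (rr M * t) ≤ 16 * (C * Cf * C1) * (M : ℝ) ^ 33 * (rr M * t) := by
    have h0 : 0 ≤ 16 * (C * Cf * C1) := by positivity
    have := mul_le_mul_of_nonneg_left hp33 h0
    rw [mul_one] at this
    gcongr
  calc _ ≤ 768 * (C * Cf * C0) * (M : ℝ) ^ 33 * (rr M * t) +
        16 * (C * Cf * C1) * (M : ℝ) ^ 33 * (rr M * t) := by linarith
    _ = K * (M : ℝ) ^ 33 * (rr M * t) := by rw [hK]; ring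
    _ < c * (M : ℝ) ^ 38 * (rr M * t) := by gcongr

end Pool.Agent.Helper3.DB
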