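import Pool.Agent.Helper3.DB.A4
import Pool.Agent.Helper3.DB.P4
import Pool.Agent.Helper3.DB.D1
import Pool.Agent.Helper3.DB.D2
import Pool.Agent.Helper3.DB.C1
import Pool.Agent.Helper3.DB.L1
import Pool.Agent.Helper3.DB.L2
import Pool.Agent.Helper3.DB.B1
import Pool.Agent.Helper3.DB.B2
import Pool.Agent.Helper3.DB.B3
import Pool.Agent.Helper3.DB.B4
import Pool.Agent.Helper3.DB.B5
import Pool.Agent.Helper3.DB.T1
import Pool.Agent.Helper3.DB.K1
import Pool.Agent.Helper3.DB.N1
import Pool.Agent.Helper3.DB.N4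
import Pool.Agent.Helper3.DB.Q1
import Pool.Agent.Helper3.DB.Q2
import Pool.Agent.Helper3.DB.Z

open MeasureTheory
open scoped ContDiff NNReal ENNReal

namespace Pool.Agent.Helper3.DB

theorem main_rr_pos {M : ℕ} (hM : 1 ≤ M) : 0 < rr M := by
  unfold rr
  have : (0 : ℝ) < M := by exact_mod_cast hM
  positivity

theorem no_estimate {ψ : ℂ → ℝ} (h : IsProfile ψ) {p : ℝ} (hp : 32 ≤ p) :
    ¬ LpSolvable (Dom ψ) p := by
  rintro ⟨C, hC⟩
  obtain ⟨Cf, hCf, hform⟩ := form_norm
  obtain ⟨c, hc, hpair⟩ := pairing_lower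
  obtain ⟨C0, hC0, hG0⟩ := G0_bound
  obtain ⟨C1, hC1, hG1⟩ := G1_bound
  obtain ⟨M₀, hM₀⟩ := asymptotics C Cf c C0 C1 p (NNReal.coe_nonneg C) hCf hc hC0 hC1 hp
  obtain ⟨M, hM, A, hA, hA1, hlow, hup⟩ := h.scales (max M₀ 16)
  have hM16 : 16 ≤ M := (le_max_right _ _).trans hM
  have hM0 : M₀ ≤ M := (le_max_left _ _).trans hM
  have hM1 : 1 ≤ M := by omega
  have hM2 : 2 ≤ M := by omega
  have hr : 0 < rr M := main_rr_pos hM1
  set τ := tau M A with hτdef
  have hτ : 0 < τ := by rw [hτdef]; unfold tau; positivity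
  have hMR : (0 : ℝ) < M := by exact_mod_cast hM1
  have hopen : IsOpen (Dom ψ) := (dom_smoothBoundedConvex h).2.1
  have hbdd : Bornology.IsBounded (Dom ψ) := (dom_smoothBoundedConvex h).2.2.2.1
  have hmeas : MeasurableSet (Dom ψ) := hopen.measurableSet
  set N : ℕ := M ^ 40 with hN
  let w : Fin N → ℂ := fun k => om N k
  have hw : ∀ k, ‖w k‖ = 1 := fun k => norm_om N k
  let f : Fin N → Fin 3 → (Fin 3 → ℂ) → ℂ := fun k j z => cov (w k) j * Fb M τ (LL (w k) A z)
  let V : Fin N → Fin 3 → (Fin 3 → ℂ) → ℂ := fun k j z => vec (w k) A j * Vb M τ (LL (w k) A z)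
  let g0 : Fin N → (Fin 3 → ℂ) → ℂ := fun k z => G0 M τ (LL (w k) A z)
  let g1 : Fin N → (Fin 3 → ℂ) → ℂ := fun k z => G1 M τ (LL (w k) A z)
  have hV : ∀ k j, IsTest (Dom ψ) (V k j) := fun k j => isTest_V hM16 hA hA1 hup (hw k) j
  have hLc : ∀ k, Continuous (LL (w k) A) := fun k => (LL_contDiff (w k) A).continuous
  have hLm : ∀ k, MeasurePreserving (LL (w k) A) volume volume := fun k =>
    LL_measurePreserving (hw k) A
  have hdiv : ∀ k z, ∑ j, dbar j (V k j) z = g0 k z + g1 k z := by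
    intro k z
    rw [← dbar_Vb M τ (LL (w k) A z)]
    exact sum_dbar_vec_comp_LL (hw k) A ((Vb_contDiff M τ).differentiable (by simp)) z
  have hPhi : ∀ k j z, dbar j (fun z => Phib M τ (LL (w k) A z)) z = f k j z := by
    intro k j z
    rw [dbar_comp_LL (w k) A ((Phib_contDiff M τ).differentiable (by simp))
      (fun ζ => (dbar_Phib M τ ζ).2.1) (fun ζ => (dbar_Phib M τ ζ).2.2) z j,
      (dbar_Phib M τ _).1]
  have hPhiC : ∀ k, ContDiff ℝ ∞ (fun z => Phib M τ (LL (w k) A z)) := fun k =>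
    (Phib_contDiff M τ).comp (LL_contDiff (w k) A)
  have hfc : ∀ k, WeakClosed (Dom ψ) (f k) := by
    intro k
    have := weakClosed_dbar (Dom ψ) _ (hPhiC k)
    have e : (fun j z => dbar j (fun z => Phib M τ (LL (w k) A z)) z) = f k := by
      funext j z; exact hPhi k j z
    rwa [e] at this
  have hfcont : ∀ k j, Continuous (f k j) := by
    intro k j
    have := continuous_dbar (hPhiC k) j
    have e : (fun z => dbar j (fun z => Phib M τ (LL (w k) A z)) z) = f k j := by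
      funext z; exact hPhi k j z
    rwa [e] at this
  have hfin : volume (Dom ψ) < ⊤ := hbdd.measure_lt_top
  have hfL : ∀ k j, MemLp (f k j) (ENNReal.ofReal p) (volume.restrict (Dom ψ)) := by
    intro k j
    have : IsFiniteMeasure (volume.restrict (Dom ψ)) := ⟨by simpa using hfin⟩
    have hcpt : IsCompact (closure (Dom ψ)) := hbdd.isCompact_closure
    obtain ⟨B, hB⟩ := hcpt.exists_bound_of_continuousOn (hfcont k j).continuousOn
    refine MemLp.of_bound (hfcont k j).aestronglyMeasurable B ?_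
    rw [ae_restrict_iff' hmeas]
    exact Filter.Eventually.of_forall fun z hz => hB z (subset_closure hz)
  have hF := hform M hM2 A hA ψ h.smooth.continuous h.nonneg hlow p (by linarith)
  have hP : ∀ k, c * (rr M / τ / (M : ℝ) ^ 2) ≤
      (-∫ z in Dom ψ, ∑ j, f k j z * V k j z).re := by
    intro k
    have h1 := pairing_transfer (ψ := ψ) (M := M) (A := A) (hw k) (fun j => hV k j)
    have h2 := hpair M hM2 τ hτ
    rw [← h1] at h2
    exact h2
  have hb := duality_bound (N := N) (Ω := Dom ψ) hmeas (p := p) (by linarith) hC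
    (f := f) (V := V) (g0 := g0) (g1 := g1)
    (F := Cf * (M : ℝ) ^ 2 * (1 / τ) ^ (1 / p)) (P := c * (rr M / τ / (M : ℝ) ^ 2))
    (G := C0 / rr M) (δ := C1 * M * Real.exp (-(M : ℝ) / 64)) (m0 := 48 * rr M ^ 2 / τ)
    (m1 := 1 / τ) (by positivity) (by positivity) (by positivity) (by positivity) (by positivity)
    hfL hfc hV hdiv hF
    (fun k => ((continuous_G M τ).1.comp (hLc k)).measurable)
    (fun k => ((continuous_G M τ).2.comp (hLc k)).measurable)
    (S0 := S0 M τ) (S0_measurable M τ) (S0_volume hM1 hτ)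
    (fun k z => hG0 M hM1 τ hτ _)
    (fun k z hz => G0_comp_supp hM1 hA hA1 (hw k) hz)
    (S1 := fun k => LL (w k) A ⁻¹' S1 M τ)
    (fun k => (hLc k).measurable (S1_measurable M τ))
    (fun k => by
      rw [(hLm k).measure_preimage (S1_measurable M τ).nullMeasurableSet]
      exact S1_volume hM1 hτ)
    (fun k z => hG1 M hM1 τ hτ _)
    (fun k z hz => (Vb_supp hM1 hτ hz).2.2)
    hP
  exact absurd hb (not_le.mpr (hM₀ M hM0 τ hτ))

theorem main : ∃ Ω : Set (Fin 3 → ℂ), SmoothBoundedConvex Ω ∧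
    ∀ p : ℝ, 32 ≤ p → ¬ LpSolvable Ω p := by
  obtain ⟨ψ, hψ⟩ := profile_exists
  exact ⟨Dom ψ, dom_smoothBoundedConvex hψ, fun p hp => no_estimate hψ hp⟩

end Pool.Agent.Helper3.DB
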