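import Pool.Agent.Helper3.DB.C1
import Pool.Agent.Helper3.DB.N1

open MeasureTheory
open scoped ContDiff NNReal ENNReal

namespace Pool.Agent.Helper3.DB

theorem LL_zero_re (w : ℂ) (A : ℝ) (z : Fin 3 → ℂ) :
    (LL w A z 0).re = (XX z * (starRingEnd ℂ) w).re := by
  simp [LL, XX]
  ring

theorem LL_two_re (w : ℂ) (A : ℝ) (z : Fin 3 → ℂ) :
    (LL w A z 2).re = (z 2).re - A * (XX z * (starRingEnd ℂ) w).re := by
  have h : (XX z * (starRingEnd ℂ) w).re = w.re * (z 0).re + w.im * (z 1).re := by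
    simp [XX]
    ring
  rw [h]
  simp [LL]

theorem Rp_pos {M : ℕ} (hM : 2 ≤ M) : 0 < Rp M := by
  have : (0 : ℝ) < M := by exact_mod_cast (by omega : 0 < M)
  unfold Rp
  positivity

theorem rr_pos {M : ℕ} (hM : 2 ≤ M) : 0 < rr M := by
  have : (0 : ℝ) < M := by exact_mod_cast (by omega : 0 < M)
  unfold rr
  positivity

theorem norm_Fb (M : ℕ) (τ : ℝ) (ζ : Fin 3 → ℂ) :
    ‖Fb M τ ζ‖ = |1 / 2 * (deriv chi ((ζ 0).re / Rp M) / Rp M)| * Real.exp (KK M * (ζ 0).re) *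
      Real.exp (-(τ * (ζ 2).re)) := by
  rw [Fb, norm_mul, norm_mul, Complex.norm_real, Complex.norm_exp, Complex.norm_exp,
    Real.norm_eq_abs]
  simp

theorem norm_cov_le {w : ℂ} (hw : ‖w‖ = 1) (j : Fin 3) : ‖cov w j‖ ≤ 1 := by
  fin_cases j
  · simpa [cov, ← hw] using Complex.abs_re_le_norm w
  · simpa [cov, ← hw] using Complex.abs_im_le_norm w
  · simp [cov]

theorem Fb_le {C : ℝ} (hC1 : 1 ≤ C) (hC : ∀ s, |deriv chi s| ≤ C) {M : ℕ} (hM : 2 ≤ M) {A : ℝ}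
    (hA : 0 < A) {ψ : ℂ → ℝ} (hψ : ∀ x, A * (‖x‖ - 2 * rr M) ≤ ψ x) (w : ℂ) (z : Fin 3 → ℂ) :
    ‖Fb M (tau M A) (LL w A z)‖ ≤ 8 * C * Real.exp 3 * (M : ℝ) ^ 2 *
      Real.exp (-(tau M A * ((z 2).re - ψ (XX z)))) *
      (if Rp M / 2 ≤ (XX z * (starRingEnd ℂ) w).re then
        Real.exp (-(1 / rr M * (‖XX z‖ - (XX z * (starRingEnd ℂ) w).re))) else 0) := by
  have hM0 : (0 : ℝ) < M := by exact_mod_cast (by omega : 0 < M)
  have hRp := Rp_pos hM
  have hrr := rr_pos hM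
  rw [norm_Fb, LL_zero_re, LL_two_re]
  set s := (XX z * (starRingEnd ℂ) w).re with hs
  set u := (z 2).re with hu
  set x := XX z with hx
  by_cases h1 : s / Rp M ≤ 1 / 2 ∨ 1 ≤ s / Rp M
  · rw [deriv_chi_zero h1]
    simp only [zero_div, mul_zero, abs_zero, zero_mul]
    split_ifs <;> positivity
  · push Not at h1
    obtain ⟨h2, h3⟩ := h1
    rw [lt_div_iff₀ hRp] at h2
    rw [div_lt_one hRp] at h3
    rw [if_pos (by linarith)]
    have e1 : |1 / 2 * (deriv chi (s / Rp M) / Rp M)| ≤ 8 * C * (M : ℝ) ^ 2 := by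
      have h4 := hC (s / Rp M)
      have h5 : (1 : ℝ) / 2 * (deriv chi (s / Rp M) / Rp M) =
          deriv chi (s / Rp M) * (8 * (M : ℝ) ^ 2) := by
        generalize deriv chi (s / Rp M) = d
        rw [Rp]
        field_simp
        ring
      have h6 : (0 : ℝ) ≤ 8 * (M : ℝ) ^ 2 := by positivity
      rw [h5, abs_mul, abs_of_nonneg h6]
      nlinarith [mul_le_mul_of_nonneg_right h4 h6]
    have e2 : Real.exp (KK M * s) ≤ Real.exp 1 := by
      apply Real.exp_le_exp.2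
      have : KK M * Rp M = 1 := by
        rw [KK, Rp]
        field_simp
      rw [← this]
      have hK : 0 ≤ KK M := by rw [KK]; positivity
      exact mul_le_mul_of_nonneg_left h3.le hK
    have hτ : 0 < tau M A := by rw [tau]; positivity
    have hτA : tau M A * A = 1 / rr M := by
      rw [tau]
      field_simp
    have e3 : Real.exp (-(tau M A * (u - A * s))) ≤ Real.exp 2 *
        (Real.exp (-(tau M A * (u - ψ x))) * Real.exp (-(1 / rr M * (‖x‖ - s)))) := by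
      rw [← Real.exp_add, ← Real.exp_add]
      apply Real.exp_le_exp.2
      have h4 := mul_le_mul_of_nonneg_left (hψ x) hτ.le
      have h5 : tau M A * (A * (‖x‖ - 2 * rr M)) = 1 / rr M * ‖x‖ - 2 := by
        rw [← mul_assoc, hτA]
        field_simp
      rw [h5] at h4
      have h6 : tau M A * (A * s) = 1 / rr M * s := by rw [← mul_assoc, hτA]
      nlinarith
    calc |1 / 2 * (deriv chi (s / Rp M) / Rp M)| * Real.exp (KK M * s) *
          Real.exp (-(tau M A * (u - A * s)))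
        ≤ (8 * C * (M : ℝ) ^ 2) * Real.exp 1 * (Real.exp 2 *
          (Real.exp (-(tau M A * (u - ψ x))) * Real.exp (-(1 / rr M * (‖x‖ - s))))) := by
          gcongr
      _ = _ := by
          have : Real.exp 3 = Real.exp 1 * Real.exp 2 := by
            rw [← Real.exp_add]; norm_num
          rw [this]
          ring

/-! ## piece N2 -/
theorem form_pointwise : ∃ C : ℝ, 0 < C ∧ ∀ (M : ℕ), 2 ≤ M → ∀ (A : ℝ), 0 < A →
    ∀ (ψ : ℂ → ℝ), (∀ x, A * (‖x‖ - 2 * rr M) ≤ ψ x) → ∀ (ε : Fin (M ^ 40) → ℝ),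
    (∀ k, |ε k| ≤ 1) → ∀ (j : Fin 3) (z : Fin 3 → ℂ),
    ‖∑ k, (ε k : ℂ) * (cov (om (M ^ 40) k) j * Fb M (tau M A) (LL (om (M ^ 40) k) A z))‖ ≤
      C * (M : ℝ) ^ 2 * Real.exp (-(tau M A * ((z 2).re - ψ (XX z)))) := by
  obtain ⟨C, hC1, hC⟩ := deriv_bound
  refine ⟨16 * C * Real.exp 3, by positivity, ?_⟩
  intro M hM A hA ψ hψ ε hε j z
  have hM0 : (0 : ℝ) < M := by exact_mod_cast (by omega : 0 < M)
  have hM2 : (2 : ℝ) ≤ M := by exact_mod_cast hM
  have hRp := Rp_pos hM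
  have hrr := rr_pos hM
  have hsum := sum_exp_le_two (M ^ 40) (Nat.one_le_pow _ _ (by omega)) (1 / rr M) (Rp M / 2)
    (by positivity) (by
      have e : 1 / rr M * (Rp M / 2) = (M : ℝ) ^ 160 / 2 := by
        rw [rr, Rp]
        field_simp
      rw [e]
      push_cast
      have h40 : (2 : ℝ) ^ 40 ≤ (M : ℝ) ^ 40 := pow_le_pow_left₀ (by norm_num) hM2 40
      have h120 : (0 : ℝ) ≤ (M : ℝ) ^ 120 := by positivity
      have e1 : (M : ℝ) ^ 160 = (M : ℝ) ^ 40 * (M : ℝ) ^ 120 := by rw [← pow_add]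
      have e2 : ((M : ℝ) ^ 40) ^ 3 = (M : ℝ) ^ 120 := by rw [← pow_mul]
      rw [e1, e2]
      have h3 : (2 : ℝ) ^ 40 * (M : ℝ) ^ 120 ≤ (M : ℝ) ^ 40 * (M : ℝ) ^ 120 :=
        mul_le_mul_of_nonneg_right h40 h120
      nlinarith) (XX z)
  set B : ℝ := 8 * C * Real.exp 3 * (M : ℝ) ^ 2 *
      Real.exp (-(tau M A * ((z 2).re - ψ (XX z)))) with hB
  have hB0 : 0 ≤ B := by positivity
  calc ‖∑ k, (ε k : ℂ) * (cov (om (M ^ 40) k) j * Fb M (tau M A) (LL (om (M ^ 40) k) A z))‖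
      ≤ ∑ k : Fin (M ^ 40), B * (if Rp M / 2 ≤ (XX z * (starRingEnd ℂ) (om (M ^ 40) k)).re then
        Real.exp (-(1 / rr M * (‖XX z‖ - (XX z * (starRingEnd ℂ) (om (M ^ 40) k)).re))) else 0) := by
        refine (norm_sum_le _ _).trans (Finset.sum_le_sum fun k _ => ?_)
        rw [norm_mul, norm_mul, Complex.norm_real, Real.norm_eq_abs]
        have h1 := Fb_le hC1 (fun s => (hC s).1) hM hA hψ (om (M ^ 40) k) z
        have h2 := norm_cov_le (norm_om (M ^ 40) k) j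
        calc |ε k| * (‖cov (om (M ^ 40) k) j‖ * ‖Fb M (tau M A) (LL (om (M ^ 40) k) A z)‖)
            ≤ 1 * (1 * ‖Fb M (tau M A) (LL (om (M ^ 40) k) A z)‖) := by
              gcongr
              exact hε k
          _ ≤ _ := by rw [one_mul, one_mul]; exact h1
    _ = B * ∑ k : Fin (M ^ 40), (if Rp M / 2 ≤ (XX z * (starRingEnd ℂ) (om (M ^ 40) k)).re then
        Real.exp (-(1 / rr M * (‖XX z‖ - (XX z * (starRingEnd ℂ) (om (M ^ 40) k)).re))) else 0) := by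
        rw [Finset.mul_sum]
    _ ≤ B * 2 := mul_le_mul_of_nonneg_left hsum hB0
    _ = _ := by rw [hB]; ring

end Pool.Agent.Helper3.DB
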