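import Pool.Agent.Helper3.DB.Defs

/-!
# Piece N3: the integral of `exp (-q (Re z₂ - ψ))` over the part of the domain in a polydisc
-/

open MeasureTheory
open scoped ContDiff NNReal ENNReal

namespace Pool.Agent.Helper3.DB

namespace N3

theorem lintegral_real (q a : ℝ) (hq : 0 < q) :
    ∫⁻ x : ℝ, (Set.Ioi a).indicator (fun x => ENNReal.ofReal (Real.exp (-(q * (x - a))))) x =
      ENNReal.ofReal (1 / q) := by
  rw [lintegral_indicator measurableSet_Ioi]
  have h1 : IntegrableOn (fun x : ℝ => Real.exp (-(q * (x - a)))) (Set.Ioi a) := by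
    have := (integrableOn_exp_mul_Ioi (a := -q) (by linarith) a).const_mul (Real.exp (q * a))
    refine this.congr (Filter.Eventually.of_forall fun x => ?_)
    simp only
    rw [← Real.exp_add]
    congr 1
    ring
  rw [← ofReal_integral_eq_lintegral_ofReal h1 (Filter.Eventually.of_forall fun x =>
    (Real.exp_pos _).le)]
  congr 1
  have h2 : ∀ x : ℝ, Real.exp (-(q * (x - a))) = Real.exp (q * a) * Real.exp (-q * x) := by
    intro x
    rw [← Real.exp_add]
    congr 1
    ring
  simp only [h2]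
  rw [integral_const_mul, integral_exp_mul_Ioi (by linarith)]
  rw [mul_div_assoc', mul_neg, ← Real.exp_add]
  have : q * a + -q * a = 0 := by ring
  rw [this, Real.exp_zero]
  field_simp

theorem inner_le (q a : ℝ) (hq : 0 < q) :
    ∫⁻ w : ℂ, {w : ℂ | a < w.re ∧ |w.im| ≤ 2}.indicator
      (fun w => ENNReal.ofReal (Real.exp (-(q * (w.re - a))))) w ≤ ENNReal.ofReal (4 / q) := by
  rw [← (Complex.volume_preserving_equiv_real_prod.symm).lintegral_comp_emb
    (MeasurableEquiv.measurableEmbedding _)]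
  have e : ∀ p : ℝ × ℝ, {w : ℂ | a < w.re ∧ |w.im| ≤ 2}.indicator
      (fun w => ENNReal.ofReal (Real.exp (-(q * (w.re - a)))))
        (Complex.measurableEquivRealProd.symm p) =
      (Set.Ioi a).indicator (fun x => ENNReal.ofReal (Real.exp (-(q * (x - a))))) p.1 *
        (Set.Icc (-2 : ℝ) 2).indicator (fun _ => (1 : ℝ≥0∞)) p.2 := by
    intro p
    have hre : (Complex.measurableEquivRealProd.symm p).re = p.1 := rfl
    have him : (Complex.measurableEquivRealProd.symm p).im = p.2 := rfl
    by_cases h1 : a < p.1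
    · by_cases h2 : |p.2| ≤ 2
      · have m1 : Complex.measurableEquivRealProd.symm p ∈ {w : ℂ | a < w.re ∧ |w.im| ≤ 2} :=
          ⟨h1, h2⟩
        rw [Set.indicator_of_mem m1, Set.indicator_of_mem (show p.1 ∈ Set.Ioi a from h1),
          Set.indicator_of_mem (show p.2 ∈ Set.Icc (-2 : ℝ) 2 from abs_le.1 h2), hre, mul_one]
      · have m1 : Complex.measurableEquivRealProd.symm p ∉ {w : ℂ | a < w.re ∧ |w.im| ≤ 2} :=
          fun h => h2 h.2
        rw [Set.indicator_of_notMem m1, Set.indicator_of_notMem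
          (show p.2 ∉ Set.Icc (-2 : ℝ) 2 from fun h => h2 (abs_le.2 h)), mul_zero]
    · have m1 : Complex.measurableEquivRealProd.symm p ∉ {w : ℂ | a < w.re ∧ |w.im| ≤ 2} :=
        fun h => h1 h.1
      rw [Set.indicator_of_notMem m1, Set.indicator_of_notMem
        (show p.1 ∉ Set.Ioi a from h1), zero_mul]
  simp only [e]
  rw [Measure.volume_eq_prod, lintegral_prod_mul, lintegral_real q a hq]
  · rw [lintegral_indicator measurableSet_Icc]
    simp only [lintegral_const, MeasurableSet.univ, Measure.restrict_apply, Set.univ_inter,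
      Real.volume_Icc, one_mul]
    rw [← ENNReal.ofReal_mul (by positivity)]
    apply ENNReal.ofReal_le_ofReal
    apply le_of_eq
    ring
  · exact (Measurable.indicator (by fun_prop) measurableSet_Ioi).aemeasurable
  · exact (Measurable.indicator measurable_const measurableSet_Icc).aemeasurable

end N3

open N3

theorem lintegral_exp_le (ψ : ℂ → ℝ) (hψ : Continuous ψ) (q : ℝ) (hq : 0 < q) :
    ∫⁻ z in {z : Fin 3 → ℂ | ψ (XX z) < (z 2).re ∧ ∀ j, ‖z j‖ ≤ 2},
      ENNReal.ofReal (Real.exp (-(q * ((z 2).re - ψ (XX z))))) ≤ ENNReal.ofReal (4096 / q) := by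
  have hXX : Continuous XX := by
    unfold XX
    fun_prop
  have hre : Continuous (fun z : Fin 3 → ℂ => (z 2).re) := by fun_prop
  set T : Set (Fin 3 → ℂ) := {z | ψ (XX z) < (z 2).re ∧ ∀ j, ‖z j‖ ≤ 2} with hT
  have hTm : MeasurableSet T := by
    refine MeasurableSet.inter (measurableSet_lt (hψ.comp hXX).measurable hre.measurable) ?_
    have : {z : Fin 3 → ℂ | ∀ j, ‖z j‖ ≤ 2} = ⋂ j, {z | ‖z j‖ ≤ 2} := by
      ext z; simp
    change MeasurableSet {z : Fin 3 → ℂ | ∀ j, ‖z j‖ ≤ 2}
    rw [this]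
    exact MeasurableSet.iInter fun j => measurableSet_le (by fun_prop) measurable_const
  set h : (Fin 3 → ℂ) → ℝ≥0∞ := fun z =>
    ENNReal.ofReal (Real.exp (-(q * ((z 2).re - ψ (XX z))))) with hh
  have hhm : Measurable h := by
    have : Continuous (fun z : Fin 3 → ℂ => Real.exp (-(q * ((z 2).re - ψ (XX z))))) := by
      have := hψ.comp hXX
      fun_prop
    exact this.measurable.ennreal_ofReal
  rw [← lintegral_indicator hTm]
  set e := MeasurableEquiv.piFinSuccAbove (fun _ : Fin 3 => ℂ) 2 with he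
  rw [← ((volume_preserving_piFinSuccAbove (fun _ : Fin 3 => ℂ) 2).symm _).lintegral_comp_emb
    (MeasurableEquiv.measurableEmbedding _)]
  rw [Measure.volume_eq_prod, lintegral_prod_symm]
  swap
  · exact ((hhm.indicator hTm).comp (MeasurableEquiv.measurable _)).aemeasurable
  have hin : ∀ y : Fin 2 → ℂ, ∫⁻ w : ℂ, T.indicator h (e.symm (w, y)) ≤
      {y : Fin 2 → ℂ | ∀ j, ‖y j‖ ≤ 2}.indicator (fun _ => ENNReal.ofReal (4 / q)) y := by
    intro y
    have hy0 : ∀ w : ℂ, e.symm (w, y) 0 = y 0 := fun w => rfl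
    have hy1 : ∀ w : ℂ, e.symm (w, y) 1 = y 1 := fun w => rfl
    have hy2 : ∀ w : ℂ, e.symm (w, y) 2 = w := fun w => rfl
    by_cases hy : ∀ j, ‖y j‖ ≤ 2
    · rw [Set.indicator_of_mem (show y ∈ {y : Fin 2 → ℂ | ∀ j, ‖y j‖ ≤ 2} from hy)]
      refine le_trans (lintegral_mono fun w => ?_)
        (inner_le q (ψ ((y 0).re + (y 1).re * Complex.I)) hq)
      have hXXw : XX (e.symm (w, y)) = (y 0).re + (y 1).re * Complex.I := by
        unfold XX
        rw [hy0, hy1]
      by_cases hw : e.symm (w, y) ∈ T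
      · have hw' := hw
        rw [hT] at hw'
        obtain ⟨h1, h2⟩ := hw'
        rw [hXXw, hy2] at h1
        have h3 := h2 2
        rw [hy2] at h3
        rw [Set.indicator_of_mem hw, Set.indicator_of_mem]
        · simp only [hh]
          rw [hXXw, hy2]
        · exact ⟨h1, (Complex.abs_im_le_norm w).trans h3⟩
      · rw [Set.indicator_of_notMem hw]
        exact zero_le
    · rw [Set.indicator_of_notMem (show y ∉ {y : Fin 2 → ℂ | ∀ j, ‖y j‖ ≤ 2} from hy)]
      have : ∀ w : ℂ, T.indicator h (e.symm (w, y)) = 0 := by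
        intro w
        refine Set.indicator_of_notMem (fun hw => hy ?_) _
        intro j
        fin_cases j
        · exact hw.2 0
        · exact hw.2 1
      simp [this]
  refine le_trans (lintegral_mono hin) ?_
  have hBm : {y : Fin 2 → ℂ | ∀ j, ‖y j‖ ≤ 2} =
      Set.pi Set.univ (fun _ : Fin 2 => Metric.closedBall (0 : ℂ) 2) := by
    ext y; simp [Set.mem_pi]
  rw [hBm, lintegral_indicator (MeasurableSet.pi Set.countable_univ fun _ _ =>
    Metric.isClosed_closedBall.measurableSet)]
  rw [lintegral_const, Measure.restrict_apply MeasurableSet.univ, Set.univ_inter, volume_pi_pi]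
  simp only [Complex.volume_closedBall, Finset.prod_const, Finset.card_univ, Fintype.card_fin]
  have h2 : ENNReal.ofReal 2 ^ 2 * (NNReal.pi : ℝ≥0∞) ≤ ENNReal.ofReal 16 := by
    rw [← ENNReal.ofReal_pow (by norm_num)]
    have : (NNReal.pi : ℝ≥0∞) = ENNReal.ofReal Real.pi := by
      rw [ENNReal.ofReal, Real.toNNReal_of_nonneg Real.pi_pos.le]
      rfl
    rw [this, ← ENNReal.ofReal_mul (by positivity)]
    apply ENNReal.ofReal_le_ofReal
    linarith [Real.pi_le_four]
  calc ENNReal.ofReal (4 / q) * (ENNReal.ofReal 2 ^ 2 * (NNReal.pi : ℝ≥0∞)) ^ 2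
      ≤ ENNReal.ofReal (4 / q) * ENNReal.ofReal 16 ^ 2 := by gcongr
    _ = ENNReal.ofReal (4 / q * 16 ^ 2) := by
        rw [← ENNReal.ofReal_pow (by norm_num), ← ENNReal.ofReal_mul (by positivity)]
    _ ≤ ENNReal.ofReal (4096 / q) := by
        apply ENNReal.ofReal_le_ofReal
        rw [div_mul_eq_mul_div]
        apply div_le_div_of_nonneg_right _ hq.le
        norm_num

end Pool.Agent.Helper3.DB
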