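import Pool.Agent.Helper3.DB.D2
import Pool.Agent.Helper3.DB.N2
import Pool.Agent.Helper3.DB.N3

/-! Piece N4: the `L^p` norm of the forms. -/

set_option autoImplicit false

open MeasureTheory
open scoped ContDiff NNReal ENNReal

namespace Pool.Agent.Helper3.DB

namespace N4Aux

theorem rpow_bound {p τ : ℝ} (hp : 1 ≤ p) (hτ : 0 < τ) :
    (4096 / (p * τ)) ^ (1 / p) ≤ 4096 * (1 / τ) ^ (1 / p) := by
  have hp0 : 0 < p := zero_lt_one.trans_le hp
  have h1 : (4096 : ℝ) / (p * τ) = (4096 / p) * (1 / τ) := by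
    field_simp
  rw [h1, Real.mul_rpow (by positivity) (by positivity)]
  refine mul_le_mul_of_nonneg_right ?_ (by positivity)
  have h2 : (4096 / p : ℝ) ≤ 4096 := div_le_self (by norm_num) hp
  have h3 : (4096 / p : ℝ) ^ (1 / p) ≤ 4096 ^ (1 / p) :=
    Real.rpow_le_rpow (by positivity) h2 (by positivity)
  have h4 : (4096 : ℝ) ^ (1 / p) ≤ 4096 ^ (1 : ℝ) :=
    Real.rpow_le_rpow_of_exponent_le (by norm_num) ((div_le_one hp0).2 hp)
  rw [Real.rpow_one] at h4
  exact h3.trans h4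

end N4Aux

open N4Aux

theorem form_norm : ∃ C : ℝ, 0 < C ∧ ∀ (M : ℕ), 2 ≤ M → ∀ (A : ℝ), 0 < A →
    ∀ (ψ : ℂ → ℝ), Continuous ψ → (∀ x, 0 ≤ ψ x) → (∀ x, A * (‖x‖ - 2 * rr M) ≤ ψ x) →
    ∀ (p : ℝ), 1 ≤ p → ∀ (ε : Fin (M ^ 40) → ℝ), (∀ k, |ε k| ≤ 1) →
    ∑ j, eLpNorm (fun z => ∑ k, (ε k : ℂ) *
        (cov (om (M ^ 40) k) j * Fb M (tau M A) (LL (om (M ^ 40) k) A z)))
        (ENNReal.ofReal p) (volume.restrict (Dom ψ)) ≤
      ENNReal.ofReal (C * (M : ℝ) ^ 2 * (1 / tau M A) ^ (1 / p)) := by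
  obtain ⟨C1, hC1, h1⟩ := form_pointwise
  refine ⟨3 * (4096 * C1), by positivity, ?_⟩
  intro M hM A hA ψ hψ h0 hlow p hp ε hε
  have hM0 : (0 : ℝ) < M := by exact_mod_cast (by omega : 0 < M)
  have hτ : 0 < tau M A := by
    unfold tau rr
    positivity
  have hp0 : 0 < p := zero_lt_one.trans_le hp
  have hpne : ENNReal.ofReal p ≠ 0 := by
    rw [ne_eq, ENNReal.ofReal_eq_zero, not_le]
    exact hp0
  have hK0 : 0 ≤ C1 * (M : ℝ) ^ 2 := by positivity
  set τ := tau M A with hτdef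
  set s : (Fin 3 → ℂ) → ℝ := fun z => (z 2).re - ψ (XX z) with hs
  have key : ∀ j : Fin 3, eLpNorm (fun z => ∑ k, (ε k : ℂ) *
        (cov (om (M ^ 40) k) j * Fb M τ (LL (om (M ^ 40) k) A z)))
        (ENNReal.ofReal p) (volume.restrict (Dom ψ)) ≤
      ENNReal.ofReal (4096 * C1 * (M : ℝ) ^ 2 * (1 / τ) ^ (1 / p)) := by
    intro j
    have h2 : eLpNorm (fun z => ∑ k, (ε k : ℂ) *
        (cov (om (M ^ 40) k) j * Fb M τ (LL (om (M ^ 40) k) A z)))
        (ENNReal.ofReal p) (volume.restrict (Dom ψ)) ≤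
        eLpNorm (fun z => (C1 * (M : ℝ) ^ 2) • Real.exp (-(τ * s z)))
        (ENNReal.ofReal p) (volume.restrict (Dom ψ)) := by
      refine eLpNorm_mono_real fun z => ?_
      rw [smul_eq_mul]
      exact h1 M hM A hA ψ hlow ε hε j z
    have h3 : eLpNorm (fun z => Real.exp (-(τ * s z))) (ENNReal.ofReal p)
        (volume.restrict (Dom ψ)) ≤ ENNReal.ofReal (4096 * (1 / τ) ^ (1 / p)) := by
      rw [eLpNorm_eq_lintegral_rpow_enorm_toReal hpne ENNReal.ofReal_ne_top,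
        ENNReal.toReal_ofReal hp0.le]
      have h4 : ∫⁻ z in Dom ψ, ‖Real.exp (-(τ * s z))‖ₑ ^ p ≤ ENNReal.ofReal (4096 / (p * τ)) := by
        have h5 : ∀ z, ‖Real.exp (-(τ * s z))‖ₑ ^ p =
            ENNReal.ofReal (Real.exp (-((p * τ) * s z))) := by
          intro z
          rw [Real.enorm_eq_ofReal (Real.exp_pos _).le,
            ENNReal.ofReal_rpow_of_nonneg (Real.exp_pos _).le hp0.le, ← Real.exp_mul]
          congr 2
          ring
        simp only [h5]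
        refine le_trans (lintegral_mono_set ?_) (lintegral_exp_le ψ hψ (p * τ) (by positivity))
        intro z hz
        exact dom_sub h0 hz
      refine (ENNReal.rpow_le_rpow h4 (by positivity)).trans ?_
      rw [ENNReal.ofReal_rpow_of_nonneg (by positivity) (by positivity)]
      exact ENNReal.ofReal_le_ofReal (rpow_bound hp hτ)
    have h6 : eLpNorm (fun z => (C1 * (M : ℝ) ^ 2) • Real.exp (-(τ * s z)))
        (ENNReal.ofReal p) (volume.restrict (Dom ψ)) =
        ENNReal.ofReal (C1 * (M : ℝ) ^ 2) * eLpNorm (fun z => Real.exp (-(τ * s z)))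
          (ENNReal.ofReal p) (volume.restrict (Dom ψ)) := by
      have h7 := eLpNorm_const_smul (C1 * (M : ℝ) ^ 2) (fun z => Real.exp (-(τ * s z)))
        (ENNReal.ofReal p) (volume.restrict (Dom ψ))
      rw [Real.enorm_eq_ofReal hK0] at h7
      exact h7
    rw [h6] at h2
    refine h2.trans ((mul_le_mul_right h3 _).trans ?_)
    rw [← ENNReal.ofReal_mul hK0]
    refine ENNReal.ofReal_le_ofReal (le_of_eq ?_)
    ring
  refine (Finset.sum_le_sum fun j _ => key j).trans ?_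
  rw [Finset.sum_const, Finset.card_univ, Fintype.card_fin, nsmul_eq_mul]
  have h8 : ((3 : ℕ) : ℝ≥0∞) = ENNReal.ofReal 3 := by
    rw [ENNReal.ofReal_ofNat]
    rfl
  rw [h8, ← ENNReal.ofReal_mul (by norm_num)]
  refine ENNReal.ofReal_le_ofReal (le_of_eq ?_)
  ring

end Pool.Agent.Helper3.DB
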