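import Mathlib

open MeasureTheory
open scoped ContDiff NNReal ENNReal

namespace Pool.Agent.Helper3.DB

/-! ### The notions of the statement -/

/-- The Wirtinger derivative `∂φ/∂z̄_j = (∂φ/∂x_j + i ∂φ/∂y_j)/2` at `z` of a function `φ` on `ℂ^n`. -/
noncomputable def dbar {n : ℕ} (j : Fin n) (φ : (Fin n → ℂ) → ℂ) (z : Fin n → ℂ) : ℂ :=
  (1 / 2 : ℂ) *
    (fderiv ℝ φ z (Pi.single j 1) + Complex.I * fderiv ℝ φ z (Pi.single j Complex.I))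

/-- `φ` is a smooth function on `ℂ^n` with compact support inside `Ω`. -/
def IsTest {n : ℕ} (Ω : Set (Fin n → ℂ)) (φ : (Fin n → ℂ) → ℂ) : Prop :=
  ContDiff ℝ ∞ φ ∧ HasCompactSupport φ ∧ tsupport φ ⊆ Ω

/-- The `(0,1)`-form `f = ∑ f_j dz̄_j` satisfies `∂̄ f = 0` on `Ω` in the sense of distributions:
`∂f_j/∂z̄_i = ∂f_i/∂z̄_j` for all `i, j`. -/
def WeakClosed {n : ℕ} (Ω : Set (Fin n → ℂ)) (f : Fin n → (Fin n → ℂ) → ℂ) : Prop :=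
  ∀ φ, IsTest Ω φ → ∀ i j, ∫ z in Ω, f j z * dbar i φ z = ∫ z in Ω, f i z * dbar j φ z

/-- `∂̄ u = f` on `Ω` in the sense of distributions: `∂u/∂z̄_j = f_j` for all `j`. -/
def WeakDbar {n : ℕ} (Ω : Set (Fin n → ℂ)) (u : (Fin n → ℂ) → ℂ)
    (f : Fin n → (Fin n → ℂ) → ℂ) : Prop :=
  ∀ φ, IsTest Ω φ → ∀ j, ∫ z in Ω, u z * dbar j φ z = -∫ z in Ω, f j z * φ z

/-- `∂̄` is solvable with `L^p` estimates on `Ω` at the level of `(0,1)`-forms (`q = 1`). -/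
def LpSolvable {n : ℕ} (Ω : Set (Fin n → ℂ)) (p : ℝ) : Prop :=
  ∃ C : ℝ≥0, ∀ f : Fin n → (Fin n → ℂ) → ℂ,
    (∀ j, MemLp (f j) (ENNReal.ofReal p) (volume.restrict Ω)) → WeakClosed Ω f →
    ∃ u : (Fin n → ℂ) → ℂ, MemLp u (ENNReal.ofReal p) (volume.restrict Ω) ∧ WeakDbar Ω u f ∧
      eLpNorm u (ENNReal.ofReal p) (volume.restrict Ω) ≤
        C * ∑ j, eLpNorm (f j) (ENNReal.ofReal p) (volume.restrict Ω)

/-- `Ω` is a bounded convex domain with `C^∞` boundary. -/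
def SmoothBoundedConvex {n : ℕ} (Ω : Set (Fin n → ℂ)) : Prop :=
  Ω.Nonempty ∧ IsOpen Ω ∧ Convex ℝ Ω ∧ Bornology.IsBounded Ω ∧
    ∃ ρ : (Fin n → ℂ) → ℝ, ContDiff ℝ ∞ ρ ∧ Ω = {z | ρ z < 0} ∧ frontier Ω = {z | ρ z = 0} ∧
      ∀ z, ρ z = 0 → fderiv ℝ ρ z ≠ 0

end Pool.Agent.Helper3.DB
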